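import Pool.Agent.Lib.MP_a4c1f4_lc.SM.Spec

/-!
MP_a4c1f4_lc, project SM, module Bas: the ratio `√(log m)`.
-/

set_option autoImplicit false

namespace Pool.Agent.MP_a4c1f4_lc.SM

open Finset MeasureTheory
open Pool.Agent.MP_a4c1f4_lc.Dbl.L (assigned cost Respects)
open Pool.Agent.MP_a4c1f4_lc.SO (fl mvN dl Mov Mv Fam opt)

namespace BasAux

variable {m : ℕ}

theorem vn_cons (t : Fin m → ℕ) (near : ℝ → Fin m) (x : ℝ) (l : List ℝ) :
    vn t near (x :: l) = t (near x) :: vn t near l := rfl

theorem vn_len (t : Fin m → ℕ) (near : ℝ → Fin m) (l : List ℝ) : (vn t near l).length = l.length := by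
  unfold vn
  rw [List.length_map]

/-- a node has more requests than its capacity -/
def Qp (t : Fin m → ℕ) (cap : Fin m → ℕ) (E : ℕ) (near : ℝ → Fin m) (l : List ℝ) : Prop :=
  ∃ k, k ≤ E ∧ ck t cap k < (vn t near l).count k

theorem Qp_nil (t : Fin m → ℕ) (cap : Fin m → ℕ) (E : ℕ) (near : ℝ → Fin m) : ¬ Qp t cap E near [] := by
  rintro ⟨k, -, h⟩
  have h2 : (vn t near []).count k = 0 := rfl
  omega

theorem Qp_cons {t : Fin m → ℕ} {cap : Fin m → ℕ} {E : ℕ} {near : ℝ → Fin m} (x : ℝ) (l : List ℝ)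
    (h : Qp t cap E near l) : Qp t cap E near (x :: l) := by
  obtain ⟨k, h1, h2⟩ := h
  refine ⟨k, h1, h2.trans_le ?_⟩
  rw [vn_cons, List.count_cons]
  exact Nat.le_add_right _ _

theorem Qp_suf {t : Fin m → ℕ} {cap : Fin m → ℕ} {E : ℕ} {near : ℝ → Fin m} {l l' : List ℝ}
    (hs : l' <:+ l) (h : Qp t cap E near l') : Qp t cap E near l := by
  obtain ⟨a, rfl⟩ := hs
  induction a with
  | nil => exact h
  | cons x a ih => exact Qp_cons x _ ih

theorem ds_suf {s : Fin m → ℝ} {near : ℝ → Fin m} {l l' : List ℝ} (hs : l' <:+ l) :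
    ds s near l' ≤ ds s near l := by
  obtain ⟨a, rfl⟩ := hs
  unfold ds
  rw [List.map_append, List.sum_append]
  have h : 0 ≤ (a.map (fun x => |x - s (near x)|)).sum := by
    refine List.sum_nonneg fun z hz => ?_
    obtain ⟨x, -, rfl⟩ := List.mem_map.1 hz
    exact abs_nonneg _
  linarith

theorem cnt_cons (v k : ℕ) (l : List ℕ) :
    ((v :: l).count k : ℝ) = (l.count k : ℝ) + if k = v then 1 else 0 := by
  rw [List.count_cons]
  by_cases hk : k = v
  · rw [if_pos hk, if_pos (by rw [hk]; exact beq_self_eq_true v)]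
    push_cast
    rfl
  · rw [if_neg hk, if_neg (by simpa using fun h : v = k => hk h.symm)]
    push_cast
    rfl

theorem mv0 (E : ℕ) : ∀ l : List ℕ, mvN E (fun l x => (l.count x : ℝ)) l = 0
  | [] => rfl
  | v :: l => by
    rw [mvN, mv0 E l, zero_add]
    refine Finset.sum_eq_zero fun x _ => ?_
    rw [cnt_cons]
    by_cases h : x = v
    · rw [h, sub_self, abs_zero, mul_zero]
    · rw [if_neg h]
      ring

theorem Mv_congr {s : Fin m → ℝ} {y y' : List ℝ → Fin m → ℝ} :
    ∀ l : List ℝ, (∀ l', l' <:+ l → y l' = y' l') → Mv s y l = Mv s y' l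
  | [], _ => rfl
  | x :: l, h => by
    rw [Mv, Mv, Mv_congr l (fun l' hl => h l' (hl.trans (List.suffix_cons x l))),
      h (x :: l) (List.suffix_refl _), h l (List.suffix_cons x l)]

theorem cnt (E : ℕ) : ∀ l : List ℕ, (∀ v ∈ l, v ≤ E) → ∑ k ∈ range (E + 1), (l.count k : ℝ) = l.length
  | [], _ => by simp
  | v :: l, h => by
    have ih := cnt E l (fun w hw => h w (List.mem_cons_of_mem _ hw))
    have hv : v ∈ range (E + 1) := mem_range.2 (by have := h v List.mem_cons_self; omega)
    rw [Finset.sum_congr rfl (fun k _ => cnt_cons v k l), Finset.sum_add_distrib, ih, Finset.sum_ite_eq',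
      if_pos hv, List.length_cons]
    push_cast
    rfl

theorem len_le {cap : Fin m → ℕ} {τ : List (Fin m)} (h : Respects cap τ) : τ.length ≤ ∑ j, cap j := by
  have h1 : ∑ j, τ.count j = τ.length := by
    have := Multiset.sum_count_eq_card (s := (univ : Finset (Fin m))) (m := (τ : Multiset (Fin m)))
      (fun a _ => mem_univ a)
    simpa using this
  rw [← h1]
  exact Finset.sum_le_sum fun j _ => h j

open Classical in
/-- the first family -/
noncomputable def yAf (t : Fin m → ℕ) (cap : Fin m → ℕ) (E : ℕ) (near : ℝ → Fin m) (l : List ℝ)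
    (j : Fin m) : ℝ :=
  if Qp t cap E near l then (l.length : ℝ) * cap j / ((∑ i, cap i : ℕ) : ℝ)
  else sk t cap (fun k => ((vn t near l).count k : ℝ)) j

theorem yAf_neg {t : Fin m → ℕ} {cap : Fin m → ℕ} {E : ℕ} {near : ℝ → Fin m} {l : List ℝ}
    (h : ¬ Qp t cap E near l) : yAf t cap E near l = sk t cap (fun k => ((vn t near l).count k : ℝ)) := by
  funext j
  unfold yAf
  rw [if_neg h]

theorem sk_zero (t : Fin m → ℕ) (cap : Fin m → ℕ) (a : ℕ → ℝ) (h : ∀ k, a k = 0) (j : Fin m) :
    sk t cap a j = 0 := by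
  unfold sk
  rw [h, zero_mul, zero_div]

theorem node_le {s : Fin m → ℝ} {cap : Fin m → ℕ} {η : ℝ} {t : Fin m → ℕ} {E : ℕ} {near : ℝ → Fin m}
    (hG : Geo s cap η t E near) (l : List ℝ) : ∀ v ∈ vn t near l, v ≤ E ∧ 0 < ck t cap v := by
  intro v hv
  obtain ⟨x, -, rfl⟩ := List.mem_map.1 hv
  refine ⟨hG.tE _ (hG.nc x), ?_⟩
  unfold ck
  refine lt_of_lt_of_le (hG.nc x) ?_
  exact Finset.single_le_sum (f := fun j => cap j) (fun j _ => Nat.zero_le _)
    (Finset.mem_filter.2 ⟨mem_univ _, rfl⟩)

/-- the numbers at the end -/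
theorem num {C : ℝ} (hC : 0 < C) {m : ℕ} (hm : 1 ≤ m) :
    3 + 8 * C * Real.sqrt ((Nat.log 2 m + 31 : ℕ) : ℝ) ≤ (6 + 64 * C) * Real.sqrt (Real.log (m + 1)) := by
  have hmr : (1 : ℝ) ≤ m := by exact_mod_cast hm
  have h2 := Real.log_two_gt_d9
  have hL : Real.log 2 ≤ Real.log (m + 1) := Real.log_le_log (by norm_num) (by linarith)
  have h1 : (Nat.log 2 m : ℝ) * Real.log 2 ≤ Real.log (m + 1) := by
    have h3 : ((2 ^ Nat.log 2 m : ℕ) : ℝ) ≤ m := by
      exact_mod_cast Nat.pow_log_le_self 2 (by omega)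
    have h4 : Real.log ((2 : ℝ) ^ Nat.log 2 m) ≤ Real.log (m + 1) := by
      refine Real.log_le_log (by positivity) ?_
      have h5 : ((2 ^ Nat.log 2 m : ℕ) : ℝ) = (2 : ℝ) ^ Nat.log 2 m := by push_cast; rfl
      rw [← h5]
      linarith
    rwa [Real.log_pow] at h4
  have h3 : ((Nat.log 2 m + 31 : ℕ) : ℝ) ≤ 64 * Real.log (m + 1) := by
    push_cast
    have h4 : (0 : ℝ) ≤ (Nat.log 2 m : ℝ) := Nat.cast_nonneg _
    have h5 : (Nat.log 2 m : ℝ) * (1 / 2) ≤ (Nat.log 2 m : ℝ) * Real.log 2 :=
      mul_le_mul_of_nonneg_left (by linarith) h4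
    linarith
  have h4 : Real.sqrt ((Nat.log 2 m + 31 : ℕ) : ℝ) ≤ 8 * Real.sqrt (Real.log (m + 1)) := by
    have h5 : (8 : ℝ) = Real.sqrt 64 := by
      rw [show (64 : ℝ) = 8 ^ 2 by norm_num, Real.sqrt_sq (by norm_num)]
    rw [h5, ← Real.sqrt_mul (by norm_num)]
    exact Real.sqrt_le_sqrt h3
  have h6 : 1 / 2 ≤ Real.sqrt (Real.log (m + 1)) := by
    refine Real.le_sqrt_of_sq_le ?_
    norm_num
    linarith
  have h7 : 8 * C * Real.sqrt ((Nat.log 2 m + 31 : ℕ) : ℝ) ≤ 8 * C * (8 * Real.sqrt (Real.log (m + 1))) :=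
    mul_le_mul_of_nonneg_left h4 (by positivity)
  linarith

end BasAux

open BasAux

theorem basP (h1 : Core2) (h2 : M_Geo) (h3 : M_GeoE) (h4 : M_Shr) (h5 : M_Pul) (h6 : M_Lo) (h7 : M_Mrg)
    (h8 : M_Mm) : M_Bas := by
  obtain ⟨C, hC, hcore⟩ := h1
  refine ⟨6 + 64 * C, by positivity, ?_⟩
  intro m s cap
  by_cases hcap : ∃ j, 0 < cap j
  swap
  · have h0 : ∀ j, cap j = 0 := fun j => by
      by_contra h
      exact hcap ⟨j, Nat.pos_of_ne_zero h⟩
    have hsum : ∑ j, cap j = 0 := Finset.sum_eq_zero fun j _ => h0 j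
    refine ⟨fun _ _ => 0, ⟨fun j => rfl, ?_⟩, ?_⟩
    · intro l hl
      rw [hsum] at hl
      have hl0 : l.length = 0 := by omega
      refine ⟨fun j => ⟨le_refl _, Nat.cast_nonneg _⟩, ?_⟩
      rw [hl0]
      simp
    · intro l τ hτ hR
      have h9 := len_le hR
      rw [hsum, hτ] at h9
      have hl : l = [] := List.length_eq_zero_iff.1 (by omega)
      have ht : τ = [] := List.length_eq_zero_iff.1 (by rw [hτ]; omega)
      rw [hl, ht]
      simp [Mov, cost]
  · have hm : 1 ≤ m := by
      obtain ⟨j, -⟩ := hcap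
      have := j.2
      omega
    obtain ⟨η, t, E, near, hG⟩ := h3 h2 m s cap hcap
    obtain ⟨S1, S2, S3, S4⟩ := h4 m t cap E hG.tE
    have hE : (0 : ℝ) < (E : ℝ) + 1 := by positivity
    obtain ⟨a, ha0, ha⟩ := hcore E m (ck t cap) (1 / ((E : ℝ) + 1)) (by positivity) hm S4
    have hcp : 0 < ∑ j, cap j := by
      obtain ⟨j, hj⟩ := hcap
      exact lt_of_lt_of_le hj (Finset.single_le_sum (f := fun j => cap j) (fun j _ => Nat.zero_le _) (mem_univ j))
    have hcpr : (0 : ℝ) < ((∑ j, cap j : ℕ) : ℝ) := by exact_mod_cast hcp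
    have hsumr : ((∑ j, cap j : ℕ) : ℝ) = ∑ j, (cap j : ℝ) := by push_cast; rfl
    -- the conclusions of the core for the nodes of l
    have hal : ∀ l : List ℝ, l.length ≤ ∑ j, cap j → _ := fun l hl =>
      ha (vn t near l) (node_le hG l) (by rw [vn_len, S3]; exact hl)
    -- family B
    have famB : Fam cap (fun l => sk t cap (a (vn t near l))) := by
      refine ⟨fun j => sk_zero t cap _ (fun k => ha0 k) j, fun l hl => ?_⟩
      obtain ⟨a1, a2, -, -⟩ := hal l hl
      obtain ⟨b1, b2⟩ := S1 _ a1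
      refine ⟨b1, ?_⟩
      have b3 := b2 (fun _ => 1)
      simp only [mul_one] at b3
      rw [b3, a2, vn_len]
    -- family A
    have famA : Fam cap (yAf t cap E near) := by
      refine ⟨fun j => ?_, fun l hl => ?_⟩
      · rw [yAf_neg (Qp_nil t cap E near)]
        exact sk_zero t cap _ (fun k => by simp [vn]) j
      · have hlr : (l.length : ℝ) ≤ ((∑ j, cap j : ℕ) : ℝ) := by exact_mod_cast hl
        by_cases hQ : Qp t cap E near l
        · have e : ∀ j, yAf t cap E near l j = (l.length : ℝ) * cap j / ((∑ i, cap i : ℕ) : ℝ) := by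
            intro j
            unfold yAf
            rw [if_pos hQ]
          refine ⟨fun j => ?_, ?_⟩
          · rw [e j]
            refine ⟨by positivity, ?_⟩
            rw [div_le_iff₀ hcpr, mul_comm]
            exact mul_le_mul_of_nonneg_left hlr (Nat.cast_nonneg _)
          · rw [Finset.sum_congr rfl (fun j _ => e j), ← Finset.sum_div, ← Finset.mul_sum, ← hsumr,
              mul_div_assoc, div_self hcpr.ne', mul_one]
        · rw [yAf_neg hQ]
          have hb : ∀ k, k ≤ E → 0 ≤ ((vn t near l).count k : ℝ) ∧ ((vn t near l).count k : ℝ) ≤ ck t cap k := by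
            intro k hk
            refine ⟨Nat.cast_nonneg _, ?_⟩
            have : (vn t near l).count k ≤ ck t cap k := by
              by_contra hc
              exact hQ ⟨k, hk, not_le.1 hc⟩
            exact_mod_cast this
          obtain ⟨b1, b2⟩ := S1 _ hb
          refine ⟨b1, ?_⟩
          have b3 := b2 (fun _ => 1)
          simp only [mul_one] at b3
          rw [b3, cnt E _ (fun v hv => (node_le hG l v hv).1), vn_len]
    -- the movement of family A
    have movA : ∀ l : List ℝ, l.length ≤ ∑ j, cap j → ¬ Qp t cap E near l →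
        Mov s (yAf t cap E near) l ≤ ds s near l := by
      intro l hl hQ
      have hQs : ∀ l', l' <:+ l → ¬ Qp t cap E near l' := fun l' hs h => hQ (Qp_suf hs h)
      have e1 := h8 m s cap (yAf t cap E near) famA l hl (by
        intro x l' hs j
        have hs' : l' <:+ l := (List.suffix_cons x l').trans hs
        rw [yAf_neg (hQs _ hs), yAf_neg (hQs _ hs')]
        refine S2 _ _ (fun k _ => ?_) j
        rw [vn_cons, cnt_cons]
        split_ifs <;> linarith)
      have e2 : Mv s (yAf t cap E near) l =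
          Mv s (fun l => sk t cap ((fun (l : List ℕ) (k : ℕ) => (l.count k : ℝ)) (vn t near l))) l :=
        Mv_congr l (fun l' hs => yAf_neg (hQs l' hs))
      have e3 := h5 m s cap η t E near (fun (l : List ℕ) (k : ℕ) => (l.count k : ℝ)) l hG (by
        intro l' hs
        refine ⟨fun k hk => ⟨Nat.cast_nonneg _, ?_⟩, ?_⟩
        · have : (vn t near l').count k ≤ ck t cap k := by
            by_contra hc
            exact hQs l' hs ⟨k, hk, not_le.1 hc⟩
          exact_mod_cast this
        · have := cnt E _ (fun v hv => (node_le hG l' v hv).1)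
          rw [vn_len] at this
          exact this) (by
        intro x l' hs k hk
        rw [vn_cons, cnt_cons]
        split_ifs <;> linarith)
      rw [mv0, mul_zero, add_zero] at e3
      linarith
    -- the movement of family B
    have movB : ∀ l : List ℝ, l.length ≤ ∑ j, cap j →
        Mov s (fun l => sk t cap (a (vn t near l))) l ≤ ds s near l + η * mvN E a (vn t near l) := by
      intro l hl
      have hls : ∀ l', l' <:+ l → l'.length ≤ ∑ j, cap j := fun l' hs => hs.length_le.trans hl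
      have hmon : ∀ x l', (x :: l') <:+ l → ∀ k, k ≤ E → a (vn t near l') k ≤ a (vn t near (x :: l')) k :=
        fun x l' hs k hk => (hal (x :: l') (hls _ hs)).2.2.1 (t (near x)) (vn t near l') rfl k hk
      have e1 := h8 m s cap (fun l => sk t cap (a (vn t near l))) famB l hl (by
        intro x l' hs j
        exact S2 _ _ (hmon x l' hs) j)
      have e3 := h5 m s cap η t E near a l hG (by
        intro l' hs
        obtain ⟨a1, a2, -, -⟩ := hal l' (hls l' hs)
        rw [vn_len] at a2
        exact ⟨a1, a2⟩) hmon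
      exact e1.trans e3
    obtain ⟨y, famy, hy⟩ := h7 m s cap (yAf t cap E near) (fun l => sk t cap (a (vn t near l)))
      (Qp t cap E near) famA famB (Qp_nil t cap E near) (fun x l h => Qp_cons x l h)
    refine ⟨y, famy, ?_⟩
    intro l τ hτ hR
    have hl : l.length ≤ ∑ j, cap j := by
      rw [← hτ]
      exact len_le hR
    obtain ⟨L1, L2, L3, L4, L5⟩ := h6 m s cap η t E near l τ hG hτ hR
    obtain ⟨y1, y2⟩ := hy l hl
    have hη := hG.pos
    have hcost : 0 ≤ cost s l τ := by
      refine le_trans ?_ L3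
      unfold ds
      refine List.sum_nonneg fun z hz => ?_
      obtain ⟨x, -, rfl⟩ := List.mem_map.1 hz
      exact abs_nonneg _
    have hnum := num hC hm
    have hsq : 0 ≤ Real.sqrt ((Nat.log 2 m + 31 : ℕ) : ℝ) := Real.sqrt_nonneg _
    by_cases hQ : Qp t cap E near l
    · obtain ⟨l', hs, hQ', hmv⟩ := y2 hQ
      have hA := movA l' (hs.length_le.trans hl) hQ'
      have hB := movB l hl
      have hds := ds_suf (s := s) (near := near) hs
      obtain ⟨-, -, -, a4⟩ := hal l hl
      have hcr := a4 (fun k => (τ.countP (fun j => decide (t j = k)) : ℝ))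
        (fun x hx => ⟨Nat.cast_nonneg _, L1 x hx⟩) (by rw [L2, vn_len])
      have hF := L5 hQ
      have hbE : 1 / ((E : ℝ) + 1) * E ≤ 1 := by
        rw [one_div, inv_mul_le_iff₀ hE]
        linarith
      have k1 : mvN E a (vn t near l) ≤ C * Real.sqrt ((Nat.log 2 m + 31 : ℕ) : ℝ) * (8 / η * cost s l τ) := by
        refine hcr.trans (mul_le_mul_of_nonneg_left ?_ (by positivity))
        have e5 : 8 / η * cost s l τ = 2 * (4 / η * cost s l τ) := by ring
        rw [e5]
        linarith
      have k2 : η * mvN E a (vn t near l) ≤ 8 * C * Real.sqrt ((Nat.log 2 m + 31 : ℕ) : ℝ) * cost s l τ := by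
        calc η * mvN E a (vn t near l) ≤
            η * (C * Real.sqrt ((Nat.log 2 m + 31 : ℕ) : ℝ) * (8 / η * cost s l τ)) :=
              mul_le_mul_of_nonneg_left k1 hη.le
          _ = 8 * C * Real.sqrt ((Nat.log 2 m + 31 : ℕ) : ℝ) * cost s l τ := by
              field_simp
      calc Mov s y l ≤ (3 + 8 * C * Real.sqrt ((Nat.log 2 m + 31 : ℕ) : ℝ)) * cost s l τ := by
            rw [add_mul]
            linarith
        _ ≤ (6 + 64 * C) * Real.sqrt (Real.log (m + 1)) * cost s l τ :=
            mul_le_mul_of_nonneg_right hnum hcost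
    · rw [y1 hQ]
      have hA := movA l hl hQ
      calc Mov s (yAf t cap E near) l ≤ 1 * cost s l τ := by linarith
        _ ≤ (3 + 8 * C * Real.sqrt ((Nat.log 2 m + 31 : ℕ) : ℝ)) * cost s l τ := by
            refine mul_le_mul_of_nonneg_right ?_ hcost
            have : 0 ≤ 8 * C * Real.sqrt ((Nat.log 2 m + 31 : ℕ) : ℝ) := by positivity
            linarith
        _ ≤ (6 + 64 * C) * Real.sqrt (Real.log (m + 1)) * cost s l τ :=
            mul_le_mul_of_nonneg_right hnum hcost

end Pool.Agent.MP_a4c1f4_lc.SM
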