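import Pool.Agent.Lib.MP_a4c1f4_lc.SM.Spec
import Pool.Agent.Lib.MP_a4c1f4_lc.SQ.Cnt

set_option autoImplicit false
set_option linter.all false

/-!
Online matching on the line: counting with a threshold `Q` which is not the number of the scales.
-/

namespace Pool.Agent.MP_a4c1f4_lc.SM

open Finset

theorem cntP : M_Cnt := by
  classical
  intro M K Q s pr cs Y sc lb v p E Λ R ε C2 C4 C5 κ T hQ hC2 hC4 hκ hT hC5 h1 h2 h3 h4 h5 h6 h7
  have hW : 0 < Real.sqrt Q := Real.sqrt_pos.2 hQ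
  have hWW : Real.sqrt Q * Real.sqrt Q = Q := Real.mul_self_sqrt hQ.le
  generalize Real.sqrt Q = W at hW hWW h4 ⊢
  set low : Finset ℕ := (range M).filter (fun t => R t ∧ pr t < 2 ^ (sc t) / W) with hlowdef
  have step1 : ∀ t ∈ range M, cs t ≤ (C2 + C4) * Y t + 2 * C2 * W * (s t * pr t) +
      (if R t ∧ pr t < 2 ^ (sc t) / W then 2 * C2 * (s t * 2 ^ (sc t)) else 0) := by
    intro t ht
    rw [Finset.mem_range] at ht
    obtain ⟨a1, a2, a3, a4⟩ := h1 t ht
    have a5 : 0 ≤ pr t := by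
      rw [a4]
      exact (h2 t t ht ht).1
    have a6 : 0 ≤ C2 * W * (s t * pr t) := by positivity
    have a7 : 0 ≤ C2 * Y t := mul_nonneg hC2 a3
    have a8 : 0 ≤ C4 * Y t := mul_nonneg hC4 a3
    by_cases hR : R t
    · obtain ⟨b1, b2, b3, b4, b5⟩ := h4 t ht hR
      by_cases hl : pr t < 2 ^ (sc t) / W
      · rw [if_pos ⟨hR, hl⟩]
        nlinarith
      · rw [if_neg (fun h => hl h.2)]
        have hl := not_lt.1 hl
        rw [div_le_iff₀ hW] at hl
        have c1 : s t * 2 ^ (sc t) ≤ s t * (pr t * W) := mul_le_mul_of_nonneg_left hl a1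
        have c2 : C2 * (s t * 2 ^ (sc t)) ≤ C2 * (s t * (pr t * W)) :=
          mul_le_mul_of_nonneg_left c1 hC2
        nlinarith
    · rw [if_neg (fun h => hR h.1)]
      have := h3 t ht hR
      linarith
  have step2 := Finset.sum_le_sum step1
  rw [Finset.sum_add_distrib, Finset.sum_add_distrib, ← Finset.mul_sum, ← Finset.mul_sum,
    ← Finset.sum_filter] at step2
  -- the classes
  have hmaps : ∀ t ∈ low, (⟨sc t, lb t⟩ : (_ : ℕ) × ℕ) ∈ (range K).sigma Λ := by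
    intro t ht
    rw [hlowdef, Finset.mem_filter, Finset.mem_range] at ht
    obtain ⟨b1, b2, b3, b4, b5⟩ := h4 t ht.1 ht.2.1
    rw [Finset.mem_sigma, Finset.mem_range]
    exact ⟨b2, b3⟩
  have e1 : ∑ t ∈ low, s t * 2 ^ (sc t) =
      ∑ i ∈ range K, ∑ x ∈ Λ i,
        ∑ t ∈ low.filter (fun t => (⟨sc t, lb t⟩ : (_ : ℕ) × ℕ) = ⟨i, x⟩), s t * 2 ^ (sc t) := by
    rw [← Finset.sum_fiberwise_of_maps_to hmaps (fun t => s t * 2 ^ (sc t)), Finset.sum_sigma]
  have hcl : ∀ i ∈ range K, ∀ x ∈ Λ i,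
      ∑ t ∈ low.filter (fun t => (⟨sc t, lb t⟩ : (_ : ℕ) × ℕ) = ⟨i, x⟩), s t * 2 ^ (sc t) ≤
        (1 / κ + 1) * (E i x / W) := by
    intro i hi x hx
    have hiK := Finset.mem_range.1 hi
    by_cases hne : (low.filter (fun t => (⟨sc t, lb t⟩ : (_ : ℕ) × ℕ) = ⟨i, x⟩)).Nonempty
    · have hmem : ∀ t ∈ low.filter (fun t => (⟨sc t, lb t⟩ : (_ : ℕ) × ℕ) = ⟨i, x⟩),
          t < M ∧ R t ∧ pr t < 2 ^ i / W ∧ sc t = i ∧ lb t = x := by
        intro t ht
        rw [Finset.mem_filter, hlowdef, Finset.mem_filter, Finset.mem_range] at ht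
        obtain ⟨⟨c1, c2, c3⟩, c4⟩ := ht
        have c5 : sc t = i := congrArg Sigma.fst c4
        have c6 : lb t = x := by
          subst c5
          exact eq_of_heq (Sigma.mk.inj_iff.1 c4).2
        rw [c5] at c3
        exact ⟨c1, c2, c3, c5, c6⟩
      obtain ⟨t0, ht0⟩ := hne
      obtain ⟨d1, d2, d3, d4, d5⟩ := hmem t0 ht0
      obtain ⟨b1, b2, b3, b4, b5⟩ := h4 t0 d1 d2
      rw [d4, d5] at b4 b5
      have e2 : ∑ t ∈ low.filter (fun t => (⟨sc t, lb t⟩ : (_ : ℕ) × ℕ) = ⟨i, x⟩),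
          s t * 2 ^ (sc t) =
          2 ^ i * ∑ t ∈ low.filter (fun t => (⟨sc t, lb t⟩ : (_ : ℕ) × ℕ) = ⟨i, x⟩), s t := by
        rw [Finset.mul_sum]
        refine Finset.sum_congr rfl fun t ht => ?_
        rw [(hmem t ht).2.2.2.1]
        ring
      rw [e2]
      refine SQ.CntM.cls M s pr v p _ ε W (2 ^ i) κ (E i x) hW (by positivity) hκ b4
        (fun t ht => (hmem t ht).1) (fun t ht => ⟨(h1 t ht).1, (h1 t ht).2.1, (h1 t ht).2.2.2⟩)
        h2 b5 (fun t ht => (hmem t ht).2.2.1) ?_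
      intro t ht t' ht' htt
      obtain ⟨c1, c2, c3, c4, c5⟩ := hmem t ht
      obtain ⟨c1', c2', c3', c4', c5'⟩ := hmem t' ht'
      have := h5 t t' htt c1' c2 c2' (by rw [c4, c4']) (by rw [c5, c5'])
      rw [c4, c5] at this
      exact this
    · rw [Finset.not_nonempty_iff_eq_empty.1 hne, Finset.sum_empty]
      have := h7 i x hiK hx
      positivity
  have hlow : ∑ t ∈ low, s t * 2 ^ (sc t) ≤ (1 / κ + 1) * C5 * W * T := by
    rw [e1]
    calc ∑ i ∈ range K, ∑ x ∈ Λ i,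
          ∑ t ∈ low.filter (fun t => (⟨sc t, lb t⟩ : (_ : ℕ) × ℕ) = ⟨i, x⟩), s t * 2 ^ (sc t)
        ≤ ∑ i ∈ range K, ∑ x ∈ Λ i, (1 / κ + 1) * (E i x / W) :=
          Finset.sum_le_sum fun i hi => Finset.sum_le_sum fun x hx => hcl i hi x hx
      _ = ∑ i ∈ range K, (1 / κ + 1) / W * ∑ x ∈ Λ i, E i x := by
          refine Finset.sum_congr rfl fun i _ => ?_
          rw [Finset.mul_sum]
          refine Finset.sum_congr rfl fun x _ => ?_
          ring
      _ = (1 / κ + 1) / W * ∑ i ∈ range K, ∑ x ∈ Λ i, E i x := by rw [Finset.mul_sum]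
      _ ≤ (1 / κ + 1) / W * (C5 * Q * T) := mul_le_mul_of_nonneg_left h6 (by positivity)
      _ = (1 / κ + 1) * C5 * W * T := by
          rw [← hWW]
          field_simp
  have hfin : ∑ t ∈ low, 2 * C2 * (s t * 2 ^ (sc t)) ≤ 2 * C2 * (1 / κ + 1) * C5 * W * T := by
    rw [← Finset.mul_sum]
    have := mul_le_mul_of_nonneg_left hlow (by positivity : (0 : ℝ) ≤ 2 * C2)
    linarith
  exact le_trans step2 (by linarith)

end Pool.Agent.MP_a4c1f4_lc.SM
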