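import Pool.Agent.Lib.MP_a4c1f4_lc.SM.Spec
import Pool.Agent.Lib.MP_a4c1f4_lc.SQ.Co

set_option autoImplicit false
set_option linter.all false

/-!
Online matching on the line: the core for `m` sites.
-/

namespace Pool.Agent.MP_a4c1f4_lc.SM.CoAux

open Finset
open Pool.Agent.MP_a4c1f4_lc.SO (fl mvN)
open Pool.Agent.MP_a4c1f4_lc.SQ (St us sl TT XX BB uL uR qq Move Self Stp Inv AbS Rn YY mo Off S_Ab S_In S_Mc S_Ex)
open Pool.Agent.MP_a4c1f4_lc.SQ.CoM (Gd us_sum flow_bd gd_step gd_ini Sq sta aa sta_cons sum_count sum_Icc_fl)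

/-- The state `σ` is reached with the movement `m`. -/
inductive Pth (N : ℕ) (c : ℕ → ℝ) (D : ℕ) (b ε : ℝ) (L : ℕ) (P : Finset ℕ) : St → ℝ → Prop
  | ini : Pth N c D b ε L P (SQ.ini b) 0
  | step (σ : St) (m : ℝ) (v : ℕ) (s : ℝ) (σ' : St) : Pth N c D b ε L P σ m → 0 ≤ s → s ≤ ε → v ≤ N → v ∈ P →
      Stp N c D b L σ v s σ' → Pth N c D b ε L P σ' (m + mo N σ σ')

lemma pth_gd (hAb : S_Ab) (hIn : S_In) {N : ℕ} {c : ℕ → ℝ} {D : ℕ} {b ε : ℝ} {L : ℕ} {P : Finset ℕ} (hb : 0 < b)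
    (hε : 0 < ε) (hc : ∀ x, 0 ≤ c x) {σ : St} {m : ℝ} (h : Pth N c D b ε L P σ m) :
    Gd N c b ε σ := by
  induction h with
  | ini => exact gd_ini hb hε hc
  | step σ m v s σ' _ hs hsε hv _ hst ih => exact gd_step hAb hIn hb hs hsε hv hc ih hst

lemma pth_run (hAb : S_Ab) (hIn : S_In) {N : ℕ} {c : ℕ → ℝ} {D : ℕ} {b ε : ℝ} {L : ℕ} {P : Finset ℕ} (hb : 0 < b)
    (hε : 0 < ε) (hε1 : ε ≤ b / 512) (hc : ∀ x, 0 ≤ c x)
    (hL : b + ∑ x ∈ range (N + 1), c x < b * 64 ^ L) {σ : St} {m : ℝ}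
    (h : Pth N c D b ε L P σ m) :
    ∃ (M : ℕ) (σs : ℕ → St) (v : ℕ → ℕ) (s : ℕ → ℝ), Rn N c D b ε L M σs v s ∧ σs M = σ ∧
      (∀ t, t < M → v t ∈ P) ∧ ∑ t ∈ range M, mo N (σs t) (σs (t + 1)) = m := by
  induction h with
  | ini =>
    refine ⟨0, fun _ => SQ.ini b, fun _ => 0, fun _ => 0, ⟨hb, hε, hε1, hc, rfl, ?_, ?_, ?_, ?_⟩,
      rfl, fun t ht => absurd ht (by omega), by simp⟩
    · intro t ht; omega
    · intro t ht; omega
    · intro t ht; omega
    · intro t ht k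
      exact lt_of_le_of_lt ((gd_ini hb hε hc).2 k) hL
  | step σ m v s σ' hP hs hsε hv hvP hst ih =>
    obtain ⟨M, σs, vs, ss, hR, hM, hPv, hsum⟩ := ih
    have hG : Gd N c b ε σ' :=
      gd_step hAb hIn hb hs hsε hv hc (pth_gd hAb hIn hb hε hc hP) hst
    refine ⟨M + 1, fun t => if t ≤ M then σs t else σ', fun t => if t < M then vs t else v,
      fun t => if t < M then ss t else s, ⟨hb, hε, hε1, hc, ?_, ?_, ?_, ?_, ?_⟩, ?_, ?_, ?_⟩
    · simp only [Nat.zero_le, if_true]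
      exact hR.ini
    · intro t ht
      by_cases h1 : t < M
      · rw [if_pos h1]
        exact hR.hs t h1
      · rw [if_neg h1]
        exact ⟨hs, hsε⟩
    · intro t ht
      by_cases h1 : t < M
      · rw [if_pos h1]
        exact hR.hv t h1
      · rw [if_neg h1]
        exact hv
    · intro t ht
      by_cases h1 : t < M
      · rw [if_pos h1, if_pos h1, if_pos h1.le, if_pos (by omega : t + 1 ≤ M)]
        exact hR.step t h1
      · have h2 : t = M := by omega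
        subst h2
        rw [if_neg h1, if_neg h1, if_pos le_rfl, if_neg (by omega : ¬ (t + 1 ≤ t)), hM]
        exact hst
    · intro t ht k
      by_cases h1 : t ≤ M
      · rw [if_pos h1]
        exact hR.top t h1 k
      · rw [if_neg h1]
        exact lt_of_le_of_lt (hG.2 k) hL
    · dsimp only
      rw [if_neg (by omega : ¬ (M + 1 ≤ M))]
    · intro t ht
      dsimp only
      by_cases h1 : t < M
      · rw [if_pos h1]
        exact hPv t h1
      · rw [if_neg h1]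
        exact hvP
    · rw [sum_range_succ]
      dsimp only
      rw [if_pos le_rfl, if_neg (by omega : ¬ (M + 1 ≤ M)), hM, ← hsum]
      congr 1
      refine sum_congr rfl (fun t ht => ?_)
      rw [mem_range] at ht
      rw [if_pos ht.le, if_pos (by omega : t + 1 ≤ M)]

lemma sq_pth (hAb : S_Ab) (hIn : S_In) (hMc : S_Mc) {N : ℕ} {c : ℕ → ℝ} {D : ℕ} {b ε : ℝ} {L : ℕ}
    {P : Finset ℕ} (hb : 0 < b) (hε : 0 < ε) (hc : ∀ x, 0 ≤ c x) {σ : St} {v : ℕ} {σ' : St} {m : ℝ} (hv : v ≤ N) (hvP : v ∈ P)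
    (h : Sq N c D b ε L σ v σ') (hP : Pth N c D b ε L P σ m) :
    Pth N c D b ε L P σ' (m + ∑ x ∈ range (N + 1), (us σ' x - us σ x) * |(x : ℝ) - (v : ℝ)|) ∧
    (∀ x, σ'.r x = σ.r x + if x = v then 1 else 0) ∧ ∀ x, x ≤ N → us σ x ≤ us σ' x := by
  obtain ⟨M, σs, s, h0, hM, hst, hsum⟩ := h
  have key : ∀ t, t ≤ M →
      Pth N c D b ε L P (σs t)
        (m + ∑ x ∈ range (N + 1), (us (σs t) x - us σ x) * |(x : ℝ) - (v : ℝ)|) ∧
      (∀ x, (σs t).r x = σ.r x + if x = v then ∑ i ∈ range t, s i else 0) ∧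
      ∀ x, x ≤ N → us σ x ≤ us (σs t) x := by
    intro t
    induction t with
    | zero =>
      intro _
      rw [h0]
      refine ⟨?_, ?_, fun x _ => le_refl _⟩
      · simpa using hP
      · intro x
        simp
    | succ t ih =>
      intro ht
      obtain ⟨ih1, ih2, ih3⟩ := ih (by omega)
      obtain ⟨hs0, hs1, hs2⟩ := hst t (by omega)
      have hG := pth_gd hAb hIn hb hε hc ih1
      have hA := hAb N c D b ε L (σs t) v (s t) (σs (t + 1)) hb hs0 hv hG.1 hs2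
      have hcost := hMc N c D b L (σs t) v (s t) (σs (t + 1)) hs0 hv hs2
      refine ⟨?_, ?_, fun x hx => le_trans (ih3 x hx) (hA.um x hx)⟩
      · have h1 := Pth.step (σs t) _ v (s t) (σs (t + 1)) ih1 hs0 hs1 hv hvP hs2
        rw [← hcost, add_assoc, ← sum_add_distrib] at h1
        have h2 : ∑ x ∈ range (N + 1), ((us (σs t) x - us σ x) * |(x : ℝ) - (v : ℝ)| +
            (us (σs (t + 1)) x - us (σs t) x) * |(x : ℝ) - (v : ℝ)|) =
            ∑ x ∈ range (N + 1), (us (σs (t + 1)) x - us σ x) * |(x : ℝ) - (v : ℝ)| :=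
          sum_congr rfl (fun x _ => by ring)
        rw [h2] at h1
        exact h1
      · intro x
        rw [hA.hr x, ih2 x, sum_range_succ]
        by_cases hx : x = v
        · simp only [hx, if_true]
          ring
        · simp only [hx, if_false]
          ring
  have h1 := key M le_rfl
  rw [hM, hsum] at h1
  exact h1

lemma main (hAb : S_Ab) (hIn : S_In) (hMc : S_Mc) (hEx : S_Ex) {N D n0 : ℕ} {c : ℕ → ℕ} {b ε : ℝ}
    {L : ℕ} {P : Finset ℕ} (hb : 0 < b) (hε : 0 < ε) (hD : 1 ≤ D)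
    (hw : ∀ x, x + D ≤ N + 1 → n0 ≤ ∑ y ∈ Ico x (x + D), c y) :
    ∀ l : List ℕ, (∀ v, v ∈ l → v ≤ N) → (∀ v, v ∈ l → v ∈ P) → l.length ≤ n0 → l.length ≤ ∑ x ∈ range (N + 1), c x →
    Pth N (fun x => (c x : ℝ)) D b ε L P (sta N (fun x => (c x : ℝ)) D b ε L l)
      (mvN N (aa N (fun x => (c x : ℝ)) D b ε L) l) ∧
    (∀ x, (sta N (fun x => (c x : ℝ)) D b ε L l).r x = l.count x) ∧
    ∀ v l', l = v :: l' → ∀ x, x ≤ N → us (sta N (fun x => (c x : ℝ)) D b ε L l') x ≤
      us (sta N (fun x => (c x : ℝ)) D b ε L l) x := by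
  intro l
  induction l with
  | nil =>
    intro _ _ _ _
    refine ⟨?_, ?_, ?_⟩
    · simp only [mvN]
      rw [sta]
      exact Pth.ini
    · intro x
      rw [sta]
      simp [SQ.ini]
    · intro v l' h
      exact absurd h (by simp)
  | cons v l ih =>
    intro hl hlP hn hcs
    rw [List.length_cons] at hn hcs
    have hv : v ≤ N := hl v List.mem_cons_self
    have hl' : ∀ w, w ∈ l → w ≤ N := fun w hw' => hl w (List.mem_cons_of_mem _ hw')
    obtain ⟨ih1, ih2, _⟩ := ih hl' (fun w hw' => hlP w (List.mem_cons_of_mem _ hw')) (by omega) (by omega)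
    have hc : ∀ x, 0 ≤ (fun x => (c x : ℝ)) x := fun x => Nat.cast_nonneg _
    have hG := pth_gd hAb hIn hb hε hc ih1
    have hr : ∑ x ∈ range (N + 1), (sta N (fun x => (c x : ℝ)) D b ε L l).r x = l.length := by
      rw [← sum_count hl']
      exact sum_congr rfl (fun x _ => ih2 x)
    have hex := hEx N (fun x => (c x : ℝ)) D b ε n0 L (sta N (fun x => (c x : ℝ)) D b ε L l) v 1 hb hε
      hv zero_le_one hG.1 hD
      (fun x hx => by exact_mod_cast hw x hx)
      (by rw [hr]; exact_mod_cast hn)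
      (by rw [hr]; exact_mod_cast hcs)
    obtain ⟨M, σs, s, h0, hst, hsum⟩ := hex
    have hSq := sta_cons (N := N) (c := fun x => (c x : ℝ)) (D := D) (b := b) (ε := ε) (L := L)
      (v := v) (l := l) ⟨σs M, M, σs, s, h0, rfl, hst, hsum⟩
    obtain ⟨k1, k2, k3⟩ := sq_pth hAb hIn hMc hb hε hc hv (hlP v List.mem_cons_self) hSq ih1
    refine ⟨?_, ?_, ?_⟩
    · have h1 : mvN N (aa N (fun x => (c x : ℝ)) D b ε L) (v :: l) =
          mvN N (aa N (fun x => (c x : ℝ)) D b ε L) l + ∑ x ∈ range (N + 1),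
            (us (sta N (fun x => (c x : ℝ)) D b ε L (v :: l)) x -
              us (sta N (fun x => (c x : ℝ)) D b ε L l) x) * |(x : ℝ) - (v : ℝ)| := by
        rw [mvN]
        congr 1
        refine sum_congr rfl (fun x hx => ?_)
        rw [mem_range] at hx
        unfold aa
        rw [if_pos (by omega : x ≤ N), if_pos (by omega : x ≤ N)]
      rw [h1]
      exact k1
    · intro x
      rw [k2 x, ih2 x, List.count_cons]
      by_cases hx : x = v
      · subst hx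
        simp
      · have : ¬ (v = x) := fun h => hx h.symm
        simp [hx, this]
    · intro w l' h x hx
      obtain ⟨rfl, rfl⟩ := List.cons.inj h
      exact k3 x hx

end Pool.Agent.MP_a4c1f4_lc.SM.CoAux

namespace Pool.Agent.MP_a4c1f4_lc.SM

open Finset
open Pool.Agent.MP_a4c1f4_lc.SO (fl mvN)
open Pool.Agent.MP_a4c1f4_lc.SQ (St us Inv Rn mo Off)
open Pool.Agent.MP_a4c1f4_lc.SQ.CoM (Gd us_sum aa sta sum_count sum_Icc_fl)
open CoAux

/-- The core for `m` sites. -/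
theorem coP : SQ.S_Ab → SQ.S_In → M_Mn → SQ.S_Mc → SQ.S_Ex → Core2 := by
  intro hAb hIn hMn hMc hEx
  obtain ⟨C, hC, hMn⟩ := hMn
  refine ⟨C, hC, ?_⟩
  intro E m c b hb hm hcard
  have hs : 0 < 2 * Real.sqrt ((Nat.log 2 m + 31 : ℕ) : ℝ) :=
    mul_pos two_pos (Real.sqrt_pos.2 (by positivity))
  obtain ⟨ε, hεdef⟩ : ∃ ε : ℝ, ε = min (b / 512) (b / (2 * Real.sqrt ((Nat.log 2 m + 31 : ℕ) : ℝ))) :=
    ⟨_, rfl⟩
  have hε : 0 < ε := by
    rw [hεdef]
    exact lt_min (by positivity) (div_pos hb hs)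
  have hε1 : ε ≤ b / 512 := by rw [hεdef]; exact min_le_left _ _
  have hε2 : ε ≤ b / (2 * Real.sqrt ((Nat.log 2 m + 31 : ℕ) : ℝ)) := by
    rw [hεdef]; exact min_le_right _ _
  obtain ⟨L, hL⟩ : ∃ L : ℕ, b + ∑ x ∈ range (E + 1), (c x : ℝ) < b * 64 ^ L := by
    obtain ⟨L, hL⟩ := pow_unbounded_of_one_lt ((b + ∑ x ∈ range (E + 1), (c x : ℝ)) / b)
      (by norm_num : (1 : ℝ) < 64)
    refine ⟨L, ?_⟩
    rw [div_lt_iff₀ hb] at hL
    linarith [mul_comm b ((64 : ℝ) ^ L)]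
  have hc : ∀ x, 0 ≤ (fun x => (c x : ℝ)) x := fun x => Nat.cast_nonneg _
  have hD : 1 ≤ E + 1 := by omega
  have hw : ∀ x, x + (E + 1) ≤ E + 1 → ∑ y ∈ range (E + 1), c y ≤ ∑ y ∈ Ico x (x + (E + 1)), c y := by
    intro x hx
    have hx0 : x = 0 := by omega
    subst hx0
    rw [zero_add, Finset.range_eq_Ico]
  refine ⟨aa E (fun x => (c x : ℝ)) (E + 1) b ε L, ?_, ?_⟩
  · intro x
    unfold SQ.CoM.aa
    rw [SQ.CoM.sta]
    simp [SQ.us, SQ.ini]
  · intro l hlc hcs
    have hl : ∀ v, v ∈ l → v ≤ E := fun v hv => (hlc v hv).1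
    have hlP : ∀ v, v ∈ l → v ∈ (range (E + 1)).filter (fun x => 0 < c x) := by
      intro v hv
      rw [mem_filter, mem_range]
      have := hlc v hv
      exact ⟨by omega, this.2⟩
    obtain ⟨h1, h2, h3⟩ := main hAb hIn hMc hEx (L := L) hb hε hD hw l hl hlP hcs hcs
    have hG := pth_gd hAb hIn hb hε hc h1
    refine ⟨?_, ?_, ?_, ?_⟩
    · intro x hx
      unfold SQ.CoM.aa
      rw [if_pos hx]
      exact ⟨hG.1.u0 x hx, hG.1.cap x hx⟩
    · have h4 : ∑ x ∈ range (E + 1), aa E (fun x => (c x : ℝ)) (E + 1) b ε L l x =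
          ∑ x ∈ range (E + 1), us (sta E (fun x => (c x : ℝ)) (E + 1) b ε L l) x := by
        refine sum_congr rfl (fun x hx => ?_)
        rw [mem_range] at hx
        unfold SQ.CoM.aa
        rw [if_pos (by omega : x ≤ E)]
      rw [h4, us_sum, hG.1.f0, hG.1.fN (E + 1) (by omega), add_zero, sub_zero, ← sum_count hl]
      exact sum_congr rfl (fun x _ => h2 x)
    · intro v l' h x hx
      unfold SQ.CoM.aa
      rw [if_pos hx, if_pos hx]
      exact h3 v l' h x hx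
    · intro u hu hus
      obtain ⟨M, σs, v, s, hR, hM, hPv, hsum⟩ := pth_run hAb hIn hb hε hε1 hc hL h1
      have hOff : Off E (fun x => (c x : ℝ)) (σs M).r
          (fun k => ∑ x ∈ range k, ((l.count x : ℝ) - u x)) := by
        refine ⟨by simp, ?_, ?_⟩
        · rw [sum_sub_distrib, sum_count hl, hus, sub_self]
        · intro x hx
          rw [sum_range_succ, hM, h2 x]
          have := (hu x hx).2
          linarith
      have hP : ∀ x, x ≤ E → 0 < (fun x => (c x : ℝ)) x → x ∈ (range (E + 1)).filter (fun x => 0 < c x) := by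
        intro x hx hcx
        rw [mem_filter, mem_range]
        have hcx' : (0 : ℝ) < (c x : ℝ) := hcx
        exact ⟨by omega, by exact_mod_cast hcx'⟩
      have h5 := hMn E (fun x => (c x : ℝ)) (E + 1) m b ε L M σs v s _
        ((range (E + 1)).filter (fun x => 0 < c x)) hm hcard hP hPv hR hOff hε2
      rw [hsum] at h5
      rw [sum_Icc_fl] at h5
      exact h5

end Pool.Agent.MP_a4c1f4_lc.SM
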