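import Pool.Agent.Lib.MP_a4c1f4_lc.SM.Spec

set_option autoImplicit false
set_option linter.all false

/-!
Project SM: both bounds for the fractional solutions, and the theorem.
-/

namespace Pool.Agent.MP_a4c1f4_lc.SM

open Finset MeasureTheory
open Pool.Agent.MP_a4c1f4_lc.Dbl.L (assigned cost Respects)
open Pool.Agent.MP_a4c1f4_lc.SO (fl mvN dl Mov Mv Fam opt)

namespace FracAux

theorem len_le {m : ℕ} (cap : Fin m → ℕ) (τ : List (Fin m)) (h : Respects cap τ) :
    τ.length ≤ ∑ j, cap j := by
  have h1 : ∑ j, τ.count j = τ.length := by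
    rw [← List.sum_toFinset_count_eq_length τ]
    symm
    apply Finset.sum_subset (Finset.subset_univ _)
    intro x _ hx
    exact List.count_eq_zero.mpr (by simpa using hx)
  rw [← h1]
  exact Finset.sum_le_sum fun j _ => h j

theorem cost_nonneg {m : ℕ} (s : Fin m → ℝ) : ∀ (l : List ℝ) (τ : List (Fin m)), 0 ≤ cost s l τ := by
  intro l
  induction l with
  | nil => intro τ; simp [cost]
  | cons x l ih =>
    intro τ
    cases τ with
    | nil => simp [cost]
    | cons j τ =>
      have h := ih τ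
      unfold cost at h ⊢
      simp only [List.zipWith_cons_cons, List.sum_cons]
      exact add_nonneg dist_nonneg h

theorem suf {m : ℕ} (s : Fin m → ℝ) : ∀ (t l' : List ℝ) (τ : List (Fin m)),
    τ.length = (t ++ l').length → ∃ τ' : List (Fin m), τ'.length = l'.length ∧
      (∀ j, τ'.count j ≤ τ.count j) ∧ cost s l' τ' ≤ cost s (t ++ l') τ := by
  intro t
  induction t with
  | nil =>
    intro l' τ h
    exact ⟨τ, h, fun j => le_refl _, le_refl _⟩
  | cons x t ih =>
    intro l' τ h
    cases τ with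
    | nil => simp at h
    | cons j τ =>
      have h' : τ.length = (t ++ l').length := by
        simpa using h
      obtain ⟨τ', h1, h2, h3⟩ := ih l' τ h'
      refine ⟨τ', h1, fun i => (h2 i).trans ?_, h3.trans ?_⟩
      · rw [List.count_cons]
        exact Nat.le_add_right _ _
      · unfold cost
        simp only [List.cons_append, List.zipWith_cons_cons, List.sum_cons]
        exact le_add_of_nonneg_left dist_nonneg

theorem sl_mono (a b : ℕ) (h : a ≤ b) :
    Real.sqrt (Real.log ((a : ℝ) + 1)) ≤ Real.sqrt (Real.log ((b : ℝ) + 1)) := by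
  apply Real.sqrt_le_sqrt
  apply Real.log_le_log (by positivity)
  have : (a : ℝ) ≤ b := by exact_mod_cast h
  linarith

end FracAux

open FracAux in
/-- Both bounds. -/
theorem fracP : SO.O_Frac → M_Bas → M_Mrg → M_Frac := by
  rintro ⟨CA, hCA, hA⟩ ⟨CB, hCB, hB⟩ hM
  refine ⟨CB + 2 * CA, by positivity, fun m s cap => ?_⟩
  rcases Nat.eq_zero_or_pos m with hm | hm
  · subst hm
    refine ⟨fun _ _ => 0, ⟨fun _ => rfl, fun l hl => ?_⟩, fun l τ hτ _ => ?_⟩
    · have h0 : l.length = 0 := by simpa using hl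
      refine ⟨fun j => ⟨le_refl _, Nat.cast_nonneg _⟩, ?_⟩
      rw [h0]
      simp
    · have hτ0 : τ = [] := by
        cases τ with
        | nil => rfl
        | cons j _ => exact j.elim0
      subst hτ0
      have hl : l = [] := by
        have h0 : l.length = 0 := by simpa using hτ.symm
        exact List.length_eq_zero_iff.1 h0
      subst hl
      simp [Mov, cost]
  obtain ⟨yA, hyA, bA⟩ := hA m s cap
  obtain ⟨yB, hyB, bB⟩ := hB m s cap
  obtain ⟨y, hy, hb⟩ := hM m s cap yA yB (fun l => m ≤ l.length) hyA hyB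
    (by simp only [List.length_nil]; omega)
    (fun x l h => by simp only [List.length_cons]; omega)
  refine ⟨y, hy, fun l τ hτ hr => ?_⟩
  have hl : l.length ≤ ∑ j, cap j := by
    rw [← hτ]
    exact len_le cap τ hr
  obtain ⟨h1, h2⟩ := hb l hl
  have hc := cost_nonneg s l τ
  by_cases hq : m ≤ l.length
  · obtain ⟨l', hs, hq', h3⟩ := h2 hq
    obtain ⟨t, rfl⟩ := hs
    obtain ⟨τ', e1, e2, e3⟩ := suf s t l' τ hτ
    have h4 := bB (t ++ l') τ hτ hr
    have h5 := bA l' τ' e1 (fun j => (e2 j).trans (hr j))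
    have hlt : l'.length ≤ m := by
      have : ¬ m ≤ l'.length := hq'
      omega
    have h6 := sl_mono l'.length m hlt
    have h7 : CA * Real.sqrt (Real.log ((l'.length : ℝ) + 1)) * cost s l' τ' ≤
        CA * Real.sqrt (Real.log ((m : ℝ) + 1)) * cost s (t ++ l') τ := by
      refine mul_le_mul (mul_le_mul_of_nonneg_left h6 hCA.le) e3 (cost_nonneg _ _ _) ?_
      exact mul_nonneg hCA.le (Real.sqrt_nonneg _)
    rw [min_eq_right hq]
    have e : (CB + 2 * CA) * Real.sqrt (Real.log ((m : ℝ) + 1)) * cost s (t ++ l') τ =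
        CB * Real.sqrt (Real.log ((m : ℝ) + 1)) * cost s (t ++ l') τ +
          2 * (CA * Real.sqrt (Real.log ((m : ℝ) + 1)) * cost s (t ++ l') τ) := by ring
    rw [e]
    linarith
  · have h3 := h1 hq
    have h4 := bA l τ hτ hr
    rw [h3, min_eq_left (by omega : l.length ≤ m)]
    refine h4.trans ?_
    have h5 : CA * Real.sqrt (Real.log ((l.length : ℝ) + 1)) ≤
        (CB + 2 * CA) * Real.sqrt (Real.log ((l.length : ℝ) + 1)) :=
      mul_le_mul_of_nonneg_right (by linarith) (Real.sqrt_nonneg _)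
    exact mul_le_mul_of_nonneg_right h5 hc

open FracAux in
/-- The theorem. -/
theorem finP : M_Frac → SO.Rnd → Final2 := by
  rintro ⟨C, hC, hF⟩ hR
  refine ⟨C, hC, ?_⟩
  intro m hm s cap
  obtain ⟨y, hy, hb⟩ := hF m s cap
  obtain ⟨Ω, mΩ, μ, hμ, A, hA, hRe, hc⟩ := hR m hm s cap y hy
  refine ⟨Ω, mΩ, μ, hμ, A, hA, hRe, ?_⟩
  intro l τ hτ hcap
  have hlen : l.length ≤ ∑ j, cap j := by
    rw [← hτ]
    exact len_le cap τ hcap
  exact (hc l hlen).trans (hb l τ hτ hcap)

end Pool.Agent.MP_a4c1f4_lc.SM
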