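import Pool.Agent.Lib.MP_a4c1f4_lc.SM.Spec

set_option autoImplicit false
set_option linter.all false

/-! Proof of `M_Gap`: the gaps between the sites. -/

namespace Pool.Agent.MP_a4c1f4_lc.SM

open Finset

namespace GapAux

/-- Number of the sites on the left of `k`. -/
def ph (P : Finset ℕ) (k : ℕ) : ℕ := (P.filter (fun p => p < k)).card

lemma ph_eq {P : Finset ℕ} {k k' : ℕ} (h : ph P k = ph P k') :
    ∀ p ∈ P, (p < k ↔ p < k') := by
  have key : ∀ a b : ℕ, a ≤ b → ph P a = ph P b → ∀ p ∈ P, (p < a ↔ p < b) := by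
    intro a b hab hh p hp
    have hsub : P.filter (fun p => p < a) ⊆ P.filter (fun p => p < b) := by
      intro q hq
      rw [mem_filter] at hq ⊢
      exact ⟨hq.1, lt_of_lt_of_le hq.2 hab⟩
    have heq : P.filter (fun p => p < a) = P.filter (fun p => p < b) :=
      eq_of_subset_of_card_le hsub (le_of_eq hh.symm)
    constructor
    · intro h1
      exact lt_of_lt_of_le h1 hab
    · intro h1
      have : p ∈ P.filter (fun p => p < b) := mem_filter.2 ⟨hp, h1⟩
      rw [← heq] at this
      exact (mem_filter.1 this).2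
  intro p hp
  rcases le_total k k' with hk | hk
  · exact key k k' hk h p hp
  · exact (key k' k hk h.symm p hp).symm

lemma main (N m H : ℕ) (P A : Finset ℕ) (hm : 1 ≤ m) (hA : ∀ k ∈ A, 1 ≤ k ∧ k ≤ N)
    (hw : ∀ k ∈ A, 4 * m * wg N P k < H) (hc : (A.image (ph P)).card ≤ m) :
    4 * A.card ≤ H := by
  have h1 : A.card = ∑ a ∈ A.image (ph P), (A.filter (fun k => ph P k = a)).card :=
    card_eq_sum_card_image (ph P) A
  have h2 : ∀ a ∈ A.image (ph P), 4 * m * (A.filter (fun k => ph P k = a)).card ≤ H := by
    intro a ha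
    obtain ⟨k, hk, hka⟩ := mem_image.1 ha
    have h3 : (A.filter (fun k => ph P k = a)).card ≤ wg N P k := by
      unfold wg
      apply card_le_card
      intro k' hk'
      rw [mem_filter] at hk'
      rw [mem_filter, mem_Icc]
      refine ⟨hA k' hk'.1, ?_⟩
      exact ph_eq (hka.trans hk'.2.symm)
    have h4 := hw k hk
    calc 4 * m * (A.filter (fun k => ph P k = a)).card ≤ 4 * m * wg N P k :=
          Nat.mul_le_mul_left _ h3
      _ ≤ H := h4.le
  have h5 : 4 * m * A.card ≤ m * H := by
    rw [h1, mul_sum]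
    calc ∑ a ∈ A.image (ph P), 4 * m * (A.filter (fun k => ph P k = a)).card
        ≤ ∑ a ∈ A.image (ph P), H := sum_le_sum h2
      _ = (A.image (ph P)).card * H := by rw [sum_const, smul_eq_mul]
      _ ≤ m * H := Nat.mul_le_mul_right _ hc
  have h6 : m * (4 * A.card) ≤ m * H := by
    calc m * (4 * A.card) = 4 * m * A.card := by ring
      _ ≤ m * H := h5
  exact Nat.le_of_mul_le_mul_left h6 hm

end GapAux

open GapAux in
theorem gapP : M_Gap := by
  intro N m P hm hP
  refine ⟨?_, ?_, ?_, ?_⟩
  · intro k hk hkN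
    unfold wg
    apply card_pos.2
    exact ⟨k, mem_filter.2 ⟨mem_Icc.2 ⟨hk, hkN⟩, fun p _ => Iff.rfl⟩⟩
  · intro p p' k hp hp' hpk hkp'
    unfold wg
    have hsub : (Icc 1 N).filter (fun k' => ∀ q ∈ P, (q < k ↔ q < k')) ⊆ Ioc p p' := by
      intro k' hk'
      rw [mem_filter] at hk'
      rw [mem_Ioc]
      refine ⟨(hk'.2 p hp).1 hpk, ?_⟩
      by_contra hcon
      push Not at hcon
      have := (hk'.2 p' hp').2 hcon
      omega
    calc _ ≤ (Ioc p p').card := card_le_card (by convert hsub)
      _ = p' - p := Nat.card_Ioc p p'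
  · intro v H hv hvN
    refine main N m H P _ hm ?_ ?_ ?_
    · intro k hk
      rw [mem_filter, mem_Ioc] at hk
      omega
    · intro k hk
      exact (mem_filter.1 hk).2
    · have hsub : (((Ioc v (v + H)).filter (fun k => 4 * m * wg N P k < H)).image (ph P))
          ⊆ Icc 1 m := by
        intro a ha
        obtain ⟨k, hk, hka⟩ := mem_image.1 ha
        rw [mem_filter, mem_Ioc] at hk
        rw [mem_Icc, ← hka]
        unfold ph
        constructor
        · apply card_pos.2
          exact ⟨v, mem_filter.2 ⟨hv, hk.1.1⟩⟩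
        · exact le_trans (card_filter_le _ _) hP
      calc _ ≤ (Icc 1 m).card := card_le_card hsub
        _ = m := by rw [Nat.card_Icc]; omega
  · intro v H hv hHv hvN
    refine main N m H P _ hm ?_ ?_ ?_
    · intro k hk
      rw [mem_filter, mem_Ioc] at hk
      omega
    · intro k hk
      exact (mem_filter.1 hk).2
    · have hsub : (((Ioc (v - H) v).filter (fun k => 4 * m * wg N P k < H)).image (ph P))
          ⊆ range m := by
        intro a ha
        obtain ⟨k, hk, hka⟩ := mem_image.1 ha
        rw [mem_filter, mem_Ioc] at hk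
        rw [mem_range, ← hka]
        unfold ph
        refine lt_of_lt_of_le (card_lt_card ?_) hP
        rw [ssubset_iff_of_subset (filter_subset _ _)]
        refine ⟨v, hv, ?_⟩
        rw [mem_filter]
        push Not
        intro _
        exact hk.1.2
      calc _ ≤ (range m).card := card_le_card hsub
        _ = m := card_range m

end Pool.Agent.MP_a4c1f4_lc.SM
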