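import Pool.Agent.Lib.MP_a4c1f4_lc.SM.Spec

set_option autoImplicit false

/-!
Online matching on the line with the ratio `O(√(log (min n m)))`: multiplicity of the scales.
-/

namespace Pool.Agent.MP_a4c1f4_lc.SM

open Finset MeasureTheory
open Pool.Agent.MP_a4c1f4_lc.Dbl.L (assigned cost Respects)
open Pool.Agent.MP_a4c1f4_lc.SO (fl mvN dl Mov Mv Fam opt)
open Pool.Agent.MP_a4c1f4_lc.SQ (St us sl TT XX BB uL uR qq Move Self Stp Inv AbS Rn YY mo Off rh
  nr bl lab Sat)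

namespace LbAux

theorem mem {N m : ℕ} {P : Finset ℕ} {i k : ℕ} (_ : 1 ≤ m) (hw : 1 ≤ wg N P k)
    (h : k ∈ GG N m P (2 ^ i)) :
    i ∈ Ico (Nat.log 2 (wg N P k) - 27) (Nat.log 2 m + Nat.log 2 (wg N P k) + 4) := by
  unfold GG at h
  rw [mem_filter] at h
  obtain ⟨_, h1, h2⟩ := h
  set w := wg N P k
  set j := Nat.log 2 w with hj
  set a := Nat.log 2 m with ha
  have hmlt : m < 2 ^ (a + 1) := Nat.lt_pow_succ_log_self (by norm_num) m
  have hwlt : w < 2 ^ (j + 1) := Nat.lt_pow_succ_log_self (by norm_num) w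
  have hwle : 2 ^ j ≤ w := Nat.pow_log_le_self 2 (by omega)
  rw [mem_Ico]
  constructor
  · have e : 6 * 2 ^ 25 * 2 ^ i < 2 ^ (28 + i) := by
      rw [pow_add]
      have : 0 < 2 ^ i := by positivity
      nlinarith
    have h3 : 2 ^ j < 2 ^ (28 + i) := lt_of_le_of_lt hwle (lt_trans h2 e)
    have h4 : j < 28 + i := (Nat.pow_lt_pow_iff_right (by norm_num)).1 h3
    omega
  · have e1 : 4 * m * w < 4 * (2 ^ (a + 1)) * 2 ^ (j + 1) := by
      have p1 : m * w < 2 ^ (a + 1) * 2 ^ (j + 1) :=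
        Nat.mul_lt_mul_of_lt_of_le hmlt hwlt.le (by omega)
      calc 4 * m * w = 4 * (m * w) := by ring
        _ < 4 * (2 ^ (a + 1) * 2 ^ (j + 1)) := by omega
        _ = 4 * (2 ^ (a + 1)) * 2 ^ (j + 1) := by ring
    have e2 : 4 * (2 ^ (a + 1)) * 2 ^ (j + 1) = 2 ^ (a + j + 4) := by
      ring
    have h3 : 2 ^ i < 2 ^ (a + j + 4) := by
      rw [← e2]
      exact lt_of_le_of_lt h1 e1
    exact (Nat.pow_lt_pow_iff_right (by norm_num)).1 h3

open Classical in
theorem crd {N m I : ℕ} {P : Finset ℕ} {k : ℕ} (hm : 1 ≤ m) (hw : 1 ≤ wg N P k) :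
    ((range I).filter (fun i => k ∈ GG N m P (2 ^ i))).card ≤ Nat.log 2 m + 31 := by
  have hs : (range I).filter (fun i => k ∈ GG N m P (2 ^ i)) ⊆
      Ico (Nat.log 2 (wg N P k) - 27) (Nat.log 2 m + Nat.log 2 (wg N P k) + 4) := by
    intro i hi
    exact mem hm hw (mem_filter.1 hi).2
  have h := card_le_card hs
  rw [Nat.card_Ico] at h
  omega

end LbAux

open Classical in
/-- Multiplicity of the scales. -/
theorem lbP (h1 : SQ.S_Lb) (h2 : M_Gap) : M_Lb := by
  intro N m I P B hm hP hB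
  have hw := (h2 N m P hm hP).1
  have step : ∀ i, ∑ x ∈ (range (N + 1)).image (lab i),
      ∑ k ∈ nr N x (2 * 2 ^ i) ∩ GG N m P (2 ^ i), B k ≤
      (36 * 2 ^ 25 + 3) * ∑ k ∈ Icc 1 N, if k ∈ GG N m P (2 ^ i) then B k else 0 := by
    intro i
    have h := (h1 N i).2.2.2 (fun k => if k ∈ GG N m P (2 ^ i) then B k else 0) (by
      intro k
      show 0 ≤ if k ∈ GG N m P (2 ^ i) then B k else 0
      split_ifs
      · exact hB k
      · exact le_rfl)
    refine le_trans (le_of_eq ?_) h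
    apply sum_congr rfl
    intro x _
    rw [sum_ite_mem]
  refine le_trans (sum_le_sum (fun i _ => step i)) ?_
  rw [← mul_sum, sum_comm, mul_assoc]
  refine mul_le_mul_of_nonneg_left ?_ (by norm_num)
  rw [mul_sum]
  apply sum_le_sum
  intro k hk
  rw [mem_Icc] at hk
  rw [← sum_filter, sum_const, nsmul_eq_mul]
  have hc : ((((range I).filter (fun i => k ∈ GG N m P (2 ^ i))).card : ℕ) : ℝ) ≤
      ((Nat.log 2 m + 31 : ℕ) : ℝ) := by
    exact_mod_cast LbAux.crd hm (hw k hk.1 hk.2)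
  exact mul_le_mul_of_nonneg_right hc (hB k)

end Pool.Agent.MP_a4c1f4_lc.SM
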