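import Pool.Agent.Lib.MP_a4c1f4_lc.SM.Spec
import Pool.Agent.Lib.MP_a4c1f4_lc.SO.Off

set_option autoImplicit false
set_option linter.all false

/-!
The offline assignment on the path.
-/

namespace Pool.Agent.MP_a4c1f4_lc.SM

open Finset MeasureTheory
open Pool.Agent.MP_a4c1f4_lc.Dbl.L (assigned cost Respects)
open Pool.Agent.MP_a4c1f4_lc.SO (fl mvN dl Mov Mv Fam opt)

namespace LoAux

theorem cost_cons {m : ℕ} (s : Fin m → ℝ) (x : ℝ) (l : List ℝ) (j : Fin m) (τ : List (Fin m)) :
    cost s (x :: l) (j :: τ) = |x - s j| + cost s l τ := by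
  simp [cost, Real.dist_eq]

theorem cap_pos {m : ℕ} (cap : Fin m → ℕ) (τ : List (Fin m)) (h : Respects cap τ) (j : Fin m)
    (hj : j ∈ τ) : 0 < cap j :=
  lt_of_lt_of_le (List.count_pos_iff.mpr hj) (h j)

theorem countP_eq {m : ℕ} (t : Fin m → ℕ) (k : ℕ) : ∀ τ : List (Fin m),
    τ.countP (fun j => decide (t j = k)) = ∑ j ∈ univ.filter (fun j => t j = k), τ.count j
  | [] => by simp
  | i :: τ => by
      have h : ∀ j : Fin m, (i :: τ).count j = τ.count j + if i = j then 1 else 0 := by
        intro j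
        rw [List.count_cons]
        by_cases hij : i = j <;> simp [hij]
      rw [Finset.sum_congr rfl (fun j _ => h j), Finset.sum_add_distrib, ← countP_eq t k τ,
        List.countP_cons, Finset.sum_ite_eq]
      simp

theorem sum_countP {m : ℕ} (t : Fin m → ℕ) (E : ℕ) : ∀ τ : List (Fin m), (∀ j, j ∈ τ → t j ≤ E) →
    ∑ k ∈ range (E + 1), (τ.countP (fun j => decide (t j = k)) : ℝ) = τ.length
  | [], _ => by simp
  | i :: τ, h => by
      have ih := sum_countP t E τ (fun j hj => h j (List.mem_cons_of_mem _ hj))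
      have hi : t i ≤ E := h i List.mem_cons_self
      have h1 : ∀ k : ℕ, (((i :: τ).countP (fun j => decide (t j = k)) : ℕ) : ℝ) =
          ((τ.countP (fun j => decide (t j = k)) : ℕ) : ℝ) + if t i = k then (1 : ℝ) else 0 := by
        intro k
        rw [List.countP_cons]
        by_cases hk : t i = k <;> simp [hk]
      rw [Finset.sum_congr rfl (fun k _ => h1 k), Finset.sum_add_distrib, ih, Finset.sum_ite_eq,
        if_pos (by rw [Finset.mem_range]; omega), List.length_cons]
      push_cast
      ring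

theorem sum_count (E : ℕ) : ∀ l : List ℕ, (∀ v, v ∈ l → v ≤ E) →
    ∑ k ∈ range (E + 1), (l.count k : ℝ) = l.length
  | [], _ => by simp
  | i :: l, h => by
      have ih := sum_count E l (fun j hj => h j (List.mem_cons_of_mem _ hj))
      have hi : i ≤ E := h i List.mem_cons_self
      have h1 : ∀ k : ℕ, (((i :: l).count k : ℕ) : ℝ) =
          ((l.count k : ℕ) : ℝ) + if i = k then (1 : ℝ) else 0 := by
        intro k
        rw [List.count_cons]
        by_cases hk : i = k <;> simp [hk]
      rw [Finset.sum_congr rfl (fun k _ => h1 k), Finset.sum_add_distrib, ih, Finset.sum_ite_eq,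
        if_pos (by rw [Finset.mem_range]; omega), List.length_cons]
      push_cast
      ring

theorem ds_le {m : ℕ} (s : Fin m → ℝ) (cap : Fin m → ℕ) (near : ℝ → Fin m)
    (hn : ∀ x j, 0 < cap j → |x - s (near x)| ≤ |x - s j|) :
    ∀ (l : List ℝ) (τ : List (Fin m)), τ.length = l.length → (∀ j, j ∈ τ → 0 < cap j) →
      ds s near l ≤ cost s l τ
  | [], [], _, _ => by simp [ds, cost]
  | [], j :: τ, h, _ => by simp at h
  | x :: l, [], h, _ => by simp at h
  | x :: l, j :: τ, h, hc => by
      have ih := ds_le s cap near hn l τ (by simpa using h)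
        (fun i hi => hc i (List.mem_cons_of_mem _ hi))
      have h1 := hn x j (hc j List.mem_cons_self)
      rw [cost_cons]
      have h2 : ds s near (x :: l) = |x - s (near x)| + ds s near l := by simp [ds]
      rw [h2]
      linarith

theorem zip_le {m : ℕ} (s : Fin m → ℝ) (cap : Fin m → ℕ) (η : ℝ) (t : Fin m → ℕ) (E : ℕ)
    (near : ℝ → Fin m) (G : Geo s cap η t E near) :
    ∀ (l : List ℝ) (τ : List (Fin m)), τ.length = l.length → (∀ j, j ∈ τ → 0 < cap j) →
      (List.zipWith (fun (v : ℕ) (j : Fin m) => |(v : ℝ) - (t j : ℝ)|) (vn t near l) τ).sum ≤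
        4 / η * cost s l τ
  | [], [], _, _ => by simp [vn, cost]
  | [], j :: τ, h, _ => by simp at h
  | x :: l, [], h, _ => by simp at h
  | x :: l, j :: τ, h, hc => by
      have ih := zip_le s cap η t E near G l τ (by simpa using h)
        (fun i hi => hc i (List.mem_cons_of_mem _ hi))
      have hj := hc j List.mem_cons_self
      have h1 := G.nn x j hj
      have h2 := G.up (near x) j (G.nc x) hj
      have h3 : |s (near x) - s j| ≤ |x - s (near x)| + |x - s j| := by
        have := abs_add_le (s (near x) - x) (x - s j)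
        rw [abs_sub_comm (s (near x)) x] at this
        calc |s (near x) - s j| = |s (near x) - x + (x - s j)| := by ring_nf
          _ ≤ _ := this
      have hη := G.pos
      have h4 : |(t (near x) : ℝ) - (t j : ℝ)| ≤ 4 / η * |x - s j| := by
        rw [div_mul_eq_mul_div, le_div_iff₀ hη]
        linarith
      rw [cost_cons]
      have h5 : vn t near (x :: l) = t (near x) :: vn t near l := by simp [vn]
      rw [h5, List.zipWith_cons_cons, List.sum_cons, mul_add]
      exact add_le_add h4 ih

theorem mem_vn {m : ℕ} (t : Fin m → ℕ) (near : ℝ → Fin m) (l : List ℝ) (v : ℕ)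
    (h : v ∈ vn t near l) : ∃ x, v = t (near x) := by
  unfold vn at h
  rw [List.mem_map] at h
  obtain ⟨x, _, hx⟩ := h
  exact ⟨x, hx.symm⟩

/-- If the flow is small then it is `0`. -/
theorem flow_zero (E : ℕ) (u : ℕ → ℕ) (l : List ℕ) (hl : ∀ v, v ∈ l → v ≤ E)
    (hu : ∑ k ∈ range (E + 1), (u k : ℝ) = l.length)
    (h : ∑ k ∈ range E, |fl (fun x => (u x : ℝ)) l k| < 1) :
    ∀ k, k ≤ E → l.count k = u k := by
  have h0 : ∀ k, k ≤ E → fl (fun x => (u x : ℝ)) l k = 0 := by
    intro k hk
    rcases Nat.lt_or_ge k E with h1 | h1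
    · have h2 : |fl (fun x => (u x : ℝ)) l k| < 1 :=
        lt_of_le_of_lt (Finset.single_le_sum (f := fun k => |fl (fun x => (u x : ℝ)) l k|)
          (fun i _ => abs_nonneg _) (Finset.mem_range.mpr h1)) h
      have h3 : fl (fun x => (u x : ℝ)) l k =
          ((∑ x ∈ range (k + 1), ((l.count x : ℤ) - (u x : ℤ)) : ℤ) : ℝ) := by
        unfold fl
        push_cast
        rfl
      rw [h3] at h2 ⊢
      have h4 : |(∑ x ∈ range (k + 1), ((l.count x : ℤ) - (u x : ℤ)) : ℤ)| < 1 := by
        exact_mod_cast h2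
      rw [Int.abs_lt_one_iff.mp h4]
      simp
    · have h2 : k = E := le_antisymm hk h1
      subst h2
      unfold fl
      rw [Finset.sum_sub_distrib, sum_count k l hl, hu]
      simp
  intro k hk
  have h1 : ((l.count k : ℕ) : ℝ) - (u k : ℝ) = 0 := by
    rcases Nat.eq_zero_or_pos k with h2 | h2
    · subst h2
      have := h0 0 hk
      simpa [fl] using this
    · obtain ⟨j, rfl⟩ : ∃ j, k = j + 1 := ⟨k - 1, by omega⟩
      have h3 := h0 (j + 1) hk
      have h4 := h0 j (by omega)
      unfold fl at h3 h4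
      rw [Finset.sum_range_succ, h4] at h3
      linarith
  have h2 : ((l.count k : ℕ) : ℝ) = (u k : ℝ) := by linarith
  exact_mod_cast h2

end LoAux

/-- `M_Lo` without hypotheses. -/
theorem lo : M_Lo := by
  intro m s cap η t E near l τ G hlen hresp
  have hcap : ∀ j, j ∈ τ → 0 < cap j := LoAux.cap_pos cap τ hresp
  have htE : ∀ j, j ∈ τ → t j ≤ E := fun j hj => G.tE j (hcap j hj)
  have hvE : ∀ v, v ∈ vn t near l → v ≤ E := by
    intro v hv
    obtain ⟨x, rfl⟩ := LoAux.mem_vn t near l v hv
    exact G.tE _ (G.nc x)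
  have hvl : (vn t near l).length = l.length := by simp [vn]
  have h1 : ∀ k, τ.countP (fun j => decide (t j = k)) ≤ ck t cap k := by
    intro k
    rw [LoAux.countP_eq]
    unfold ck
    exact Finset.sum_le_sum (fun j _ => hresp j)
  have h2 : ∑ k ∈ range (E + 1), (τ.countP (fun j => decide (t j = k)) : ℝ) = l.length := by
    rw [LoAux.sum_countP t E τ htE, hlen]
  refine ⟨fun k _ => by exact_mod_cast h1 k, h2, LoAux.ds_le s cap near G.nn l τ hlen hcap,
    (Pool.Agent.MP_a4c1f4_lc.SO.offClean m E t (vn t near l) τ htE hvE (by rw [hlen, hvl])).trans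
      (LoAux.zip_le s cap η t E near G l τ hlen hcap), ?_⟩
  rintro ⟨k, hk, hlt⟩
  by_contra hcon
  rw [not_le] at hcon
  have h3 := LoAux.flow_zero E (fun x => τ.countP (fun j => decide (t j = x))) (vn t near l) hvE
    (by rw [hvl]; exact h2) hcon k hk
  have h4 := h1 k
  omega

theorem loP : M_Shr → M_Lo := fun _ => lo

end Pool.Agent.MP_a4c1f4_lc.SM
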