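import Pool.Agent.Lib.MP_a4c1f4_lc.SM.Spec

set_option autoImplicit false
set_option linter.all false

/-!
Online matching on the line with few sites: the movement of a run with requests at sites.
-/

namespace Pool.Agent.MP_a4c1f4_lc.SM

open Finset MeasureTheory
open Pool.Agent.MP_a4c1f4_lc.Dbl.L (assigned cost Respects)
open Pool.Agent.MP_a4c1f4_lc.SO (fl mvN dl Mov Mv Fam opt)
open Pool.Agent.MP_a4c1f4_lc.SQ (St us sl TT XX BB uL uR qq Move Self Stp Inv AbS Rn YY mo Off rh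
  nr bl lab Sat)

namespace MnAux

/-- The length of the nearest live side: `1 ≤ rh ≤ N`. -/
theorem rh_facts (N : ℕ) (c : ℕ → ℝ) (D : ℕ) (b : ℝ) (L : ℕ) (σ : St) (v : ℕ) (s : ℝ) (σ' : St)
    (gl gr : ℕ) (mL mR q : ℝ) (h : Move N c D b L σ v s σ' gl gr mL mR q) :
    1 ≤ rh c σ v gl gr ∧ rh c σ v gl gr ≤ N := by
  have hgl := h.hgl
  have hgr := h.hgr
  have hN := h.hN
  have hleft : us σ gl < c gl → gl < v := by
    intro h1
    rcases Nat.lt_or_ge gl v with h2 | h2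
    · exact h2
    · exfalso
      have h3 : gl = v := le_antisymm hgl h2
      rw [h3, h.hv] at h1
      exact lt_irrefl _ h1
  have hright : us σ gr < c gr → v < gr := by
    intro h1
    rcases Nat.lt_or_ge v gr with h2 | h2
    · exact h2
    · exfalso
      have h3 : gr = v := le_antisymm h2 hgr
      rw [h3, h.hv] at h1
      exact lt_irrefl _ h1
  unfold rh
  by_cases hl : us σ gl < c gl
  · have hl' := hleft hl
    rw [if_pos hl]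
    by_cases hr : us σ gr < c gr
    · have hr' := hright hr
      rw [if_pos hr]
      refine ⟨?_, ?_⟩
      · exact le_min (by omega) (by omega)
      · exact (min_le_left _ _).trans (by omega)
    · rw [if_neg hr]
      exact ⟨by omega, by omega⟩
  · rw [if_neg hl]
    have hmL : mL = 0 := by
      rcases h.left with h1 | h1
      · exact absurd h1.1 hl
      · exact h1.2.2
    have hr : us σ gr < c gr := by
      rcases h.right with h1 | h1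
      · exact h1.1
      · exfalso
        have h2 := h.hm
        rw [hmL, h1.2.2] at h2
        norm_num at h2
    have hr' := hright hr
    exact ⟨by omega, by omega⟩

/-- The data of one step: `R` says that the step raises the price. -/
def Stq (N K : ℕ) (Q ε : ℝ) (E : ℕ → ℕ → ℝ) (σ : St) (v : ℕ) (s : ℝ)
    (σ' : St) (i x0 : ℕ) (R : Prop) : Prop :=
  (¬ R → mo N σ σ' ≤ (4 * 2 ^ 25 + 1) * (8 * 2 ^ 25 + 1) * YY N σ σ') ∧
  (R → mo N σ σ' ≤ (4 * 2 ^ 25 + 1) * (2 * s * 2 ^ i + YY N σ σ') ∧ i < K ∧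
    x0 ∈ (range (N + 1)).image (lab i) ∧ 0 < E i x0 ∧
    ε ≤ E i x0 / (Real.sqrt Q * 2 ^ i)) ∧
  (R → x0 = lab i v ∧ ∀ x, x ≤ N → x * (9 * 2 ^ 25) ≤ v * (9 * 2 ^ 25) + 2 ^ i →
    v * (9 * 2 ^ 25) ≤ x * (9 * 2 ^ 25) + 2 ^ i →
    σ.p x + s * (3 / 64 * (2 ^ i) ^ 2 / E i x0) ≤ σ'.p x)

theorem YY_nonneg (N : ℕ) (σ σ' : St) : 0 ≤ YY N σ σ' := by
  unfold YY
  refine sum_nonneg fun k _ => ?_
  split_ifs
  · exact abs_nonneg _
  · exact le_rfl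

theorem step_data (hCa : SQ.S_Ca) (hRa : M_Ra) (hLb : SQ.S_Lb) (N : ℕ) (c : ℕ → ℝ) (D m : ℕ)
    (b ε Q : ℝ) (L : ℕ) (P : Finset ℕ) (BM : ℕ → ℝ) (σ : St) (v : ℕ) (s : ℝ) (σ' : St)
    (hb : 0 < b) (hs : 0 ≤ s) (hv : v ≤ N) (hm : 1 ≤ m) (hPm : P.card ≤ m) (hvP : v ∈ P)
    (hcP : ∀ x, x ≤ N → 0 < c x → x ∈ P) (hQ : 0 < Q)
    (hε : ε ≤ b / (2 * Real.sqrt Q)) (hF : ∀ k, σ.F k < b * 64 ^ L)
    (hI : Inv N c b ε σ) (hBM : ∀ k, b ≤ BM k) (hBt : ∀ k, BB N b L σ.F k ≤ BM k)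
    (hS : Stp N c D b L σ v s σ') :
    ∃ (i x0 : ℕ) (R : Prop), Stq N (Nat.log 2 N + 1) Q ε
      (fun i x => ∑ k ∈ nr N x (2 * 2 ^ i) ∩ GG N m P (2 ^ i), BM k) σ v s σ' i x0 R := by
  have hBM0 : ∀ k, 0 ≤ BM k := fun k => hb.le.trans (hBM k)
  rcases hS with h | ⟨gl, gr, mL, mR, q, h⟩
  · refine ⟨0, 0, False, ?_, fun h => h.elim, fun h => h.elim⟩
    intro _
    have h0 : mo N σ σ' = 0 := by
      unfold mo
      refine sum_eq_zero fun k _ => ?_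
      rw [h.hf k, sub_self, abs_zero]
    rw [h0]
    have := YY_nonneg N σ σ'
    positivity
  · obtain ⟨h1, h2⟩ := rh_facts N c D b L σ v s σ' gl gr mL mR q h
    set ρ := rh c σ v gl gr with hρ
    set i := Nat.log 2 ρ with hi
    have hρ0 : ρ ≠ 0 := by omega
    have hlo : 2 ^ i ≤ ρ := Nat.pow_log_le_self 2 hρ0
    have hhi : ρ < 2 * 2 ^ i := by
      have h4 := Nat.lt_pow_succ_log_self (b := 2) (by norm_num) ρ
      rw [← hi, pow_succ] at h4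
      omega
    have hiK : i < Nat.log 2 N + 1 := by
      have h4 : i ≤ Nat.log 2 N := Nat.log_mono_right h2
      omega
    have hca := hCa N c D b ε L σ v s σ' gl gr mL mR q hb hs hF hI h
    have hra := hRa N c D b ε L σ v s σ' gl gr mL mR q (2 ^ i) m P hb hs hF hI h hm hPm hvP hcP
      Nat.one_le_two_pow hlo hhi
    rcases hra with hr | ⟨hcard, hr⟩
    · exact ⟨0, 0, False, fun _ => hr, fun h => h.elim, fun h => h.elim⟩
    obtain ⟨_, hLb2, hLb3, _⟩ := hLb N i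
    have hsub : nr N v (2 ^ i) ∩ GG N m P (2 ^ i) ⊆
        nr N (lab i v) (2 * 2 ^ i) ∩ GG N m P (2 ^ i) := by
      intro k hk
      rw [mem_inter] at hk ⊢
      exact ⟨hLb3 v hk.1, hk.2⟩
    have hE1 : ∑ k ∈ nr N v (2 ^ i) ∩ GG N m P (2 ^ i), BM k ≤
        ∑ k ∈ nr N (lab i v) (2 * 2 ^ i) ∩ GG N m P (2 ^ i), BM k :=
      sum_le_sum_of_subset_of_nonneg hsub fun k _ _ => hBM0 k
    have hE2 : b * (2 : ℝ) ^ i ≤ 2 * ∑ k ∈ nr N v (2 ^ i) ∩ GG N m P (2 ^ i), BM k := by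
      have h5 : ((2 ^ i : ℕ) : ℝ) ≤ 2 * ((nr N v (2 ^ i) ∩ GG N m P (2 ^ i)).card : ℝ) := by
        exact_mod_cast hcard
      have h6 : ((nr N v (2 ^ i) ∩ GG N m P (2 ^ i)).card : ℝ) * b ≤
          ∑ k ∈ nr N v (2 ^ i) ∩ GG N m P (2 ^ i), BM k := by
        have := card_nsmul_le_sum (nr N v (2 ^ i) ∩ GG N m P (2 ^ i)) BM b fun k _ => hBM k
        rwa [nsmul_eq_mul] at this
      have h7 : ((2 : ℝ) ^ i) = ((2 ^ i : ℕ) : ℝ) := by push_cast; ring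
      rw [h7]
      have h8 : ((2 ^ i : ℕ) : ℝ) * b ≤
          (2 * ((nr N v (2 ^ i) ∩ GG N m P (2 ^ i)).card : ℝ)) * b :=
        mul_le_mul_of_nonneg_right h5 hb.le
      linarith [mul_comm b ((2 ^ i : ℕ) : ℝ)]
    have hE3 : b * (2 : ℝ) ^ i ≤
        2 * ∑ k ∈ nr N (lab i v) (2 * 2 ^ i) ∩ GG N m P (2 ^ i), BM k := by linarith
    have hpow : (0 : ℝ) < 2 ^ i := by positivity
    have hE0 : 0 < ∑ k ∈ nr N (lab i v) (2 * 2 ^ i) ∩ GG N m P (2 ^ i), BM k := by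
      have := mul_pos hb hpow
      linarith
    have hsq : 0 < Real.sqrt Q := Real.sqrt_pos.mpr hQ
    have hBle : ∑ k ∈ nr N v (2 ^ i) ∩ GG N m P (2 ^ i), BB N b L σ.F k ≤
        ∑ k ∈ nr N (lab i v) (2 * 2 ^ i) ∩ GG N m P (2 ^ i), BM k :=
      (sum_le_sum fun k _ => hBt k).trans hE1
    have hr' := hr (∑ k ∈ nr N (lab i v) (2 * 2 ^ i) ∩ GG N m P (2 ^ i), BM k) hE0 hBle
    refine ⟨i, lab i v, True, fun h => (h trivial).elim, fun _ => ⟨?_, hiK, ?_, hE0, ?_⟩,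
      fun _ => ⟨rfl, ?_⟩⟩
    · refine hca.trans ?_
      have h9 : (ρ : ℝ) ≤ 2 * 2 ^ i := by
        have : ρ ≤ 2 * 2 ^ i := hhi.le
        exact_mod_cast this
      have h10 : s * (ρ : ℝ) ≤ 2 * s * 2 ^ i := by
        have := mul_le_mul_of_nonneg_left h9 hs
        linarith
      have h11 : s * (ρ : ℝ) + YY N σ σ' ≤ 2 * s * 2 ^ i + YY N σ σ' := by linarith
      exact mul_le_mul_of_nonneg_left h11 (by norm_num)
    · exact mem_image_of_mem _ (mem_range.mpr (by omega))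
    · rw [le_div_iff₀ (mul_pos hsq hpow)]
      have h12 : ε * (2 * Real.sqrt Q) ≤ b := by
        rwa [le_div_iff₀ (by positivity)] at hε
      have h13 : ε * (2 * Real.sqrt Q) * 2 ^ i ≤ b * 2 ^ i :=
        mul_le_mul_of_nonneg_right h12 hpow.le
      have h14 : 2 * (ε * (Real.sqrt Q * 2 ^ i)) = ε * (2 * Real.sqrt Q) * 2 ^ i := by ring
      linarith
    · intro x hx hx1 hx2
      have := hr' x hx hx1 hx2
      simpa only [Nat.cast_pow, Nat.cast_ofNat] using this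

end MnAux

open MnAux in
theorem mnP : SQ.S_Bb → SQ.S_In → SQ.S_Sp → SQ.S_Bt → SQ.S_Ca → SQ.S_Lb → M_Ra → M_Lb → M_Cnt →
    M_Mn := by
  intro hBb hIn hSp hBt hCa hLb hRa hLbM hCnt
  refine ⟨10 ^ 6 * (2 * ((4 * 2 ^ 25 + 1) + (4 * 2 ^ 25 + 1) * (8 * 2 ^ 25 + 1)) +
    6 * (4 * 2 ^ 25 + 1) + 2 * (4 * 2 ^ 25 + 1) * (1 / (3 / 64) + 1) * (36 * 2 ^ 25 + 3)),
    by positivity, ?_⟩
  intro N c D m b ε L M σ v s S P hm hPm hcP hvP hR hO hε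
  obtain ⟨hInv, hAbs, hMono⟩ := hIn.2 N c D b ε L M σ v s hR
  have hb := hR.hb
  obtain ⟨hBb1, hBb2, _⟩ := hBb N b L hb
  have hBM : ∀ k, b ≤ BB N b L (σ M).F k := fun k =>
    ((hInv M le_rfl).Fb k).trans (hBb1 (σ M).F k)
  have hBM0 : ∀ k, 0 ≤ BB N b L (σ M).F k := fun k => hb.le.trans (hBM k)
  have hLm := hLbM N m (Nat.log 2 N + 1) P (BB N b L (σ M).F) hm hPm hBM0
  have hQ1 : (1 : ℝ) ≤ ((Nat.log 2 m + 31 : ℕ) : ℝ) := by
    have : 1 ≤ Nat.log 2 m + 31 := by omega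
    exact_mod_cast this
  set Q := ((Nat.log 2 m + 31 : ℕ) : ℝ) with hQdef
  have hQ0 : 0 < Q := by linarith
  set T := ∑ k ∈ Icc 1 N, BB N b L (σ M).F k with hT
  have hT0 : 0 ≤ T := sum_nonneg fun k _ => hBM0 k
  have hdata : ∀ t, ∃ (i x0 : ℕ) (R : Prop), t < M → Stq N (Nat.log 2 N + 1) Q ε
      (fun i x => ∑ k ∈ nr N x (2 * 2 ^ i) ∩ GG N m P (2 ^ i), BB N b L (σ M).F k)
      (σ t) (v t) (s t) (σ (t + 1)) i x0 R := by
    intro t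
    by_cases ht : t < M
    · obtain ⟨i, x0, R, h⟩ := step_data hCa hRa hLb N c D m b ε Q L P (BB N b L (σ M).F) (σ t)
        (v t) (s t) (σ (t + 1)) hb (hR.hs t ht).1 (hR.hv t ht) hm hPm (hvP t ht) hcP hQ0 hε
        (hR.top t ht.le) (hInv t ht.le) hBM (fun k => (hMono t M ht.le le_rfl k).2.2.2.1)
        (hR.step t ht)
      exact ⟨i, x0, R, fun _ => h⟩
    · exact ⟨0, 0, False, fun h => absurd h ht⟩
  choose sc lb R hP using hdata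
  have hcnt := hCnt M (Nat.log 2 N + 1) Q s (fun t => (σ t).p (v t))
    (fun t => mo N (σ t) (σ (t + 1)))
    (fun t => YY N (σ t) (σ (t + 1))) sc lb v (fun t x => (σ t).p x)
    (fun i x => ∑ k ∈ nr N x (2 * 2 ^ i) ∩ GG N m P (2 ^ i), BB N b L (σ M).F k)
    (fun i => (range (N + 1)).image (lab i)) R ε (4 * 2 ^ 25 + 1)
    ((4 * 2 ^ 25 + 1) * (8 * 2 ^ 25 + 1)) (36 * 2 ^ 25 + 3) (3 / 64) T hQ0 (by norm_num)
    (by norm_num) (by norm_num) hT0 (by norm_num)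
    (fun t ht => ⟨(hR.hs t ht).1, (hR.hs t ht).2, YY_nonneg _ _ _, rfl⟩)
    (fun t t' ht ht' => ⟨(hInv t ht.le).p0 _, (hMono t (t + 1) (by omega) (by omega) _).2.1⟩)
    (fun t ht hn => (hP t ht).1 hn)
    (fun t ht hn => (hP t ht).2.1 hn)
    (by
      intro t t' htt ht' hRt hRt' hsc hlb
      have ht : t < M := by omega
      obtain ⟨h1, h2⟩ := (hP t ht).2.2 hRt
      obtain ⟨h3, _⟩ := (hP t' ht').2.2 hRt'
      have h4 : lab (sc t) (v t) = lab (sc t) (v t') := by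
        rw [← h1, hlb, h3, hsc]
      obtain ⟨h5, h6⟩ := (hLb N (sc t)).2.1 (v t) (v t') h4
      exact h2 (v t') (hR.hv t' ht') h5 h6)
    hLm
    (fun i x _ _ => sum_nonneg fun k _ => hBM0 k)
  obtain ⟨hY, hPr⟩ := hSp N c D b ε L M σ v s hR
  have hBt' := hBt N c D b ε L M σ v s S hR hO
  rw [← hT] at hY hPr hBt'
  have hsQ : 1 ≤ Real.sqrt Q := by
    rw [show (1 : ℝ) = Real.sqrt 1 by rw [Real.sqrt_one]]
    exact Real.sqrt_le_sqrt hQ1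
  set q := Real.sqrt Q with hq
  have hq0 : 0 ≤ q := by linarith
  set Z := ∑ k ∈ Icc 1 N, |S k| + b * N with hZ
  refine hcnt.trans ?_
  have e1 : ((4 * 2 ^ 25 + 1 : ℝ) + (4 * 2 ^ 25 + 1) * (8 * 2 ^ 25 + 1)) *
      ∑ t ∈ range M, YY N (σ t) (σ (t + 1)) ≤
      ((4 * 2 ^ 25 + 1 : ℝ) + (4 * 2 ^ 25 + 1) * (8 * 2 ^ 25 + 1)) * (2 * T) :=
    mul_le_mul_of_nonneg_left hY (by norm_num)
  have e2 : 2 * (4 * 2 ^ 25 + 1 : ℝ) * q * ∑ t ∈ range M, s t * (σ t).p (v t) ≤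
      2 * (4 * 2 ^ 25 + 1 : ℝ) * q * (3 * T) :=
    mul_le_mul_of_nonneg_left hPr (by positivity)
  have e4 : T ≤ q * T := by
    have := mul_le_mul_of_nonneg_right hsQ hT0
    linarith
  have e5 : q * T ≤ q * (10 ^ 6 * Z) := mul_le_mul_of_nonneg_left hBt' hq0
  have e6 : ((4 * 2 ^ 25 + 1 : ℝ) + (4 * 2 ^ 25 + 1) * (8 * 2 ^ 25 + 1)) * (2 * T) ≤
      ((4 * 2 ^ 25 + 1 : ℝ) + (4 * 2 ^ 25 + 1) * (8 * 2 ^ 25 + 1)) * (2 * (q * T)) :=
    mul_le_mul_of_nonneg_left (by linarith) (by norm_num)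
  have e9 : (2 * ((4 * 2 ^ 25 + 1 : ℝ) + (4 * 2 ^ 25 + 1) * (8 * 2 ^ 25 + 1)) +
    6 * (4 * 2 ^ 25 + 1) + 2 * (4 * 2 ^ 25 + 1) * (1 / (3 / 64) + 1) * (36 * 2 ^ 25 + 3)) *
    (q * T) ≤ (2 * ((4 * 2 ^ 25 + 1 : ℝ) + (4 * 2 ^ 25 + 1) * (8 * 2 ^ 25 + 1)) +
    6 * (4 * 2 ^ 25 + 1) + 2 * (4 * 2 ^ 25 + 1) * (1 / (3 / 64) + 1) * (36 * 2 ^ 25 + 3)) *
    (q * (10 ^ 6 * Z)) := mul_le_mul_of_nonneg_left e5 (by norm_num)
  calc _ ≤ ((4 * 2 ^ 25 + 1 : ℝ) + (4 * 2 ^ 25 + 1) * (8 * 2 ^ 25 + 1)) * (2 * (q * T)) +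
        2 * (4 * 2 ^ 25 + 1 : ℝ) * q * (3 * T) +
        2 * (4 * 2 ^ 25 + 1 : ℝ) * (1 / (3 / 64) + 1) * (36 * 2 ^ 25 + 3) * q * T :=
        add_le_add (add_le_add (e1.trans e6) e2) le_rfl
    _ = (2 * ((4 * 2 ^ 25 + 1 : ℝ) + (4 * 2 ^ 25 + 1) * (8 * 2 ^ 25 + 1)) +
        6 * (4 * 2 ^ 25 + 1) + 2 * (4 * 2 ^ 25 + 1) * (1 / (3 / 64) + 1) * (36 * 2 ^ 25 + 3)) *
        (q * T) := by ring
    _ ≤ _ := e9
    _ = _ := by ring

end Pool.Agent.MP_a4c1f4_lc.SM
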