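import Pool.Agent.Lib.MP_a4c1f4_lc.SM.Spec

set_option autoImplicit false
set_option linter.all false

/-!
Merging two families at a monotone event, and the movement of a monotone family.
-/

namespace Pool.Agent.MP_a4c1f4_lc.SM

open Finset MeasureTheory
open Pool.Agent.MP_a4c1f4_lc.Dbl.L (assigned cost Respects)
open Pool.Agent.MP_a4c1f4_lc.SO (fl mvN dl Mov Mv Fam opt)

namespace MrgAux

/-- The triangle inequality for the movement between two solutions. -/
theorem tri {f g : ℝ → ℝ} (hf : Integrable f) (hg : Integrable g) :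
    ∫ z, |f z - g z| ≤ (∫ z, |f z|) + ∫ z, |g z| := by
  rw [← integral_add hf.abs hg.abs]
  refine integral_mono (hf.sub hg).abs (hf.abs.add hg.abs) ?_
  intro z
  exact abs_sub (f z) (g z)

end MrgAux

theorem mrgP : SO.O_Mov → M_Mrg := by
  classical
  intro hMov m s cap yA yB Q hA hB hQ0 hQ
  obtain ⟨h1, h2, -, -⟩ := hMov m s cap
  set y : List ℝ → Fin m → ℝ := fun l => if Q l then yB l else yA l with hy
  have hyQ : ∀ l, Q l → y l = yB l := fun l h => by simp [hy, h]
  have hyN : ∀ l, ¬ Q l → y l = yA l := fun l h => by simp [hy, h]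
  refine ⟨y, ⟨?_, ?_⟩, ?_⟩
  · intro j
    rw [hyN [] hQ0]
    exact hA.1 j
  · intro l hl
    by_cases h : Q l
    · rw [hyQ l h]
      exact hB.2 l hl
    · rw [hyN l h]
      exact hA.2 l hl
  · intro l
    induction l with
    | nil =>
      intro _
      refine ⟨fun _ => rfl, fun h => absurd h hQ0⟩
    | cons x l ih =>
      intro hl
      have hl' : l.length ≤ ∑ j, cap j := by
        rw [List.length_cons] at hl
        omega
      obtain ⟨ihN, ihQ⟩ := ih hl'
      refine ⟨?_, ?_⟩
      · intro hn
        have hnl : ¬ Q l := fun h => hn (hQ x l h)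
        change Mov s y l + ∫ z, |dl s (y (x :: l)) (x :: l) z - dl s (y l) l z| =
          Mov s yA l + ∫ z, |dl s (yA (x :: l)) (x :: l) z - dl s (yA l) l z|
        rw [ihN hnl, hyN _ hn, hyN _ hnl]
      · intro hq
        by_cases hql : Q l
        · obtain ⟨l', hs, hn', hle⟩ := ihQ hql
          refine ⟨l', hs.trans (List.suffix_cons x l), hn', ?_⟩
          change Mov s y l + ∫ z, |dl s (y (x :: l)) (x :: l) z - dl s (y l) l z| ≤
            (Mov s yB l + ∫ z, |dl s (yB (x :: l)) (x :: l) z - dl s (yB l) l z|) +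
              2 * Mov s yA l'
          rw [hyQ _ hq, hyQ _ hql]
          linarith
        · refine ⟨l, List.suffix_cons x l, hql, ?_⟩
          change Mov s y l + ∫ z, |dl s (y (x :: l)) (x :: l) z - dl s (y l) l z| ≤
            Mov s yB (x :: l) + 2 * Mov s yA l
          rw [ihN hql, hyQ _ hq, hyN _ hql]
          have ha := h2 yB (x :: l) hB hl
          have hb := h2 yA l hA hl'
          have hc := MrgAux.tri (h1 (yB (x :: l)) (x :: l) (hB.2 _ hl).2)
            (h1 (yA l) l (hA.2 _ hl').2)
          linarith [ha.1, hb.1, hc]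

theorem mmP : SO.O_Mov → M_Mm := by
  intro hMov m s cap y hF l
  obtain ⟨-, -, h3, -⟩ := hMov m s cap
  induction l with
  | nil =>
    intro _ _
    exact le_refl _
  | cons x l ih =>
    intro hl hm
    have hl' : l.length ≤ ∑ j, cap j := by
      rw [List.length_cons] at hl
      omega
    have hi := ih hl' (fun x' l' hs j => hm x' l' (hs.trans (List.suffix_cons x l)) j)
    have hstep := h3 y x l hF hl (fun j => hm x l (List.suffix_refl _) j)
    change Mov s y l + ∫ z, |dl s (y (x :: l)) (x :: l) z - dl s (y l) l z| ≤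
      Mv s y l + ∑ j, (y (x :: l) j - y l j) * |x - s j|
    linarith

end Pool.Agent.MP_a4c1f4_lc.SM
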