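import Pool.Agent.Lib.MP_a4c1f4_lc.SM.Spec

set_option autoImplicit false

/-!
Project SM: pulling back a monotone family from the path to the line.
-/

namespace Pool.Agent.MP_a4c1f4_lc.SM

open Finset MeasureTheory
open Pool.Agent.MP_a4c1f4_lc.Dbl.L (assigned cost Respects)
open Pool.Agent.MP_a4c1f4_lc.SO (fl mvN dl Mov Mv Fam opt)

namespace PulAux

/-- One step. -/
theorem step {m : ℕ} {s : Fin m → ℝ} {cap : Fin m → ℕ} {η : ℝ} {t : Fin m → ℕ} {E : ℕ}
    {near : ℝ → Fin m} (hG : Geo s cap η t E near)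
    (hs1 : ∀ a : ℕ → ℝ, (∀ k, k ≤ E → 0 ≤ a k ∧ a k ≤ ck t cap k) →
      (∀ j, 0 ≤ sk t cap a j ∧ sk t cap a j ≤ cap j) ∧
      ∀ g : ℕ → ℝ, ∑ j, sk t cap a j * g (t j) = ∑ k ∈ range (E + 1), a k * g k)
    (hs2 : ∀ a a' : ℕ → ℝ, (∀ k, k ≤ E → a k ≤ a' k) → ∀ j, sk t cap a j ≤ sk t cap a' j)
    (A A' : ℕ → ℝ) (x n : ℝ) (hA : ∀ k, k ≤ E → 0 ≤ A k ∧ A k ≤ ck t cap k)
    (hA' : ∀ k, k ≤ E → 0 ≤ A' k ∧ A' k ≤ ck t cap k)
    (hAs : ∑ k ∈ range (E + 1), A k = n + 1) (hAs' : ∑ k ∈ range (E + 1), A' k = n)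
    (hm : ∀ k, k ≤ E → A' k ≤ A k) :
    ∑ j, (sk t cap A j - sk t cap A' j) * |x - s j| ≤
      |x - s (near x)| +
        η * ∑ k ∈ range (E + 1), (A k - A' k) * |(k : ℝ) - (t (near x) : ℝ)| := by
  have h1 : ∑ j, (sk t cap A j - sk t cap A' j) * |x - s j| ≤
      ∑ j, (sk t cap A j - sk t cap A' j) *
        (|x - s (near x)| + η * |(t j : ℝ) - (t (near x) : ℝ)|) := by
    refine Finset.sum_le_sum fun j _ => ?_
    rcases Nat.eq_zero_or_pos (cap j) with h0 | hp
    · have e : ∀ B : ℕ → ℝ, sk t cap B j = 0 := by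
        intro B
        unfold sk
        rw [h0, Nat.cast_zero, mul_zero, zero_div]
      rw [e A, e A']
      simp
    · refine mul_le_mul_of_nonneg_left ?_ (sub_nonneg.2 (hs2 A' A hm j))
      have h2 : |x - s j| ≤ |x - s (near x)| + |s (near x) - s j| := abs_sub_le _ _ _
      have h3 := hG.lo j (near x) hp (hG.nc x)
      rw [abs_sub_comm (s j) (s (near x))] at h3
      linarith
  have h4 := (hs1 A hA).2 (fun k => |x - s (near x)| + η * |(k : ℝ) - (t (near x) : ℝ)|)
  have h5 := (hs1 A' hA').2 (fun k => |x - s (near x)| + η * |(k : ℝ) - (t (near x) : ℝ)|)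
  have h6 : ∑ j, (sk t cap A j - sk t cap A' j) *
        (|x - s (near x)| + η * |(t j : ℝ) - (t (near x) : ℝ)|) =
      ∑ k ∈ range (E + 1), (A k - A' k) *
        (|x - s (near x)| + η * |(k : ℝ) - (t (near x) : ℝ)|) := by
    simp only [sub_mul, Finset.sum_sub_distrib]
    rw [← h4, ← h5]
  have h7 : ∑ k ∈ range (E + 1), (A k - A' k) *
        (|x - s (near x)| + η * |(k : ℝ) - (t (near x) : ℝ)|) =
      |x - s (near x)| * (∑ k ∈ range (E + 1), A k - ∑ k ∈ range (E + 1), A' k) +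
        η * ∑ k ∈ range (E + 1), (A k - A' k) * |(k : ℝ) - (t (near x) : ℝ)| := by
    rw [← Finset.sum_sub_distrib, Finset.mul_sum, Finset.mul_sum, ← Finset.sum_add_distrib]
    refine Finset.sum_congr rfl fun k _ => ?_
    ring
  rw [h6, h7, hAs, hAs'] at h1
  linarith

end PulAux

open PulAux in
theorem pulP : M_Shr → M_Pul := by
  intro hS m s cap η t E near b l hG
  obtain ⟨hs1, hs2, -, -⟩ := hS m t cap E hG.tE
  induction l with
  | nil =>
    intro _ _
    simp [Mv, ds, vn, mvN]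
  | cons x l ih =>
    intro h1 h2
    have ih' := ih (fun l' h => h1 l' (h.trans (List.suffix_cons x l)))
      (fun y l' h => h2 y l' (h.trans (List.suffix_cons x l)))
    obtain ⟨hA, hAs⟩ := h1 (x :: l) (List.suffix_refl _)
    obtain ⟨hA', hAs'⟩ := h1 l (List.suffix_cons x l)
    have hm := h2 x l (List.suffix_refl _)
    have hAs2 : ∑ k ∈ range (E + 1), b (vn t near (x :: l)) k = (l.length : ℝ) + 1 := by
      rw [hAs, List.length_cons]
      push_cast
      ring
    have h3 := step hG hs1 hs2 (b (vn t near (x :: l))) (b (vn t near l)) x (l.length : ℝ)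
      hA hA' hAs2 hAs' hm
    have e1 : Mv s (fun l => sk t cap (b (vn t near l))) (x :: l) =
        Mv s (fun l => sk t cap (b (vn t near l))) l +
          ∑ j, (sk t cap (b (vn t near (x :: l))) j - sk t cap (b (vn t near l)) j) *
            |x - s j| := rfl
    have e2 : mvN E b (vn t near (x :: l)) = mvN E b (vn t near l) +
        ∑ k ∈ range (E + 1), (b (vn t near (x :: l)) k - b (vn t near l) k) *
          |(k : ℝ) - (t (near x) : ℝ)| := rfl
    have e3 : ds s near (x :: l) = |x - s (near x)| + ds s near l := by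
      unfold ds
      rw [List.map_cons, List.sum_cons]
    rw [e1, e2, e3, mul_add]
    linarith

end Pool.Agent.MP_a4c1f4_lc.SM
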