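import Pool.Agent.Lib.MP_a4c1f4_lc.SM.Spec
import Pool.Agent.Lib.MP_a4c1f4_lc.SQ.Ra

set_option autoImplicit false
set_option linter.all false

namespace Pool.Agent.MP_a4c1f4_lc.SM

open Finset
open Pool.Agent.MP_a4c1f4_lc.SQ (St us sl TT XX BB uL uR qq Move Self Stp Inv AbS Rn YY mo Off rh
  nr bl lab Sat)

namespace RaM

open Pool.Agent.MP_a4c1f4_lc

section mv

variable {N : ℕ} {c : ℕ → ℝ} {D : ℕ} {b ε : ℝ} {L : ℕ} {σ : St} {v : ℕ} {s : ℝ} {σ' : St}
  {gl gr : ℕ} {mL mR q : ℝ}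

/-- From the raise of the potential to the raise of the price. -/
theorem fin (hs : 0 ≤ s) (hM : Move N c D b L σ v s σ' gl gr mL mR q) {H : ℕ} {E U : ℝ}
    (hE0 : 0 < E) (hU : (H : ℝ) ^ 2 / 4 ≤ U * E) (x : ℕ)
    (hq : 3 / 16 * U ≤ qq N b L σ v gl gr mL mR q x) :
    σ.p x + s * (3 / 64 * (H : ℝ) ^ 2 / E) ≤ σ'.p x := by
  rw [hM.hp x]
  have h1 : 3 / 64 * (H : ℝ) ^ 2 / E ≤ 3 / 16 * U := by
    rw [div_le_iff₀ hE0]
    linarith
  have h2 : s * (3 / 64 * (H : ℝ) ^ 2 / E) ≤ s * qq N b L σ v gl gr mL mR q x :=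
    mul_le_mul_of_nonneg_left (le_trans h1 hq) hs
  linarith

/-- Cauchy-Schwarz on a finite set. -/
theorem csZ (Z : Finset ℕ) (B : ℕ → ℝ) (hB : ∀ k ∈ Z, 0 < B k) :
    ((Z.card : ℝ)) ^ 2 ≤ (∑ k ∈ Z, 1 / B k) * ∑ k ∈ Z, B k := by
  have h1 := Finset.sum_sq_le_sum_mul_sum_of_sq_le_mul Z (r := fun _ => (1 : ℝ))
    (f := fun k => 1 / B k) (g := B)
    (fun k hk => (one_div_pos.2 (hB k hk)).le) (fun k hk => (hB k hk).le)
    (fun k hk => by
      show (1 : ℝ) ^ 2 ≤ 1 / B k * B k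
      rw [one_div_mul_cancel (hB k hk).ne']
      norm_num)
  rw [Finset.sum_const, nsmul_eq_mul, mul_one] at h1
  exact h1

open Classical in
/-- The block and the edges which count. -/
theorem gap (hB : SQ.S_Bb) (hb : 0 < b) (hI : Inv N c b ε σ) {a H m : ℕ} {P : Finset ℕ}
    (haN : a + H ≤ N) (h1 : ∀ k ∈ Ioc a (a + H), k ∈ nr N v H)
    (h2 : ∀ k ∈ Ioc a (a + H), wg N P k < 6 * 2 ^ 25 * H)
    (h3 : 4 * ((Ioc a (a + H)).filter (fun k => 4 * m * wg N P k < H)).card ≤ H) :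
    H ≤ 2 * (nr N v H ∩ GG N m P H).card ∧
    ∀ E : ℝ, 0 < E → ∑ k ∈ nr N v H ∩ GG N m P H, BB N b L σ.F k ≤ E →
      (H : ℝ) ^ 2 / 4 ≤ (∑ k ∈ Ico a (a + H), SQ.CaM.uu N b L σ k) * E := by
  have hpos : ∀ k, 0 < BB N b L σ.F k := fun k => lt_of_lt_of_le hb (SQ.CaM.BBpos hB hb hI k)
  have hsub : (Ioc a (a + H)).filter (fun k => ¬ 4 * m * wg N P k < H) ⊆
      nr N v H ∩ GG N m P H := by
    intro k hk
    rw [Finset.mem_filter] at hk
    have hk1 := Finset.mem_Ioc.1 hk.1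
    rw [Finset.mem_inter]
    refine ⟨h1 k hk.1, ?_⟩
    unfold GG
    rw [Finset.mem_filter, Finset.mem_Icc]
    exact ⟨by omega, not_lt.1 hk.2, h2 k hk.1⟩
  have hcard := Finset.card_filter_add_card_filter_not (s := Ioc a (a + H))
    (fun k => 4 * m * wg N P k < H)
  rw [Nat.card_Ioc] at hcard
  have hc2 := Finset.card_le_card hsub
  refine ⟨by omega, ?_⟩
  intro E hE0 hE
  have hcs := csZ ((Ioc a (a + H)).filter (fun k => ¬ 4 * m * wg N P k < H))
    (fun k => BB N b L σ.F k) (fun k _ => hpos k)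
  have hS1 : ∑ k ∈ (Ioc a (a + H)).filter (fun k => ¬ 4 * m * wg N P k < H),
      BB N b L σ.F k ≤ E :=
    le_trans (Finset.sum_le_sum_of_subset_of_nonneg hsub (fun k _ _ => (hpos k).le)) hE
  have hS2 : ∑ k ∈ (Ioc a (a + H)).filter (fun k => ¬ 4 * m * wg N P k < H),
      1 / BB N b L σ.F k ≤ ∑ k ∈ Ico a (a + H), SQ.CaM.uu N b L σ k := by
    unfold SQ.CaM.uu
    rw [← SQ.CaM.sumIoc (fun k => 1 / BB N b L σ.F k)]
    exact Finset.sum_le_sum_of_subset_of_nonneg (Finset.filter_subset _ _)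
      (fun k _ _ => (one_div_pos.2 (hpos k)).le)
  have h0 : 0 ≤ ∑ k ∈ (Ioc a (a + H)).filter (fun k => ¬ 4 * m * wg N P k < H),
      1 / BB N b L σ.F k := Finset.sum_nonneg fun k _ => (one_div_pos.2 (hpos k)).le
  have h5 : (∑ k ∈ (Ioc a (a + H)).filter (fun k => ¬ 4 * m * wg N P k < H),
      1 / BB N b L σ.F k) * ∑ k ∈ (Ioc a (a + H)).filter (fun k => ¬ 4 * m * wg N P k < H),
      BB N b L σ.F k ≤ (∑ k ∈ Ico a (a + H), SQ.CaM.uu N b L σ k) * E :=
    mul_le_mul hS2 hS1 (Finset.sum_nonneg fun k _ => (hpos k).le) (le_trans h0 hS2)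
  have h6 : (H : ℝ) / 2 ≤
      (((Ioc a (a + H)).filter (fun k => ¬ 4 * m * wg N P k < H)).card : ℝ) := by
    have : H ≤ 2 * ((Ioc a (a + H)).filter (fun k => ¬ 4 * m * wg N P k < H)).card := by omega
    have : (H : ℝ) ≤
        2 * (((Ioc a (a + H)).filter (fun k => ¬ 4 * m * wg N P k < H)).card : ℝ) := by
      exact_mod_cast this
    linarith
  have h7 : ((H : ℝ) / 2) ^ 2 ≤
      (((Ioc a (a + H)).filter (fun k => ¬ 4 * m * wg N P k < H)).card : ℝ) ^ 2 :=
    pow_le_pow_left₀ (by positivity) h6 2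
  linarith

/-- The arithmetic of the claim: `l`, `r` the lengths, `A`, `A'` the sums of `u` on the near side and on the far
side. -/
theorem clmAlg {C l r A A' : ℝ} (hC : 0 < C) (hl : 0 < l) (hA : 0 < A) (h1 : A' / 2 ≤ A)
    (h2 : A * (l + r) ≤ l * (C * (A + A'))) : r < 3 * C * l := by
  have h3 : l * (C * (A + A')) ≤ l * (C * (3 * A)) :=
    mul_le_mul_of_nonneg_left (mul_le_mul_of_nonneg_left (by linarith) hC.le) hl.le
  have h4 : (l + r) * A ≤ 3 * C * l * A := by nlinarith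
  have h5 := le_of_mul_le_mul_right h4 hA
  linarith

/-- The claim, the larger part goes to the right. -/
theorem clmR (hR : Pool.Agent.Lib.MP_a4c1f4_lc.SQ0.Reg N (SQ.CaM.uu N b L σ) (2 ^ 25))
    (hM : Move N c D b L σ v s σ' gl gr mL mR q) {H : ℕ} (hle : mL ≤ mR) (hmR : 1 / 2 ≤ mR)
    (l2 : q = mL * ∑ k ∈ Ioc gl v, uL N b L σ k) (r2 : q = mR * ∑ k ∈ Ioc v gr, uR N b L σ k)
    (hl : gl < v) (hr : v < gr) (hl2 : v - gl < 2 * H)
    (hn : 2 * 2 ^ 25 * ((Pool.Agent.Lib.MP_a4c1f4_lc.SQ0.sat (SQ.CaM.SS σ gl v gr) v gr).card : ℝ) <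
      (gr : ℝ) - v) : gr - v < 6 * 2 ^ 25 * H := by
  have hN := hM.hN
  have c1 : (gl : ℝ) < v := by exact_mod_cast hl
  have c2 : (v : ℝ) < gr := by exact_mod_cast hr
  have hhalf := Pool.Agent.Lib.MP_a4c1f4_lc.SQ0.half hR (SQ.CaM.SS σ gl v gr) hr hN hn
  have e1 := SQ.CaM.sumR N b L σ gl v gr v gr (le_refl _) (le_refl _)
  have e2 := SQ.CaM.sumL N b L σ gl v gr gl v (le_refl _) (le_refl _)
  have hA := Pool.Agent.Lib.MP_a4c1f4_lc.SQ0.sum_u_pos hR hl (by omega)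
  have hA' := Pool.Agent.Lib.MP_a4c1f4_lc.SQ0.sum_u_pos hR hr hN
  have hub := Pool.Agent.Lib.MP_a4c1f4_lc.SQ0.sum_ub_le hR (SQ.CaM.SS σ gl v gr) (i := gl)
    (j := v) (by omega)
  have hub0 := Pool.Agent.Lib.MP_a4c1f4_lc.SQ0.sum_ub_nonneg hR (SQ.CaM.SS σ gl v gr) (i := gl)
    (j := v) (by omega)
  rw [e1] at hhalf
  rw [e2] at hub hub0
  have hbal : mR * ∑ k ∈ Ioc v gr, uR N b L σ k ≤ mR * ∑ k ∈ Ioc gl v, uL N b L σ k := by
    rw [← r2, l2]
    exact mul_le_mul_of_nonneg_right hle hub0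
  have hbal2 := le_of_mul_le_mul_left hbal (by linarith)
  have h4 := Pool.Agent.Lib.MP_a4c1f4_lc.SQ0.sum_sub_le hR hN (Ico gl v)
    (Finset.Ico_subset_Ico_right hr.le : Ico gl v ⊆ Ico gl gr)
  rw [Nat.card_Ico, Nat.cast_sub hl.le,
    ← Finset.sum_Ico_consecutive (SQ.CaM.uu N b L σ) hl.le hr.le] at h4
  have h5 := clmAlg (C := 2 ^ 25) (l := (v : ℝ) - gl) (r := (gr : ℝ) - v) (by norm_num)
    (by linarith) hA (A' := ∑ k ∈ Ico v gr, SQ.CaM.uu N b L σ k) (by linarith) (by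
      have e3 : (v : ℝ) - gl + ((gr : ℝ) - v) = (gr : ℝ) - gl := by ring
      rw [e3]
      exact h4)
  have h6 : (v : ℝ) - gl < 2 * H := by
    rw [← Nat.cast_sub hl.le]
    exact_mod_cast hl2
  have h7 : ((gr - v : ℕ) : ℝ) < ((6 * 2 ^ 25 * H : ℕ) : ℝ) := by
    rw [Nat.cast_sub hr.le]
    push_cast
    nlinarith
  exact_mod_cast h7

/-- The claim, the larger part goes to the left. -/
theorem clmL (hR : Pool.Agent.Lib.MP_a4c1f4_lc.SQ0.Reg N (SQ.CaM.uu N b L σ) (2 ^ 25))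
    (hM : Move N c D b L σ v s σ' gl gr mL mR q) {H : ℕ} (hle : mR ≤ mL) (hmL : 1 / 2 ≤ mL)
    (l2 : q = mL * ∑ k ∈ Ioc gl v, uL N b L σ k) (r2 : q = mR * ∑ k ∈ Ioc v gr, uR N b L σ k)
    (hl : gl < v) (hr : v < gr) (hr2 : gr - v < 2 * H)
    (hn : 2 * 2 ^ 25 * ((Pool.Agent.Lib.MP_a4c1f4_lc.SQ0.sat (SQ.CaM.SS σ gl v gr) gl v).card : ℝ) <
      (v : ℝ) - gl) : v - gl < 6 * 2 ^ 25 * H := by
  have hN := hM.hN
  have c1 : (gl : ℝ) < v := by exact_mod_cast hl
  have c2 : (v : ℝ) < gr := by exact_mod_cast hr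
  have hhalf := Pool.Agent.Lib.MP_a4c1f4_lc.SQ0.half hR (SQ.CaM.SS σ gl v gr) hl (by omega) hn
  have e1 := SQ.CaM.sumR N b L σ gl v gr v gr (le_refl _) (le_refl _)
  have e2 := SQ.CaM.sumL N b L σ gl v gr gl v (le_refl _) (le_refl _)
  have hA := Pool.Agent.Lib.MP_a4c1f4_lc.SQ0.sum_u_pos hR hr hN
  have hub := Pool.Agent.Lib.MP_a4c1f4_lc.SQ0.sum_ub_le hR (SQ.CaM.SS σ gl v gr) (i := v)
    (j := gr) hN
  have hub0 := Pool.Agent.Lib.MP_a4c1f4_lc.SQ0.sum_ub_nonneg hR (SQ.CaM.SS σ gl v gr) (i := v)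
    (j := gr) hN
  rw [e2] at hhalf
  rw [e1] at hub hub0
  have hbal : mL * ∑ k ∈ Ioc gl v, uL N b L σ k ≤ mL * ∑ k ∈ Ioc v gr, uR N b L σ k := by
    rw [← l2, r2]
    exact mul_le_mul_of_nonneg_right hle hub0
  have hbal2 := le_of_mul_le_mul_left hbal (by linarith)
  have h4 := Pool.Agent.Lib.MP_a4c1f4_lc.SQ0.sum_sub_le hR hN (Ico v gr)
    (Finset.Ico_subset_Ico_left hl.le : Ico v gr ⊆ Ico gl gr)
  rw [Nat.card_Ico, Nat.cast_sub hr.le,
    ← Finset.sum_Ico_consecutive (SQ.CaM.uu N b L σ) hl.le hr.le] at h4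
  have h5 := clmAlg (C := 2 ^ 25) (l := (gr : ℝ) - v) (r := (v : ℝ) - gl) (by norm_num)
    (by linarith) hA (A' := ∑ k ∈ Ico gl v, SQ.CaM.uu N b L σ k) (by linarith) (by
      have e3 : (gr : ℝ) - v + ((v : ℝ) - gl) = (gr : ℝ) - gl := by ring
      rw [e3, add_comm (∑ k ∈ Ico v gr, SQ.CaM.uu N b L σ k)]
      exact h4)
  have h6 : (gr : ℝ) - v < 2 * H := by
    rw [← Nat.cast_sub hr.le]
    exact_mod_cast hr2
  have h7 : ((v - gl : ℕ) : ℝ) < ((6 * 2 ^ 25 * H : ℕ) : ℝ) := by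
    rw [Nat.cast_sub hl.le]
    push_cast
    nlinarith
  exact_mod_cast h7

end mv

end RaM

theorem raP : SQ.S_Bb → SQ.S_Ca → M_Gap → M_Ra := by
  classical
  intro hB hCa hG N c D b ε L σ v s σ' gl gr mL mR q H m P hb hs hF hI hM hm1 hPm hvP hP hH hrh hrh2
  have hR := SQ.CaM.reg hB hb hF hI
  have hm := hM.hm
  have hHr : (1 : ℝ) ≤ H := by exact_mod_cast hH
  obtain ⟨hg1, hg2, hg3, hg4⟩ := hG N m P hm1 hPm
  rcases le_total mL mR with hle | hle
  · -- the larger part goes to the right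
    have hmR : 1 / 2 ≤ mR := by linarith
    rcases hM.right with ⟨r1, r2⟩ | ⟨r1, r2, r3⟩
    swap
    · exfalso
      rw [r3] at hmR
      norm_num at hmR
    have hvH := SQ.RaM.lenR r1 hrh hM.hgr
    have hN := hM.hN
    have hgrP : gr ∈ P := hP gr hN (lt_of_le_of_lt (hI.u0 gr hN) r1)
    by_cases hn : (H : ℝ) ≤ 2 * 2 ^ 25 * (((Ioc v (v + H)).filter (fun k => 1 ≤ sl σ k)).card : ℝ)
    · left
      refine SQ.RaM.alt1 hCa hb hs hF hI hM hrh2 ?_
      have hY := SQ.CaM.YYge hs hM (x := v) (y := v) (x' := v) (y' := v + H) hM.hgl (le_refl _)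
        (le_refl _) hvH
      rw [Finset.Ioc_self, Finset.filter_empty, Finset.card_empty, Nat.cast_zero, mul_zero,
        zero_add] at hY
      have hc0 : (0 : ℝ) ≤ (((Ioc v (v + H)).filter (fun k => 1 ≤ sl σ k)).card : ℝ) := by
        positivity
      have h1 : s * (H : ℝ) ≤
          s * (2 * 2 ^ 25 * (((Ioc v (v + H)).filter (fun k => 1 ≤ sl σ k)).card : ℝ)) :=
        mul_le_mul_of_nonneg_left hn hs
      have h2 : s * (1 / 2 * (((Ioc v (v + H)).filter (fun k => 1 ≤ sl σ k)).card : ℝ)) ≤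
          s * (mR * (((Ioc v (v + H)).filter (fun k => 1 ≤ sl σ k)).card : ℝ)) :=
        mul_le_mul_of_nonneg_left (mul_le_mul_of_nonneg_right hmR hc0) hs
      nlinarith
    by_cases hnR : (gr : ℝ) - v ≤ 2 * 2 ^ 25 * (((Ioc v gr).filter (fun k => 1 ≤ sl σ k)).card : ℝ)
    · left
      refine SQ.RaM.alt1 hCa hb hs hF hI hM hrh2 ?_
      have hY := SQ.CaM.YYge hs hM (x := v) (y := v) (x' := v) (y' := gr) hM.hgl (le_refl _)
        (le_refl _) (le_refl _)
      rw [Finset.Ioc_self, Finset.filter_empty, Finset.card_empty, Nat.cast_zero, mul_zero,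
        zero_add] at hY
      have hc0 : (0 : ℝ) ≤ (((Ioc v gr).filter (fun k => 1 ≤ sl σ k)).card : ℝ) := by
        positivity
      have hvHr : (v : ℝ) + H ≤ gr := by exact_mod_cast hvH
      have h1 : s * (H : ℝ) ≤
          s * (2 * 2 ^ 25 * (((Ioc v gr).filter (fun k => 1 ≤ sl σ k)).card : ℝ)) :=
        mul_le_mul_of_nonneg_left (by linarith) hs
      have h2 : s * (1 / 2 * (((Ioc v gr).filter (fun k => 1 ≤ sl σ k)).card : ℝ)) ≤
          s * (mR * (((Ioc v gr).filter (fun k => 1 ≤ sl σ k)).card : ℝ)) :=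
        mul_le_mul_of_nonneg_left (mul_le_mul_of_nonneg_right hmR hc0) hs
      nlinarith
    right
    have hn := not_le.1 hn
    have hnR := not_le.1 hnR
    -- the claim
    have hgl := hM.hgl
    have hgr := hM.hgr
    have hclm : gr - v < 6 * 2 ^ 25 * H := by
      rcases hM.left with ⟨l1, l2⟩ | ⟨l1, l2, l3⟩
      · have hlH := SQ.RaM.lenL l1 hrh hgl
        have h2 := hrh2
        unfold rh at h2
        rw [if_pos l1, if_pos r1] at h2
        rcases Nat.lt_or_ge (v - gl) (gr - v) with hlt | hge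
        swap
        · rw [min_eq_right hge] at h2
          omega
        rw [min_eq_left hlt.le] at h2
        refine RaM.clmR hR hM hle hmR l2 r2 (by omega) (by omega) h2 ?_
        rw [SQ.CaM.satR σ gl v gr v gr (le_refl _) (le_refl _)]
        exact hnR
      · have h2 := hrh2
        unfold rh at h2
        rw [if_neg (by rw [l2]; exact lt_irrefl _)] at h2
        omega
    have hra := Pool.Agent.Lib.MP_a4c1f4_lc.SQ0.raiseR hR (by norm_num) (SQ.CaM.SS σ gl v gr) hH hvH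
      hM.hN hM.mL0 hle hmR (by
        rw [SQ.CaM.satR σ gl v gr v (v + H) (le_refl _) hvH]
        exact hn)
    obtain ⟨hgc, hcs⟩ := RaM.gap (L := L) (v := v) (a := v) (H := H) (m := m) (P := P) hB hb hI (by omega) (by
      intro k hk
      rw [Finset.mem_Ioc] at hk
      unfold nr
      rw [Finset.mem_filter, Finset.mem_Icc]
      omega) (by
      intro k hk
      rw [Finset.mem_Ioc] at hk
      exact lt_of_le_of_lt (hg2 v gr k hvP hgrP (by omega) (by omega)) hclm)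
      (hg3 v H hvP (by omega))
    refine ⟨hgc, ?_⟩
    intro E hE0 hE
    have hcs := hcs E hE0 hE
    intro x hxN hx1 hx2
    have hx1r : (x : ℝ) * (9 * 2 ^ 25) ≤ v * (9 * 2 ^ 25) + H := by exact_mod_cast hx1
    have hx2r : (v : ℝ) * (9 * 2 ^ 25) ≤ x * (9 * 2 ^ 25) + H := by exact_mod_cast hx2
    refine RaM.fin hs hM hE0 hcs x ?_
    norm_num at hx1 hx2
    rcases Nat.lt_or_ge v x with hx | hx
    · have hxgr : x ≤ gr := by omega
      unfold qq
      rw [if_neg (by omega), if_pos ⟨hx, hxgr⟩, r2,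
        ← SQ.CaM.sumR N b L σ gl v gr v gr (le_refl _) (le_refl _),
        ← SQ.CaM.sumR N b L σ gl v gr v x (le_refl _) hxgr]
      exact hra.2 x hx.le (by linarith)
    · have hglx : gl ≤ x := by
        rcases hM.left with ⟨l1, _⟩ | ⟨l1, _, _⟩
        · have := SQ.RaM.lenL l1 hrh hM.hgl
          omega
        · omega
      unfold qq
      rw [if_pos ⟨hglx, hx⟩, r2,
        ← SQ.CaM.sumR N b L σ gl v gr v gr (le_refl _) (le_refl _),
        ← SQ.CaM.sumL N b L σ gl v gr x v hglx (le_refl _)]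
      exact hra.1 x hx (by linarith)
  · -- the larger part goes to the left
    have hmL : 1 / 2 ≤ mL := by linarith
    rcases hM.left with ⟨l1, l2⟩ | ⟨l1, l2, l3⟩
    swap
    · exfalso
      rw [l3] at hmL
      norm_num at hmL
    have hvH := SQ.RaM.lenL l1 hrh hM.hgl
    have hN := hM.hN
    have hgl := hM.hgl
    have hgr := hM.hgr
    have hvN : v ≤ N := le_trans hM.hgr hM.hN
    have hglP : gl ∈ P := hP gl (by omega) (lt_of_le_of_lt (hI.u0 gl (by omega)) l1)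
    by_cases hn : (H : ℝ) ≤
        2 * 2 ^ 25 * (((Ioc (v - H) v).filter (fun k => sl σ k ≤ -1)).card : ℝ)
    · left
      refine SQ.RaM.alt1 hCa hb hs hF hI hM hrh2 ?_
      have hY := SQ.CaM.YYge hs hM (x := v - H) (y := v) (x' := v) (y' := v) (by omega) (le_refl _)
        (le_refl _) hM.hgr
      rw [Finset.Ioc_self, Finset.filter_empty, Finset.card_empty, Nat.cast_zero, mul_zero,
        add_zero] at hY
      have hc0 : (0 : ℝ) ≤ (((Ioc (v - H) v).filter (fun k => sl σ k ≤ -1)).card : ℝ) := by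
        positivity
      have h1 : s * (H : ℝ) ≤
          s * (2 * 2 ^ 25 * (((Ioc (v - H) v).filter (fun k => sl σ k ≤ -1)).card : ℝ)) :=
        mul_le_mul_of_nonneg_left hn hs
      have h2 : s * (1 / 2 * (((Ioc (v - H) v).filter (fun k => sl σ k ≤ -1)).card : ℝ)) ≤
          s * (mL * (((Ioc (v - H) v).filter (fun k => sl σ k ≤ -1)).card : ℝ)) :=
        mul_le_mul_of_nonneg_left (mul_le_mul_of_nonneg_right hmL hc0) hs
      nlinarith
    by_cases hnL : (v : ℝ) - gl ≤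
        2 * 2 ^ 25 * (((Ioc gl v).filter (fun k => sl σ k ≤ -1)).card : ℝ)
    · left
      refine SQ.RaM.alt1 hCa hb hs hF hI hM hrh2 ?_
      have hY := SQ.CaM.YYge hs hM (x := gl) (y := v) (x' := v) (y' := v) (le_refl _) (le_refl _)
        (le_refl _) hM.hgr
      rw [Finset.Ioc_self, Finset.filter_empty, Finset.card_empty, Nat.cast_zero, mul_zero,
        add_zero] at hY
      have hc0 : (0 : ℝ) ≤ (((Ioc gl v).filter (fun k => sl σ k ≤ -1)).card : ℝ) := by
        positivity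
      have hvHr : (gl : ℝ) + H ≤ v := by exact_mod_cast hvH
      have h1 : s * (H : ℝ) ≤
          s * (2 * 2 ^ 25 * (((Ioc gl v).filter (fun k => sl σ k ≤ -1)).card : ℝ)) :=
        mul_le_mul_of_nonneg_left (by linarith) hs
      have h2 : s * (1 / 2 * (((Ioc gl v).filter (fun k => sl σ k ≤ -1)).card : ℝ)) ≤
          s * (mL * (((Ioc gl v).filter (fun k => sl σ k ≤ -1)).card : ℝ)) :=
        mul_le_mul_of_nonneg_left (mul_le_mul_of_nonneg_right hmL hc0) hs
      nlinarith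
    right
    have hn := not_le.1 hn
    have hnL := not_le.1 hnL
    have hclm : v - gl < 6 * 2 ^ 25 * H := by
      rcases hM.right with ⟨r1, r2⟩ | ⟨r1, r2, r3⟩
      · have hlH := SQ.RaM.lenR r1 hrh hgr
        have h2 := hrh2
        unfold rh at h2
        rw [if_pos l1, if_pos r1] at h2
        rcases Nat.lt_or_ge (gr - v) (v - gl) with hlt | hge
        swap
        · rw [min_eq_left hge] at h2
          omega
        rw [min_eq_right hlt.le] at h2
        refine RaM.clmL hR hM hle hmL l2 r2 (by omega) (by omega) h2 ?_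
        rw [SQ.CaM.satL σ gl v gr gl v (le_refl _) (le_refl _)]
        exact hnL
      · have h2 := hrh2
        unfold rh at h2
        rw [if_pos l1, if_neg (by rw [r2]; exact lt_irrefl _)] at h2
        omega
    have hra := Pool.Agent.Lib.MP_a4c1f4_lc.SQ0.raiseL hR (by norm_num) (SQ.CaM.SS σ gl v gr) hH hvH
      hvN hM.mR0 hle hmL (by
        rw [SQ.CaM.satL σ gl v gr (v - H) v (by omega) (le_refl _)]
        exact hn)
    have hvv : v - H + H = v := by omega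
    have hg := RaM.gap (L := L) (v := v) (a := v - H) (H := H) (m := m) (P := P) hB hb hI (by omega) (by
      intro k hk
      rw [Finset.mem_Ioc] at hk
      unfold nr
      rw [Finset.mem_filter, Finset.mem_Icc]
      omega) (by
      intro k hk
      rw [Finset.mem_Ioc] at hk
      exact lt_of_le_of_lt (hg2 gl v k hglP hvP (by omega) (by omega)) hclm)
      (by rw [hvv]; exact hg4 v H hvP (by omega) hvN)
    rw [hvv] at hg
    obtain ⟨hgc, hcs⟩ := hg
    refine ⟨hgc, ?_⟩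
    intro E hE0 hE
    have hcs := hcs E hE0 hE
    intro x hxN hx1 hx2
    have hx1r : (x : ℝ) * (9 * 2 ^ 25) ≤ v * (9 * 2 ^ 25) + H := by exact_mod_cast hx1
    have hx2r : (v : ℝ) * (9 * 2 ^ 25) ≤ x * (9 * 2 ^ 25) + H := by exact_mod_cast hx2
    refine RaM.fin hs hM hE0 hcs x ?_
    norm_num at hx1 hx2
    rcases Nat.lt_or_ge v x with hx | hx
    · have hxgr : x ≤ gr := by
        rcases hM.right with ⟨r1, _⟩ | ⟨r1, _, _⟩
        · have := SQ.RaM.lenR r1 hrh hM.hgr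
          omega
        · omega
      unfold qq
      rw [if_neg (by omega), if_pos ⟨hx, hxgr⟩, l2,
        ← SQ.CaM.sumL N b L σ gl v gr gl v (le_refl _) (le_refl _),
        ← SQ.CaM.sumR N b L σ gl v gr v x (le_refl _) hxgr]
      exact hra.1 x hx.le hxN (by linarith)
    · have hglx : gl ≤ x := by omega
      unfold qq
      rw [if_pos ⟨hglx, hx⟩, l2,
        ← SQ.CaM.sumL N b L σ gl v gr gl v (le_refl _) (le_refl _),
        ← SQ.CaM.sumL N b L σ gl v gr x v hglx (le_refl _)]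
      exact hra.2 x hx (by linarith)

end Pool.Agent.MP_a4c1f4_lc.SM
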