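import Pool.Agent.Lib.MP_a4c1f4_lc.SM.Spec

set_option autoImplicit false
set_option linter.all false

/-!
Online matching on the line, `SM`: proportional shares of the sites of one node.
-/

namespace Pool.Agent.MP_a4c1f4_lc.SM

open Finset MeasureTheory
open Pool.Agent.MP_a4c1f4_lc.Dbl.L (assigned cost Respects)

namespace ShrAux

theorem group {R : Type} [AddCommMonoid R] {m : ℕ} (E : ℕ) (n : Fin m → ℕ) (t : Fin m → R)
    (h : ∀ j, ¬ n j ≤ E → t j = 0) :
    ∑ k ∈ range (E + 1), ∑ j ∈ univ.filter (fun j => n j = k), t j = ∑ j, t j := by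
  have e1 : ∑ k ∈ range (E + 1), ∑ j ∈ univ.filter (fun j => n j = k), t j =
      ∑ k ∈ range (E + 1), ∑ j, (if n j = k then t j else 0) := by
    apply Finset.sum_congr rfl
    intro k _
    rw [Finset.sum_filter]
  rw [e1, Finset.sum_comm]
  apply Finset.sum_congr rfl
  intro j _
  rw [Finset.sum_ite_eq]
  by_cases hj : n j ≤ E
  · rw [if_pos (Finset.mem_range.2 (by omega))]
  · rw [h j hj, if_neg (by
      intro hh
      exact hj (by have := Finset.mem_range.1 hh; omega))]

theorem cap_le {m : ℕ} (t : Fin m → ℕ) (cap : Fin m → ℕ) (j : Fin m) :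
    cap j ≤ ck t cap (t j) := by
  unfold ck
  exact Finset.single_le_sum (f := cap) (fun i _ => Nat.zero_le _)
    (Finset.mem_filter.2 ⟨Finset.mem_univ j, rfl⟩)

theorem sh_zero {m : ℕ} (t : Fin m → ℕ) (cap : Fin m → ℕ) (a : ℕ → ℝ)
    (j : Fin m) (h : cap j = 0) : sk t cap a j = 0 := by
  unfold sk
  rw [h]
  simp

theorem inner {m : ℕ} (t : Fin m → ℕ) (cap : Fin m → ℕ) (a : ℕ → ℝ) (k : ℕ)
    (h0 : 0 ≤ a k) (h1 : a k ≤ ck t cap k) (g : ℕ → ℝ) :
    ∑ j ∈ univ.filter (fun j => t j = k), sk t cap a j * g (t j) =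
      a k * g k := by
  have e1 : ∀ j ∈ univ.filter (fun j => t j = k),
      sk t cap a j * g (t j) =
        (a k * g k / (ck t cap k : ℝ)) * (cap j : ℝ) := by
    intro j hj
    have hk := (Finset.mem_filter.1 hj).2
    unfold sk
    rw [hk]
    ring
  rw [Finset.sum_congr rfl e1, ← Finset.mul_sum]
  have e2 : ∑ j ∈ univ.filter (fun j => t j = k), (cap j : ℝ) =
      (ck t cap k : ℝ) := by
    unfold ck
    push_cast
    rfl
  rw [e2]
  by_cases hc : (ck t cap k : ℝ) = 0
  · have ha : a k = 0 := le_antisymm (by rw [hc] at h1; exact h1) h0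
    rw [ha]
    simp
  · field_simp

end ShrAux

open ShrAux

theorem shrP : M_Shr := by
  intro m t cap E hE
  refine ⟨?_, ?_, ?_, ?_⟩
  · intro a ha
    refine ⟨?_, ?_⟩
    · intro j
      rcases Nat.eq_zero_or_pos (cap j) with h | h
      · rw [sh_zero t cap a j h, h]
        simp
      · obtain ⟨h0, h1⟩ := ha _ (hE j h)
        have hc : cap j ≤ ck t cap (t j) := cap_le t cap j
        have hc0 : (0 : ℝ) < (ck t cap (t j) : ℝ) := by
          exact_mod_cast lt_of_lt_of_le h hc
        unfold sk
        refine ⟨by positivity, ?_⟩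
        rw [div_le_iff₀ hc0, mul_comm]
        exact mul_le_mul_of_nonneg_left h1 (Nat.cast_nonneg _)
    · intro g
      rw [← group E (fun j => t j) (fun j => sk t cap a j * g (t j))]
      · apply Finset.sum_congr rfl
        intro k hk
        have hk' : k ≤ E := by
          have := Finset.mem_range.1 hk
          omega
        exact inner t cap a k (ha k hk').1 (ha k hk').2 g
      · intro j hj
        have h : cap j = 0 := by
          by_contra hne
          exact hj (hE j (Nat.pos_of_ne_zero hne))
        show sk t cap a j * g (t j) = 0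
        rw [sh_zero t cap a j h, zero_mul]
  · intro a a' haa j
    rcases Nat.eq_zero_or_pos (cap j) with h | h
    · rw [sh_zero t cap a j h, sh_zero t cap a' j h]
    · unfold sk
      have := haa _ (hE j h)
      exact div_le_div_of_nonneg_right (mul_le_mul_of_nonneg_right this (Nat.cast_nonneg _))
        (Nat.cast_nonneg _)
  · unfold ck
    apply group E (fun j => t j) cap
    intro j hj
    by_contra hne
    exact hj (hE j (Nat.pos_of_ne_zero hne))
  · have hsub : (range (E + 1)).filter (fun x => 0 < ck t cap x) ⊆ univ.image t := by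
      intro x hx
      have h0 := (Finset.mem_filter.1 hx).2
      unfold ck at h0
      obtain ⟨j, hj, _⟩ := Finset.exists_ne_zero_of_sum_ne_zero h0.ne'
      exact Finset.mem_image.2 ⟨j, Finset.mem_univ j, (Finset.mem_filter.1 hj).2⟩
    calc ((range (E + 1)).filter (fun x => 0 < ck t cap x)).card ≤ (univ.image t).card :=
          Finset.card_le_card hsub
      _ ≤ (univ : Finset (Fin m)).card := Finset.card_image_le
      _ = m := by simp

end Pool.Agent.MP_a4c1f4_lc.SM
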