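import Pool.Agent.Lib.MP_a4c1f4_lc.SQ.All
import Pool.Agent.Lib.MP_a4c1f4_lc.SR.All
import Pool.Agent.Lib.MP_a4c1f4_lc.SO.Base
import Pool.Agent.Lib.MP_a4c1f4_lc.SO.Cel
import Pool.Agent.Lib.MP_a4c1f4_lc.SO.Cmb
import Pool.Agent.Lib.MP_a4c1f4_lc.SO.Frac
import Pool.Agent.Lib.MP_a4c1f4_lc.SO.Gss
import Pool.Agent.Lib.MP_a4c1f4_lc.SO.Mov
import Pool.Agent.Lib.MP_a4c1f4_lc.SO.Nod
import Pool.Agent.Lib.MP_a4c1f4_lc.SO.Off
import Pool.Agent.Lib.MP_a4c1f4_lc.SO.One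
import Pool.Agent.Lib.MP_a4c1f4_lc.SO.Opt
import Pool.Agent.Lib.MP_a4c1f4_lc.SO.Shr
import Pool.Agent.Lib.MP_a4c1f4_lc.SO.SpT
import Pool.Agent.Lib.MP_a4c1f4_lc.SO.Spl
import Pool.Agent.Lib.MP_a4c1f4_lc.SM.Gap
import Pool.Agent.Lib.MP_a4c1f4_lc.SM.Ra
import Pool.Agent.Lib.MP_a4c1f4_lc.SM.Lb
import Pool.Agent.Lib.MP_a4c1f4_lc.SM.Cnt
import Pool.Agent.Lib.MP_a4c1f4_lc.SM.Mn
import Pool.Agent.Lib.MP_a4c1f4_lc.SM.Co
import Pool.Agent.Lib.MP_a4c1f4_lc.SM.Geo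
import Pool.Agent.Lib.MP_a4c1f4_lc.SM.Shr
import Pool.Agent.Lib.MP_a4c1f4_lc.SM.Mrg
import Pool.Agent.Lib.MP_a4c1f4_lc.SM.Pul
import Pool.Agent.Lib.MP_a4c1f4_lc.SM.Lo
import Pool.Agent.Lib.MP_a4c1f4_lc.SM.Bas
import Pool.Agent.Lib.MP_a4c1f4_lc.SM.Frac

set_option linter.all false

/-!
Online matching and transportation on the line, ratio `O(√(log (min n m)))`: assembly.
-/

namespace Pool.Agent.MP_a4c1f4_lc.SM

/-- Fractional solutions with the ratio `O(√(log n))`. -/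
theorem fracNP : SO.O_Frac := by
  have hBase := SO.baseP SQ.coreP SO.nodP SO.offP SO.celP SO.shrP
  have hOne := SO.oneP hBase (SO.splP SO.spTP)
  exact SO.fracP hOne SO.movP SO.optP SO.gssP (SO.cmbP SO.movP SO.optP SO.gssP)

/-- The core for `m` sites. -/
theorem core2P : Core2 := by
  have hTt := SQ.ttP SQ.covP
  have hXx := SQ.xxP hTt
  have hBb := SQ.bbP hTt hXx
  have hAb := SQ.abP hBb
  have hIn := SQ.inP hTt hXx hBb hAb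
  have hSp := SQ.spP hBb hIn SQ.pyP SQ.edP
  have hSy := SQ.syP hBb hIn SQ.qsP
  have hLs := SQ.lsP hIn hSy
  have hBt := SQ.btP SQ.covP hTt hXx hBb hIn hLs
  have hCa := SQ.caP hBb
  have hRa := raP hBb hCa gapP
  have hLb := lbP SQ.lbP gapP
  have hMn := mnP hBb hIn hSp hBt hCa SQ.lbP hRa hLb cntP
  exact coP hAb hIn hMn SQ.mcP (SQ.exP hAb hIn (SQ.onP hBb))

/-- The theorem. -/
theorem final2P : Final2 := by
  have hMrg := mrgP SO.movP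
  have hBas := basP core2P geoP geoEP shrP (pulP shrP) (loP shrP) hMrg (mmP SO.movP)
  exact finP (fracP fracNP hBas hMrg) SR.rnd

end Pool.Agent.MP_a4c1f4_lc.SM
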