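import Pool.Agent.Lib.MP_a4c1f4_lc.SM.Spec

set_option autoImplicit false
set_option linter.all false

/-!
Online transportation for sites which are bi-Lipschitz equivalent to a set of reals, with requests
anywhere in the ambient metric space.
-/

namespace Pool.Agent.MP_a4c1f4_lc.SM

open Finset MeasureTheory
open Pool.Agent.MP_a4c1f4_lc.Dbl.L (assigned cost Respects)

/-- The theorem for sites in a metric space which are `K`-bi-Lipschitz equivalent to reals. -/
def Final3 : Prop := ∃ C : ℝ, 0 < C ∧ ∀ (N : Type) (_ : MetricSpace N) (m : ℕ) (_ : 0 < m)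
  (s : Fin m → N) (cap : Fin m → ℕ) (φ : Fin m → ℝ) (K : ℝ), 1 ≤ K →
  (∀ i j, |φ i - φ j| ≤ dist (s i) (s j) ∧ dist (s i) (s j) ≤ K * |φ i - φ j|) →
  ∃ (Ω : Type) (_ : MeasurableSpace Ω) (μ : Measure Ω) (_ : IsProbabilityMeasure μ)
    (A : Ω → N → List N → Fin m),
    (∀ x l, Measurable (fun ω => A ω x l)) ∧
    (∀ ω l, l.length ≤ ∑ j, cap j → Respects cap (assigned (A ω) l)) ∧
    ∀ (l : List N) (τ : List (Fin m)), τ.length = l.length → Respects cap τ →
      ∫ ω, cost s l (assigned (A ω) l) ∂μ ≤
        C * K * Real.sqrt (Real.log ((min l.length m : ℕ) + 1)) * cost s l τ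

namespace AmbAux

theorem cost_nil {N : Type*} [MetricSpace N] {m : ℕ} (s : Fin m → N) (τ : List (Fin m)) :
    cost s [] τ = 0 := by simp [cost]

theorem cost_cons {N : Type*} [MetricSpace N] {m : ℕ} (s : Fin m → N) (x : N) (l : List N)
    (j : Fin m) (τ : List (Fin m)) : cost s (x :: l) (j :: τ) = dist x (s j) + cost s l τ := by
  simp [cost]

theorem cost_cons_nil {N : Type*} [MetricSpace N] {m : ℕ} (s : Fin m → N) (x : N) (l : List N) :
    cost s (x :: l) ([] : List (Fin m)) = 0 := by simp [cost]

theorem cost_nonneg {N : Type*} [MetricSpace N] {m : ℕ} (s : Fin m → N) (l : List N)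
    (τ : List (Fin m)) : 0 ≤ cost s l τ := by
  induction l generalizing τ with
  | nil => rw [cost_nil]
  | cons x l ih =>
    cases τ with
    | nil => rw [cost_cons_nil]
    | cons j τ =>
      rw [cost_cons]
      exact add_nonneg dist_nonneg (ih τ)

/-- the distances to the nearest sites -/
noncomputable def dn {N : Type*} [MetricSpace N] {m : ℕ} (s : Fin m → N) (near : N → Fin m)
    (l : List N) : ℝ := (l.map (fun x => dist x (s (near x)))).sum

theorem dn_le {N : Type*} [MetricSpace N] {m : ℕ} (s : Fin m → N) (near : N → Fin m)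
    (hn : ∀ x j, dist x (s (near x)) ≤ dist x (s j)) (l : List N) (τ : List (Fin m))
    (h : τ.length = l.length) : dn s near l ≤ cost s l τ := by
  induction l generalizing τ with
  | nil => simp [dn, cost]
  | cons x l ih =>
    cases τ with
    | nil => simp at h
    | cons j τ =>
      rw [cost_cons]
      unfold dn
      rw [List.map_cons, List.sum_cons]
      have h1 := ih τ (by simpa using h)
      unfold dn at h1
      linarith [hn x j]

theorem up_le {N : Type*} [MetricSpace N] {m : ℕ} (s : Fin m → N) (φ : Fin m → ℝ) (K : ℝ)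
    (near : N → Fin m)
    (hd : ∀ i j, |φ i - φ j| ≤ dist (s i) (s j) ∧ dist (s i) (s j) ≤ K * |φ i - φ j|)
    (l : List N) (τ : List (Fin m)) (h : τ.length = l.length) :
    cost s l τ ≤ dn s near l + K * cost φ (l.map (fun x => φ (near x))) τ := by
  induction l generalizing τ with
  | nil => simp [dn, cost]
  | cons x l ih =>
    cases τ with
    | nil => simp at h
    | cons j τ =>
      rw [List.map_cons, cost_cons, cost_cons]
      unfold dn
      rw [List.map_cons, List.sum_cons]
      have h1 := ih τ (by simpa using h)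
      unfold dn at h1
      have h2 := dist_triangle x (s (near x)) (s j)
      have h3 := (hd (near x) j).2
      rw [Real.dist_eq]
      linarith

theorem lo_le {N : Type*} [MetricSpace N] {m : ℕ} (s : Fin m → N) (φ : Fin m → ℝ) (K : ℝ)
    (near : N → Fin m) (hn : ∀ x j, dist x (s (near x)) ≤ dist x (s j))
    (hd : ∀ i j, |φ i - φ j| ≤ dist (s i) (s j) ∧ dist (s i) (s j) ≤ K * |φ i - φ j|)
    (l : List N) (τ : List (Fin m)) (h : τ.length = l.length) :
    cost φ (l.map (fun x => φ (near x))) τ ≤ 2 * cost s l τ := by
  induction l generalizing τ with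
  | nil => simp [cost]
  | cons x l ih =>
    cases τ with
    | nil => simp at h
    | cons j τ =>
      rw [List.map_cons, cost_cons, cost_cons, Real.dist_eq]
      have h1 := ih τ (by simpa using h)
      have h2 := dist_triangle_left (s (near x)) (s j) x
      have h3 := (hd (near x) j).1
      have h4 := hn x j
      linarith

theorem asg_map {N : Type*} {m : ℕ} (g : N → ℝ) (B : ℝ → List ℝ → Fin m) (l : List N) :
    assigned (fun x l => B (g x) (l.map g)) l = assigned B (l.map g) := by
  induction l with
  | nil => rfl
  | cons x l ih =>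
    show B (g x) (l.map g) :: assigned (fun x l => B (g x) (l.map g)) l =
      B (g x) (l.map g) :: assigned B (l.map g)
    rw [ih]

theorem asg_len {N : Type*} {m : ℕ} (B : N → List N → Fin m) (l : List N) :
    (assigned B l).length = l.length := by
  induction l with
  | nil => rfl
  | cons x l ih =>
    show (B x l :: assigned B l).length = _
    rw [List.length_cons, List.length_cons, ih]

theorem meas {N : Type*} [MetricSpace N] {m : ℕ} {Ω : Type} [MeasurableSpace Ω] (s : Fin m → N)
    (A : Ω → N → List N → Fin m) (hA : ∀ x l, Measurable (fun ω => A ω x l)) (l : List N) :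
    Measurable (fun ω => cost s l (assigned (A ω) l)) := by
  induction l with
  | nil =>
    have h : (fun ω => cost s ([] : List N) (assigned (A ω) [])) = fun _ => (0 : ℝ) := by
      funext ω
      exact cost_nil s _
    rw [h]
    exact measurable_const
  | cons x l ih =>
    have h : (fun ω => cost s (x :: l) (assigned (A ω) (x :: l))) =
        fun ω => dist x (s (A ω x l)) + cost s l (assigned (A ω) l) := by
      funext ω
      exact cost_cons s x l _ _
    rw [h]
    exact ((measurable_from_top (f := fun j : Fin m => dist x (s j))).comp (hA x l)).add ih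

theorem bdd {N : Type*} [MetricSpace N] {m : ℕ} (s : Fin m → N) (l : List N) :
    ∃ B : ℝ, ∀ τ : List (Fin m), cost s l τ ≤ B := by
  induction l with
  | nil => exact ⟨0, fun τ => by rw [cost_nil]⟩
  | cons x l ih =>
    obtain ⟨B, hB⟩ := ih
    refine ⟨∑ j, dist x (s j) + |B|, fun τ => ?_⟩
    have h0 : 0 ≤ ∑ j, dist x (s j) := sum_nonneg fun j _ => dist_nonneg
    cases τ with
    | nil =>
      rw [cost_cons_nil]
      positivity
    | cons j τ =>
      rw [cost_cons]
      have h1 : dist x (s j) ≤ ∑ j, dist x (s j) :=
        single_le_sum (f := fun j => dist x (s j)) (fun j _ => dist_nonneg) (mem_univ j)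
      linarith [hB τ, le_abs_self B]

theorem integ {N : Type*} [MetricSpace N] {m : ℕ} {Ω : Type} [MeasurableSpace Ω] (μ : Measure Ω)
    [IsProbabilityMeasure μ] (s : Fin m → N)
    (A : Ω → N → List N → Fin m) (hA : ∀ x l, Measurable (fun ω => A ω x l)) (l : List N) :
    Integrable (fun ω => cost s l (assigned (A ω) l)) μ := by
  obtain ⟨B, hB⟩ := bdd s l
  refine Integrable.mono' (integrable_const B) (meas s A hA l).aestronglyMeasurable ?_
  refine Filter.Eventually.of_forall fun ω => ?_
  rw [Real.norm_of_nonneg (cost_nonneg s l _)]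
  exact hB _

end AmbAux

open AmbAux in
theorem ambP : Final2 → Final3 := by
  rintro ⟨C, hC, h⟩
  refine ⟨2 + 2 * C, by positivity, ?_⟩
  intro N _ m hm s cap φ K hK hd
  obtain ⟨Ω, mΩ, μ, hμ, B, hBm, hBr, hBc⟩ := h m hm φ cap
  have hne : Nonempty (Fin m) := ⟨⟨0, hm⟩⟩
  have hnear : ∀ x : N, ∃ i : Fin m, ∀ j, dist x (s i) ≤ dist x (s j) := fun x =>
    Finite.exists_min (fun j => dist x (s j))
  choose near hn using hnear
  let g : N → ℝ := fun x => φ (near x)
  refine ⟨Ω, mΩ, μ, hμ, fun ω x l => B ω (g x) (l.map g), ?_, ?_, ?_⟩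
  · intro x l
    exact hBm (g x) (l.map g)
  · intro ω l hl
    have h1 := asg_map g (B ω) l
    rw [h1]
    exact hBr ω (l.map g) (by rw [List.length_map]; exact hl)
  · intro l τ hτ hR
    have hA : ∀ x (l : List N), Measurable (fun ω => (fun ω x l => B ω (g x) (l.map g) :
        Ω → N → List N → Fin m) ω x l) := fun x l => hBm (g x) (l.map g)
    have hint := integ μ s (fun ω x l => B ω (g x) (l.map g)) hA l
    have hint2 := integ μ φ B hBm (l.map g)
    have hpt : ∀ ω, cost s l (assigned (fun x l => B ω (g x) (l.map g)) l) ≤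
        dn s near l + K * cost φ (l.map g) (assigned (B ω) (l.map g)) := by
      intro ω
      have h1 := up_le s φ K near hd l (assigned (fun x l => B ω (g x) (l.map g)) l)
        (asg_len _ l)
      rw [asg_map g (B ω) l] at h1 ⊢
      exact h1
    have h2 : ∫ ω, cost s l (assigned (fun x l => B ω (g x) (l.map g)) l) ∂μ ≤
        ∫ ω, (dn s near l + K * cost φ (l.map g) (assigned (B ω) (l.map g))) ∂μ :=
      integral_mono hint ((integrable_const _).add (hint2.const_mul K)) hpt
    have h3 : ∫ ω, (dn s near l + K * cost φ (l.map g) (assigned (B ω) (l.map g))) ∂μ =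
        dn s near l + K * ∫ ω, cost φ (l.map g) (assigned (B ω) (l.map g)) ∂μ := by
      rw [integral_add (integrable_const _) (hint2.const_mul K), integral_const,
        integral_const_mul]
      simp
    have h4 := hBc (l.map g) τ (by rw [List.length_map]; exact hτ) hR
    rw [List.length_map] at h4
    have h5 := dn_le s near hn l τ hτ
    have h6 := lo_le s φ K near hn hd l τ hτ
    have hc := cost_nonneg s l τ
    set q := Real.sqrt (Real.log ((min l.length m : ℕ) + 1)) with hq
    have hq0 : 0 ≤ q := Real.sqrt_nonneg _
    -- the case of the empty list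
    rcases Nat.eq_zero_or_pos l.length with hl | hl
    · have hl' : l = [] := List.length_eq_zero_iff.1 hl
      subst hl'
      have e : ∀ ω, cost s ([] : List N) (assigned (fun x l => B ω (g x) (l.map g)) []) = 0 :=
        fun ω => cost_nil s _
      have e2 : ∫ ω, cost s ([] : List N) (assigned (fun x l => B ω (g x) (l.map g)) []) ∂μ = 0 := by
        rw [integral_congr_ae (Filter.Eventually.of_forall e)]
        simp
      rw [e2]
      positivity
    · have hq1 : 1 / 2 ≤ q := by
        rw [hq]
        apply Real.le_sqrt_of_sq_le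
        have h7 : (2 : ℝ) ≤ ((min l.length m : ℕ) : ℝ) + 1 := by
          have : 1 ≤ min l.length m := by omega
          have : (1 : ℝ) ≤ ((min l.length m : ℕ) : ℝ) := by exact_mod_cast this
          linarith
        have h8 := Real.log_le_log (by norm_num) h7
        have h9 : (1 / 2 : ℝ) ^ 2 ≤ Real.log 2 := by
          have := Real.log_two_gt_d9
          norm_num
          linarith
        exact le_trans h9 h8
      have h10 : K * ∫ ω, cost φ (l.map g) (assigned (B ω) (l.map g)) ∂μ ≤
          K * (C * q * (2 * cost s l τ)) := by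
        refine mul_le_mul_of_nonneg_left (le_trans h4 ?_) (by linarith)
        exact mul_le_mul_of_nonneg_left h6 (by positivity)
      have h11 : cost s l τ ≤ 2 * K * q * cost s l τ := by
        have : 1 ≤ 2 * K * q := by nlinarith
        nlinarith
      calc ∫ ω, cost s l (assigned (fun x l => B ω (g x) (l.map g)) l) ∂μ
          ≤ dn s near l + K * ∫ ω, cost φ (l.map g) (assigned (B ω) (l.map g)) ∂μ := by
            rw [← h3]; exact h2
        _ ≤ 2 * K * q * cost s l τ + K * (C * q * (2 * cost s l τ)) := by linarith
        _ = (2 + 2 * C) * K * q * cost s l τ := by ring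

end Pool.Agent.MP_a4c1f4_lc.SM
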