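import Pool.Agent.Lib.MP_a4c1f4_lc.SM.Amb

set_option autoImplicit false
set_option linter.all false

/-!
Online transportation for sites with a random embedding into the line of bounded expected
stretch; in particular for sites on a circle.
-/

namespace Pool.Agent.MP_a4c1f4_lc.SM

open Finset MeasureTheory
open Pool.Agent.MP_a4c1f4_lc.Dbl.L (assigned cost Respects)

/-- The sites have a random embedding into the real line (a finite probability space of maps which
do not decrease distances) which increases every distance by at most the factor `K` on average. -/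
def LineStretch {N : Type*} [MetricSpace N] {m : ℕ} (s : Fin m → N) (K : ℝ) : Prop :=
  ∃ (r : ℕ) (p : Fin r → ℝ) (φ : Fin r → Fin m → ℝ), (∀ k, 0 ≤ p k) ∧ ∑ k, p k = 1 ∧
    (∀ k i j, dist (s i) (s j) ≤ |φ k i - φ k j|) ∧
    ∀ i j, ∑ k, p k * |φ k i - φ k j| ≤ K * dist (s i) (s j)

/-- The theorem for sites with a random embedding into the line. -/
def Final4.{u} : Prop := ∃ C : ℝ, 0 < C ∧ ∀ (N : Type u) (_ : MetricSpace N) (m : ℕ) (_ : 0 < m)
  (s : Fin m → N) (cap : Fin m → ℕ) (K : ℝ), 1 ≤ K → LineStretch s K →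
  ∃ (Ω : Type) (_ : MeasurableSpace Ω) (μ : Measure Ω) (_ : IsProbabilityMeasure μ)
    (A : Ω → N → List N → Fin m),
    (∀ x l, Measurable (fun ω => A ω x l)) ∧
    (∀ ω l, l.length ≤ ∑ j, cap j → Respects cap (assigned (A ω) l)) ∧
    ∀ (l : List N) (τ : List (Fin m)), τ.length = l.length → Respects cap τ →
      ∫ ω, cost s l (assigned (A ω) l) ∂μ ≤
        C * K * Real.sqrt (Real.log ((min l.length m : ℕ) + 1)) * cost s l τ

namespace CirAux

open AmbAux

theorem up2_le {N : Type*} [MetricSpace N] {m : ℕ} (s : Fin m → N) (φ : Fin m → ℝ)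
    (near : N → Fin m) (hd : ∀ i j, dist (s i) (s j) ≤ |φ i - φ j|)
    (l : List N) (τ : List (Fin m)) (h : τ.length = l.length) :
    cost s l τ ≤ dn s near l + cost φ (l.map (fun x => φ (near x))) τ := by
  induction l generalizing τ with
  | nil => simp [dn, cost]
  | cons x l ih =>
    cases τ with
    | nil => simp at h
    | cons j τ =>
      rw [List.map_cons, cost_cons, cost_cons]
      unfold dn
      rw [List.map_cons, List.sum_cons]
      have h1 := ih τ (by simpa using h)
      unfold dn at h1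
      have h2 := dist_triangle x (s (near x)) (s j)
      have h3 := hd (near x) j
      rw [Real.dist_eq]
      linarith

theorem lo2_le {N : Type*} [MetricSpace N] {m r : ℕ} (s : Fin m → N) (p : Fin r → ℝ)
    (φ : Fin r → Fin m → ℝ) (K : ℝ) (hK : 0 ≤ K)
    (near : N → Fin m) (hn : ∀ x j, dist x (s (near x)) ≤ dist x (s j))
    (hd : ∀ i j, ∑ k, p k * |φ k i - φ k j| ≤ K * dist (s i) (s j))
    (l : List N) (τ : List (Fin m)) (h : τ.length = l.length) :
    ∑ k, p k * cost (φ k) (l.map (fun x => φ k (near x))) τ ≤ 2 * K * cost s l τ := by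
  induction l generalizing τ with
  | nil => simp [cost]
  | cons x l ih =>
    cases τ with
    | nil => simp at h
    | cons j τ =>
      have h1 := ih τ (by simpa using h)
      have h2 := dist_triangle_left (s (near x)) (s j) x
      have h3 := hd (near x) j
      have h4 := hn x j
      have h5 : ∑ k, p k * cost (φ k) ((x :: l).map (fun x => φ k (near x))) (j :: τ) =
          ∑ k, p k * |φ k (near x) - φ k j| +
            ∑ k, p k * cost (φ k) (l.map (fun x => φ k (near x))) τ := by
        rw [← sum_add_distrib]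
        refine sum_congr rfl fun k _ => ?_
        rw [List.map_cons, cost_cons, Real.dist_eq]
        ring
      rw [h5, cost_cons]
      have h6 : K * dist (s (near x)) (s j) ≤ K * (2 * dist x (s j)) :=
        mul_le_mul_of_nonneg_left (by linarith) hK
      linarith

/-- the mixture of finitely many probability measures -/
noncomputable def mix {r : ℕ} (p : Fin r → ℝ) (Ω : Fin r → Type)
    [mΩ : ∀ k, MeasurableSpace (Ω k)] (μ : ∀ k, Measure (Ω k)) : Measure (Σ k, Ω k) :=
  ∑ k, ENNReal.ofReal (p k) • (μ k).map (Sigma.mk k)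

theorem meas_mk {r : ℕ} (Ω : Fin r → Type) [mΩ : ∀ k, MeasurableSpace (Ω k)] (k : Fin r) :
    Measurable (Sigma.mk k : Ω k → Σ k, Ω k) := by
  intro t ht
  have h := MeasurableSpace.measurableSet_iInf.1 ht k
  exact h

theorem meas_of {r : ℕ} (Ω : Fin r → Type) [mΩ : ∀ k, MeasurableSpace (Ω k)] {β : Type*}
    [MeasurableSpace β] (f : (Σ k, Ω k) → β) (hf : ∀ k, Measurable (fun ω => f ⟨k, ω⟩)) :
    Measurable f := by
  intro t ht
  refine MeasurableSpace.measurableSet_iInf.2 fun k => ?_
  exact hf k ht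

theorem mix_prob {r : ℕ} (p : Fin r → ℝ) (hp : ∀ k, 0 ≤ p k) (hp1 : ∑ k, p k = 1)
    (Ω : Fin r → Type) [mΩ : ∀ k, MeasurableSpace (Ω k)] (μ : ∀ k, Measure (Ω k))
    (hμ : ∀ k, IsProbabilityMeasure (μ k)) : IsProbabilityMeasure (mix p Ω μ) := by
  constructor
  have h1 : ∀ k, ((μ k).map (Sigma.mk k : Ω k → Σ k, Ω k)) Set.univ = 1 := fun k => by
    rw [Measure.map_apply (meas_mk Ω k) MeasurableSet.univ, Set.preimage_univ]
    exact (hμ k).measure_univ
  unfold mix
  rw [Measure.finset_sum_apply]
  have h2 : ∀ k ∈ (univ : Finset (Fin r)),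
      (ENNReal.ofReal (p k) • (μ k).map (Sigma.mk k : Ω k → Σ k, Ω k)) Set.univ =
        ENNReal.ofReal (p k) := fun k _ => by
    rw [Measure.smul_apply, h1 k, smul_eq_mul, mul_one]
  rw [sum_congr rfl h2, ← ENNReal.ofReal_sum_of_nonneg fun k _ => hp k, hp1, ENNReal.ofReal_one]

theorem mix_int {r : ℕ} (p : Fin r → ℝ) (hp : ∀ k, 0 ≤ p k)
    (Ω : Fin r → Type) [mΩ : ∀ k, MeasurableSpace (Ω k)] (μ : ∀ k, Measure (Ω k))
    (hμ : ∀ k, IsProbabilityMeasure (μ k)) (f : (Σ k, Ω k) → ℝ) (hf : Measurable f)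
    (B : ℝ) (hB : ∀ ω, |f ω| ≤ B) :
    ∫ ω, f ω ∂(mix p Ω μ) = ∑ k, p k * ∫ ω, f ⟨k, ω⟩ ∂(μ k) := by
  have hi : ∀ k, Integrable f ((μ k).map (Sigma.mk k : Ω k → Σ k, Ω k)) := fun k => by
    have := Measure.isProbabilityMeasure_map (μ := μ k) (meas_mk Ω k).aemeasurable
    refine Integrable.mono' (integrable_const B) hf.aestronglyMeasurable ?_
    exact Filter.Eventually.of_forall fun ω => by rw [Real.norm_eq_abs]; exact hB ω
  unfold mix
  rw [integral_finsetSum_measure fun k _ => (hi k).smul_measure ENNReal.ofReal_ne_top]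
  refine sum_congr rfl fun k _ => ?_
  rw [integral_smul_measure, integral_map (meas_mk Ω k).aemeasurable
    hf.aestronglyMeasurable, ENNReal.toReal_ofReal (hp k), smul_eq_mul]

end CirAux

open AmbAux CirAux in
theorem cirP.{u} : Final2 → Final4.{u} := by
  rintro ⟨C, hC, h⟩
  refine ⟨2 + 2 * C, by positivity, ?_⟩
  intro N _ m hm s cap K hK ⟨r, p, φ, hp, hp1, hd, hd2⟩
  have h' := fun k : Fin r => h m hm (φ k) cap
  choose Ω mΩ μ hμ B hBm hBr hBc using h'
  have hne : Nonempty (Fin m) := ⟨⟨0, hm⟩⟩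
  have hnear : ∀ x : N, ∃ i : Fin m, ∀ j, dist x (s i) ≤ dist x (s j) := fun x =>
    Finite.exists_min (fun j => dist x (s j))
  choose near hn using hnear
  let g : Fin r → N → ℝ := fun k x => φ k (near x)
  let A : (Σ k, Ω k) → N → List N → Fin m := fun ω x l => B ω.1 ω.2 (g ω.1 x) (l.map (g ω.1))
  have hA : ∀ x (l : List N), Measurable (fun ω => A ω x l) := fun x l =>
    meas_of Ω _ fun k => hBm k (g k x) (l.map (g k))
  refine ⟨Σ k, Ω k, inferInstance, mix p Ω μ, mix_prob p hp hp1 Ω μ hμ, A, hA, ?_, ?_⟩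
  · rintro ⟨k, ω⟩ l hl
    have h1 : assigned (A ⟨k, ω⟩) l = assigned (B k ω) (l.map (g k)) := asg_map (g k) (B k ω) l
    rw [h1]
    exact hBr k ω (l.map (g k)) (by rw [List.length_map]; exact hl)
  · intro l τ hτ hR
    have hc := cost_nonneg s l τ
    set q := Real.sqrt (Real.log ((min l.length m : ℕ) + 1)) with hq
    have hq0 : 0 ≤ q := Real.sqrt_nonneg _
    obtain ⟨D, hD⟩ := bdd s l
    have hm1 : ∫ ω, cost s l (assigned (A ω) l) ∂(mix p Ω μ) =
        ∑ k, p k * ∫ ω, cost s l (assigned (A ⟨k, ω⟩) l) ∂(μ k) := by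
      refine mix_int p hp Ω μ hμ (fun ω => cost s l (assigned (A ω) l)) (meas s A hA l) D ?_
      intro ω
      rw [abs_of_nonneg (cost_nonneg s l _)]
      exact hD _
    -- the case of the empty list
    rcases Nat.eq_zero_or_pos l.length with hl | hl
    · have hl' : l = [] := List.length_eq_zero_iff.1 hl
      subst hl'
      have e : ∀ ω, cost s ([] : List N) (assigned (A ω) []) = 0 := fun ω => cost_nil s _
      have e2 : ∫ ω, cost s ([] : List N) (assigned (A ω) []) ∂(mix p Ω μ) = 0 := by
        rw [integral_congr_ae (Filter.Eventually.of_forall e)]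
        simp
      rw [e2]
      positivity
    have hq1 : 1 / 2 ≤ q := by
      rw [hq]
      apply Real.le_sqrt_of_sq_le
      have h7 : (2 : ℝ) ≤ ((min l.length m : ℕ) : ℝ) + 1 := by
        have : 1 ≤ min l.length m := by omega
        have : (1 : ℝ) ≤ ((min l.length m : ℕ) : ℝ) := by exact_mod_cast this
        linarith
      have h8 := Real.log_le_log (by norm_num) h7
      have h9 : (1 / 2 : ℝ) ^ 2 ≤ Real.log 2 := by
        have := Real.log_two_gt_d9
        norm_num
        linarith
      exact le_trans h9 h8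
    have hk : ∀ k, ∫ ω, cost s l (assigned (A ⟨k, ω⟩) l) ∂(μ k) ≤
        dn s near l + C * q * cost (φ k) (l.map (g k)) τ := by
      intro k
      have hpk := hμ k
      have hint := integ (μ k) s (fun ω x l => A ⟨k, ω⟩ x l)
        (fun x l => hBm k (g k x) (l.map (g k))) l
      have hint2 := integ (μ k) (φ k) (B k) (hBm k) (l.map (g k))
      have hpt : ∀ ω, cost s l (assigned (A ⟨k, ω⟩) l) ≤
          dn s near l + cost (φ k) (l.map (g k)) (assigned (B k ω) (l.map (g k))) := by
        intro ω
        have h1 := up2_le s (φ k) near (hd k) l (assigned (A ⟨k, ω⟩) l) (asg_len _ l)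
        have h2 : assigned (A ⟨k, ω⟩) l = assigned (B k ω) (l.map (g k)) :=
          asg_map (g k) (B k ω) l
        rw [h2] at h1 ⊢
        exact h1
      have h2 : ∫ ω, cost s l (assigned (A ⟨k, ω⟩) l) ∂(μ k) ≤
          ∫ ω, (dn s near l + cost (φ k) (l.map (g k)) (assigned (B k ω) (l.map (g k)))) ∂(μ k) :=
        integral_mono hint ((integrable_const _).add hint2) hpt
      have h3 : ∫ ω, (dn s near l + cost (φ k) (l.map (g k))
            (assigned (B k ω) (l.map (g k)))) ∂(μ k) =
          dn s near l + ∫ ω, cost (φ k) (l.map (g k)) (assigned (B k ω) (l.map (g k))) ∂(μ k) := by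
        rw [integral_add (integrable_const _) hint2, integral_const]
        simp
      have h4 := hBc k (l.map (g k)) τ (by rw [List.length_map]; exact hτ) hR
      rw [List.length_map] at h4
      rw [h3] at h2
      linarith
    have h5 := dn_le s near hn l τ hτ
    have h6 := lo2_le s p φ K (by linarith) near hn hd2 l τ hτ
    have h7 : ∑ k, p k * ∫ ω, cost s l (assigned (A ⟨k, ω⟩) l) ∂(μ k) ≤
        ∑ k, p k * (dn s near l + C * q * cost (φ k) (l.map (g k)) τ) :=
      sum_le_sum fun k _ => mul_le_mul_of_nonneg_left (hk k) (hp k)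
    have h8 : ∑ k, p k * (dn s near l + C * q * cost (φ k) (l.map (g k)) τ) =
        dn s near l + C * q * ∑ k, p k * cost (φ k) (l.map (g k)) τ := by
      have : ∀ k ∈ (univ : Finset (Fin r)),
          p k * (dn s near l + C * q * cost (φ k) (l.map (g k)) τ) =
          p k * dn s near l + C * q * (p k * cost (φ k) (l.map (g k)) τ) := fun k _ => by ring
      rw [sum_congr rfl this, sum_add_distrib, ← sum_mul, hp1, one_mul, mul_sum]
    have h9 : C * q * ∑ k, p k * cost (φ k) (l.map (g k)) τ ≤ C * q * (2 * K * cost s l τ) :=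
      mul_le_mul_of_nonneg_left h6 (by positivity)
    have h11 : cost s l τ ≤ 2 * K * q * cost s l τ := by
      have : 1 ≤ 2 * K * q := by nlinarith
      nlinarith
    rw [hm1]
    calc ∑ k, p k * ∫ ω, cost s l (assigned (A ⟨k, ω⟩) l) ∂(μ k)
        ≤ dn s near l + C * q * ∑ k, p k * cost (φ k) (l.map (g k)) τ := by
          rw [← h8]; exact h7
      _ ≤ 2 * K * q * cost s l τ + C * q * (2 * K * cost s l τ) := by linarith
      _ = (2 + 2 * C) * K * q * cost s l τ := by ring

end Pool.Agent.MP_a4c1f4_lc.SM
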