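import Pool.Agent.Lib.MP_a4c1f4_lc.SM.Cir

set_option autoImplicit false
set_option linter.all false

/-!
The random cut: sites on a circle have a random embedding into the line with expected stretch `2`.
-/

namespace Pool.Agent.MP_a4c1f4_lc.SM

open Finset

/-- The sites lie on a circle of some length `L > 0` (with the coordinates `θ i ∈ [0, L)`); their
distances are the lengths of the shorter arcs. -/
def OnCircle {N : Type*} [MetricSpace N] {m : ℕ} (s : Fin m → N) : Prop :=
  ∃ (L : ℝ) (θ : Fin m → ℝ), (∀ i, 0 ≤ θ i ∧ θ i < L) ∧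
    ∀ i j, dist (s i) (s j) = min |θ i - θ j| (L - |θ i - θ j|)

namespace CutAux

/-- the probability of the cut just before the `k`-th site -/
noncomputable def pr (m : ℕ) (L : ℝ) (u : ℕ → ℝ) (k : ℕ) : ℝ :=
  if k = 0 then (u 0 + L - u (m - 1)) / L else (u k - u (k - 1)) / L

theorem pr_zero (m : ℕ) (L : ℝ) (u : ℕ → ℝ) : pr m L u 0 = (u 0 + L - u (m - 1)) / L := by
  simp [pr]

theorem pr_succ (m : ℕ) (L : ℝ) (u : ℕ → ℝ) (k : ℕ) : pr m L u (k + 1) = (u (k + 1) - u k) / L := by
  simp [pr]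

theorem sum_pr (m : ℕ) (hm : 0 < m) (L : ℝ) (hL : 0 < L) (u : ℕ → ℝ) :
    ∑ k ∈ range m, pr m L u k = 1 := by
  obtain ⟨n, rfl⟩ : ∃ n, m = n + 1 := ⟨m - 1, by omega⟩
  rw [sum_range_succ', pr_zero]
  have h : ∀ k ∈ range n, pr (n + 1) L u (k + 1) = u (k + 1) / L - u k / L := fun k _ => by
    rw [pr_succ, sub_div]
  rw [sum_congr rfl h, sum_range_sub (fun k => u k / L)]
  have : n + 1 - 1 = n := by omega
  rw [this]
  field_simp
  ring

theorem sum_Ioc_pr (m : ℕ) (L : ℝ) (u : ℕ → ℝ) (a b : ℕ) (hab : a ≤ b) :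
    ∑ k ∈ Ioc a b, pr m L u k = (u b - u a) / L := by
  induction b, hab using Nat.le_induction with
  | base => simp
  | succ b hab ih =>
    rw [sum_Ioc_succ_top hab, ih, pr_succ]
    ring

theorem sum_ind (m : ℕ) (L : ℝ) (u : ℕ → ℝ) (a b : ℕ) (hab : a ≤ b) (hb : b < m) :
    ∑ k : Fin m, pr m L u k * (if a < (k : ℕ) ∧ (k : ℕ) ≤ b then 1 else 0) = (u b - u a) / L := by
  rw [← sum_Ioc_pr m L u a b hab,
    Fin.sum_univ_eq_sum_range (fun k => pr m L u k * (if a < k ∧ k ≤ b then 1 else 0)) m]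
  have h1 : ∀ k ∈ range m, pr m L u k * (if a < k ∧ k ≤ b then (1 : ℝ) else 0) =
      if a < k ∧ k ≤ b then pr m L u k else 0 := fun k _ => by
    split_ifs
    · rw [mul_one]
    · rw [mul_zero]
  rw [sum_congr rfl h1, ← sum_filter]
  have h2 : (range m).filter (fun k => a < k ∧ k ≤ b) = Ioc a b := by
    ext k
    simp only [mem_filter, mem_range, mem_Ioc]
    omega
  rw [h2]

theorem abs_eq (x L ti tj : ℝ) (hx : x = tj - ti) (hx0 : 0 ≤ x) (hxL : x ≤ L) (a b k : ℕ)
    (hab : a ≤ b) :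
    |(ti + if a < k then L else 0) - (tj + if b < k then L else 0)| =
      x + (L - 2 * x) * (if a < k ∧ k ≤ b then 1 else 0) := by
  by_cases h1 : a < k
  · by_cases h2 : b < k
    · rw [if_pos h1, if_pos h2, if_neg (by omega), abs_of_nonpos (by linarith)]
      rw [hx]
      ring
    · rw [if_pos h1, if_neg h2, if_pos (by omega), abs_of_nonneg (by linarith)]
      rw [hx]
      ring
  · rw [if_neg h1, if_neg (by omega), if_neg (by omega), abs_of_nonpos (by linarith)]
    rw [hx]
    ring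

end CutAux

open CutAux in
theorem cutP {N : Type*} [MetricSpace N] {m : ℕ} (hm : 0 < m) (s : Fin m → N)
    (h : OnCircle s) : LineStretch s 2 := by
  obtain ⟨L, θ, hθ, hd⟩ := h
  have hL : 0 < L := lt_of_le_of_lt (hθ ⟨0, hm⟩).1 (hθ ⟨0, hm⟩).2
  have hmono : Monotone (θ ∘ Tuple.sort θ) := Tuple.monotone_sort θ
  set σ := Tuple.sort θ with hσ
  let u : ℕ → ℝ := fun n => if h : n < m then θ (σ ⟨n, h⟩) else 0
  have hu : ∀ (n : ℕ) (hn : n < m), u n = θ (σ ⟨n, hn⟩) := fun n hn => dif_pos hn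
  have hum : ∀ a b, a ≤ b → b < m → u a ≤ u b := by
    intro a b hab hb
    rw [hu a (by omega), hu b hb]
    exact hmono (show (⟨a, by omega⟩ : Fin m) ≤ ⟨b, hb⟩ from hab)
  have hui : ∀ i : Fin m, u (σ.symm i) = θ i := by
    intro i
    rw [hu _ (σ.symm i).2]
    show θ (σ (σ.symm i)) = θ i
    rw [Equiv.apply_symm_apply]
  have key : ∀ i j : Fin m, ((σ.symm i : Fin m) : ℕ) ≤ ((σ.symm j : Fin m) : ℕ) →
      (∀ k : Fin m, dist (s i) (s j) ≤
        |(θ i + if ((σ.symm i : Fin m) : ℕ) < (k : ℕ) then L else 0) -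
          (θ j + if ((σ.symm j : Fin m) : ℕ) < (k : ℕ) then L else 0)|) ∧
      ∑ k : Fin m, pr m L u k *
        |(θ i + if ((σ.symm i : Fin m) : ℕ) < (k : ℕ) then L else 0) -
          (θ j + if ((σ.symm j : Fin m) : ℕ) < (k : ℕ) then L else 0)| ≤ 2 * dist (s i) (s j) := by
    intro i j hij
    have hx : θ i ≤ θ j := by
      have := hum _ _ hij (σ.symm j).2
      rwa [hui, hui] at this
    have hd' : dist (s i) (s j) = min (θ j - θ i) (L - (θ j - θ i)) := by
      rw [hd i j, abs_sub_comm, abs_of_nonneg (by linarith)]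
    have hxL : θ j - θ i ≤ L := by linarith [(hθ i).1, (hθ j).2]
    have hab : ∀ k : Fin m, |(θ i + if ((σ.symm i : Fin m) : ℕ) < (k : ℕ) then L else 0) -
          (θ j + if ((σ.symm j : Fin m) : ℕ) < (k : ℕ) then L else 0)| =
        (θ j - θ i) + (L - 2 * (θ j - θ i)) *
          (if ((σ.symm i : Fin m) : ℕ) < (k : ℕ) ∧ (k : ℕ) ≤ ((σ.symm j : Fin m) : ℕ)
            then 1 else 0) := fun k =>
      abs_eq (θ j - θ i) L (θ i) (θ j) rfl (by linarith) hxL _ _ k hij
    constructor
    · intro k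
      rw [hab k, hd']
      split_ifs
      · exact le_trans (min_le_right _ _) (by linarith)
      · exact le_trans (min_le_left _ _) (by linarith)
    · have h1 : ∀ k ∈ (univ : Finset (Fin m)), pr m L u k *
          |(θ i + if ((σ.symm i : Fin m) : ℕ) < (k : ℕ) then L else 0) -
            (θ j + if ((σ.symm j : Fin m) : ℕ) < (k : ℕ) then L else 0)| =
          pr m L u k * (θ j - θ i) + (L - 2 * (θ j - θ i)) * (pr m L u k *
            (if ((σ.symm i : Fin m) : ℕ) < (k : ℕ) ∧ (k : ℕ) ≤ ((σ.symm j : Fin m) : ℕ)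
              then 1 else 0)) := fun k _ => by
        rw [hab k]
        ring
      rw [sum_congr rfl h1, sum_add_distrib, ← sum_mul, ← mul_sum,
        sum_ind m L u _ _ hij (σ.symm j).2, hui, hui,
        Fin.sum_univ_eq_sum_range (fun k => pr m L u k) m, sum_pr m hm L hL u, hd']
      have h2 : 1 * (θ j - θ i) + (L - 2 * (θ j - θ i)) * ((θ j - θ i) / L) =
          2 * ((θ j - θ i) * ((L - (θ j - θ i)) / L)) := by
        field_simp
        ring
      rw [h2]
      refine mul_le_mul_of_nonneg_left ?_ (by norm_num)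
      rw [le_min_iff]
      constructor
      · have : (L - (θ j - θ i)) / L ≤ 1 := by
          rw [div_le_one hL]
          linarith
        exact mul_le_of_le_one_right (by linarith) this
      · have h3 : (θ j - θ i) * ((L - (θ j - θ i)) / L) =
            (L - (θ j - θ i)) * ((θ j - θ i) / L) := by ring
        rw [h3]
        have : (θ j - θ i) / L ≤ 1 := by
          rw [div_le_one hL]
          linarith
        exact mul_le_of_le_one_right (by linarith) this
  refine ⟨m, fun k => pr m L u k, fun k i =>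
    θ i + if ((σ.symm i : Fin m) : ℕ) < (k : ℕ) then L else 0, ?_, ?_, ?_, ?_⟩
  · intro k
    rcases Nat.eq_zero_or_pos (k : ℕ) with hk | hk
    · show 0 ≤ pr m L u k
      rw [hk, pr_zero]
      refine div_nonneg ?_ hL.le
      rw [hu 0 hm, hu (m - 1) (by omega)]
      linarith [(hθ (σ ⟨0, hm⟩)).1, (hθ (σ ⟨m - 1, by omega⟩)).2]
    · obtain ⟨n, hn⟩ : ∃ n, (k : ℕ) = n + 1 := ⟨(k : ℕ) - 1, by omega⟩
      show 0 ≤ pr m L u k
      rw [hn, pr_succ]
      refine div_nonneg ?_ hL.le
      linarith [hum n (n + 1) (by omega) (by have := k.2; omega)]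
  · rw [Fin.sum_univ_eq_sum_range (fun k => pr m L u k) m, sum_pr m hm L hL u]
  · intro k i j
    rcases le_total ((σ.symm i : Fin m) : ℕ) ((σ.symm j : Fin m) : ℕ) with hij | hij
    · exact (key i j hij).1 k
    · rw [dist_comm, abs_sub_comm]
      exact (key j i hij).1 k
  · intro i j
    rcases le_total ((σ.symm i : Fin m) : ℕ) ((σ.symm j : Fin m) : ℕ) with hij | hij
    · exact (key i j hij).2
    · have h1 := (key j i hij).2
      rw [dist_comm]
      refine le_trans (le_of_eq (sum_congr rfl fun k _ => ?_)) h1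
      rw [abs_sub_comm]

end Pool.Agent.MP_a4c1f4_lc.SM
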