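import Pool.Agent.Lib.MP_a4c1f4_lc.SM.Spec

set_option autoImplicit false
set_option linter.all false

/-!
MP_a4c1f4_lc, project SM: nodes for a finite set of reals, and the geometry of the sites.
-/

namespace Pool.Agent.MP_a4c1f4_lc.SM

open Finset MeasureTheory
open Pool.Agent.MP_a4c1f4_lc.Dbl.L (assigned cost Respects)
open Pool.Agent.MP_a4c1f4_lc.SO (fl mvN dl Mov Mv Fam opt)

namespace GeoAux

/-- The least distance. -/
theorem exD (X : Finset ℝ) : ∃ δ : ℝ, 0 < δ ∧ ∀ x ∈ X, ∀ y ∈ X, x ≠ y → δ ≤ |x - y| := by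
  classical
  rcases (X.offDiag).eq_empty_or_nonempty with h | h
  · refine ⟨1, one_pos, ?_⟩
    intro x hx y hy hxy
    have hm : (x, y) ∈ X.offDiag := Finset.mem_offDiag.mpr ⟨hx, hy, hxy⟩
    rw [h] at hm
    simp at hm
  · obtain ⟨p, hp, hmin⟩ := Finset.exists_min_image X.offDiag (fun q => |q.1 - q.2|) h
    obtain ⟨h1, h2, h3⟩ := Finset.mem_offDiag.mp hp
    refine ⟨|p.1 - p.2|, abs_pos.mpr (sub_ne_zero.mpr h3), ?_⟩
    intro x hx y hy hxy
    exact hmin (x, y) (Finset.mem_offDiag.mpr ⟨hx, hy, hxy⟩)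

end GeoAux

open GeoAux

/-- Nodes for a finite set of reals. -/
theorem geoP : M_Geo := by
  intro X
  obtain ⟨δ, hδ, hd⟩ := exD X
  obtain ⟨z0, hz0⟩ := X.bddBelow
  have hz : ∀ x ∈ X, z0 ≤ x := fun x hx => hz0 (Finset.mem_coe.mpr hx)
  refine ⟨δ / 2, fun x => ⌊(x - z0) / (δ / 3)⌋₊, X.sup (fun x => ⌊(x - z0) / (δ / 3)⌋₊), by positivity,
    ?_, ?_⟩
  · intro x hx
    exact Finset.le_sup (f := fun x => ⌊(x - z0) / (δ / 3)⌋₊) hx
  · intro x hx y hy
    by_cases hxy : x = y
    · subst hxy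
      simp
    · have h1 := hd x hx y hy hxy
      have hb : ∀ w ∈ X, (⌊(w - z0) / (δ / 3)⌋₊ : ℝ) * (δ / 3) ≤ w - z0 ∧
          w - z0 < ((⌊(w - z0) / (δ / 3)⌋₊ : ℝ) + 1) * (δ / 3) := by
        intro w hw
        have hw0 : 0 ≤ (w - z0) / (δ / 3) := div_nonneg (by linarith [hz w hw]) (by positivity)
        have ha := Nat.floor_le hw0
        have hb' := Nat.lt_floor_add_one ((w - z0) / (δ / 3))
        have h3 : 0 < δ / 3 := by positivity
        constructor
        · exact (le_div_iff₀ h3).mp ha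
        · exact (div_lt_iff₀ h3).mp hb'
      obtain ⟨hx1, hx2⟩ := hb x hx
      obtain ⟨hy1, hy2⟩ := hb y hy
      set p : ℝ := (⌊(x - z0) / (δ / 3)⌋₊ : ℝ) with hp
      set q : ℝ := (⌊(y - z0) / (δ / 3)⌋₊ : ℝ) with hq
      show |x - y| ≤ δ / 2 * |p - q| ∧ δ / 2 * |p - q| ≤ 2 * |x - y|
      have hup : (p - q) * (δ / 3) ≤ (x - y) + δ / 3 := by nlinarith
      have hlo : (x - y) - δ / 3 ≤ (p - q) * (δ / 3) := by nlinarith
      rcases le_total y x with h | h
      · rw [abs_of_nonneg (sub_nonneg.mpr h)] at h1 ⊢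
        have hpq : 0 ≤ p - q := by
          by_contra hc
          push Not at hc
          nlinarith
        rw [abs_of_nonneg hpq]
        constructor <;> nlinarith
      · have hyx : x - y ≤ 0 := sub_nonpos.mpr h
        rw [abs_of_nonpos hyx] at h1 ⊢
        have hpq : p - q ≤ 0 := by
          by_contra hc
          push Not at hc
          nlinarith
        rw [abs_of_nonpos hpq]
        constructor <;> nlinarith

/-- The geometry of the sites. -/
theorem geoEP : M_GeoE := by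
  classical
  intro hG m s cap hex
  obtain ⟨j0, hj0⟩ := hex
  set A : Finset (Fin m) := univ.filter (fun j => 0 < cap j) with hA
  have hAn : A.Nonempty := ⟨j0, by simp [hA, hj0]⟩
  obtain ⟨η, t, E, hη, htE, ht⟩ := hG (A.image s)
  have hmin : ∀ x : ℝ, ∃ j ∈ A, ∀ i ∈ A, |x - s j| ≤ |x - s i| := fun x =>
    Finset.exists_min_image A (fun j => |x - s j|) hAn
  choose near hn1 hn2 using hmin
  have hmem : ∀ j, 0 < cap j → j ∈ A := fun j hj => by simp [hA, hj]
  have him : ∀ j, 0 < cap j → s j ∈ A.image s := fun j hj =>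
    Finset.mem_image_of_mem s (hmem j hj)
  refine ⟨η, fun j => t (s j), E, near, ?_⟩
  refine ⟨hη, ?_, ?_, ?_, ?_, ?_⟩
  · intro j hj
    exact htE (s j) (him j hj)
  · intro x
    have := hn1 x
    simpa [hA] using this
  · intro x j hj
    exact hn2 x j (hmem j hj)
  · intro i j hi hj
    exact (ht (s i) (him i hi) (s j) (him j hj)).1
  · intro i j hi hj
    exact (ht (s i) (him i hi) (s j) (him j hj)).2

end Pool.Agent.MP_a4c1f4_lc.SM
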