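import Mathlib
import Pool.Agent.Lib.MP_a4c1f4_lc.SO.Spec
import Pool.Agent.Lib.MP_a4c1f4_lc.SQ.Spec

set_option autoImplicit false
set_option linter.all false

/-!
Online matching on the line with the ratio `O(√(log (min n m)))`, `n` requests, `m` sites, arbitrary
capacities. Statements, each with its proof in words. The core `SQ` is used with the scales counted
by the lengths of the gaps between the sites.
-/

namespace Pool.Agent.MP_a4c1f4_lc.SM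

open Finset MeasureTheory
open Pool.Agent.MP_a4c1f4_lc.Dbl.L (assigned cost Respects)
open Pool.Agent.MP_a4c1f4_lc.SO (fl mvN dl Mov Mv Fam opt)
open Pool.Agent.MP_a4c1f4_lc.SQ (St us sl TT XX BB uL uR qq Move Self Stp Inv AbS Rn YY mo Off rh
  nr bl lab Sat)

/-! ## The core -/

open Classical in
/-- `P` = the nodes which are sites. The number of the edges in the gap of the edge `k`: the edges
`k'` with the same sites on the left. -/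
noncomputable def wg (N : ℕ) (P : Finset ℕ) (k : ℕ) : ℕ :=
  ((Icc 1 N).filter (fun k' => ∀ p ∈ P, (p < k ↔ p < k'))).card

/-- The edges which count at the scale `H`, for at most `m` sites. -/
noncomputable def GG (N m : ℕ) (P : Finset ℕ) (H : ℕ) : Finset ℕ :=
  (Icc 1 N).filter (fun k => H ≤ 4 * m * wg N P k ∧ wg N P k < 6 * 2 ^ 25 * H)

/-- Gaps. PROOF. (1) `k` itself. (2) `p < k ≤ p'`: every `k'` of the gap of `k` satisfies `p < k' ≤ p'`.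
(3), (4): `A` = the filtered set, `φ k = card {p ∈ P : p < k}`; the sets `{p ∈ P : p < k}` are nested, so
`φ k = φ k'` iff `k`, `k'` are in the same gap. `φ` has at most `m` values on `A` (for (3), `1 ≤ φ k ≤ card P`
as `v ∈ P`, `v < k`; for (4), `φ k ≤ card P - 1` as `v ∈ P`, `k ≤ v`). Each fiber of `φ` on `A` is contained in
the gap of any of its elements, so `4 m card (fiber) < H`. Sum over the values: `4 m card A ≤ m H`
(`Finset.card_eq_sum_card_image`). -/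
def M_Gap : Prop := ∀ (N m : ℕ) (P : Finset ℕ), 1 ≤ m → P.card ≤ m →
  (∀ k, 1 ≤ k → k ≤ N → 1 ≤ wg N P k) ∧
  (∀ p p' k, p ∈ P → p' ∈ P → p < k → k ≤ p' → wg N P k ≤ p' - p) ∧
  (∀ v H, v ∈ P → v + H ≤ N →
    4 * ((Ioc v (v + H)).filter (fun k => 4 * m * wg N P k < H)).card ≤ H) ∧
  (∀ v H, v ∈ P → H ≤ v → v ≤ N →
    4 * ((Ioc (v - H) v).filter (fun k => 4 * m * wg N P k < H)).card ≤ H)

/-- The raise, counted by gaps. USES `SQ.S_Bb`, `SQ.S_Ca`, `M_Gap`; copy the proof of `SQ.S_Ra`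
(`SQ/Ra.lean`). PROOF. `C = 2^25`. Let `mR ≥ 1/2` (the other case is symmetric); the right side is
live, `gr ∈ P` (`0 ≤ us gr < c gr`), `r = gr - v ≥ rh ≥ H`. `nR` = the number of all `k ∈ Ioc v gr` with
`1 ≤ sl k`, `nZ` = the same for `Z = Ioc v (v+H)`. If `2 C nR ≥ r` or `2 C nZ ≥ H`: `YY ≥ s mR nR ≥ s H/(4 C)`,
first alternative as in `S_Ra`. Otherwise by regularity `∑_{Ioc v gr} uR ≥ u(Ioc v gr)/2` and
`∑_Z uR ≥ u(Z)/2`, `q = mR ∑ uR ≥ u(Z)/4`. CLAIM `r < 6 C H`: clear if `rh = r`. Otherwise the left side is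
live and `l = v - gl = rh < 2 H`; `mL ∑ uL = mR ∑ uR`, `mL ≤ 1/2 ≤ mR`, `∑ uR > 0`, so `∑ uL ≥ ∑ uR`,
`u(left) ≥ u(right)/2`; regularity for `Icc (gl+1) gr` summed over `k ∈ Ioc gl v`:
`(l + r) u(left) ≤ C l (u(left) + u(right)) ≤ 3 C l u(left)`, so `r < 3 C l < 6 C H`. By `M_Gap` (2),
`wg k ≤ r < 6 C H` for `k ∈ Z`; by `M_Gap` (3) `Z' = Z ∩ GG` has `4 card Z' ≥ 3 H`, `Z' ⊆ nr N v H ∩ GG`. As in
`S_Ra`, `qq x ≥ (3/16) u(Z)` for all `x` as in the statement, and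
`u(Z) ≥ u(Z') ≥ (card Z')^2 / ∑_{Z'} BB ≥ (H/2)^2 / E`. -/
def M_Ra : Prop := ∀ (N : ℕ) (c : ℕ → ℝ) (D : ℕ) (b ε : ℝ) (L : ℕ) (σ : St) (v : ℕ) (s : ℝ) (σ' : St)
  (gl gr : ℕ) (mL mR q : ℝ) (H m : ℕ) (P : Finset ℕ), 0 < b → 0 ≤ s →
  (∀ k, σ.F k < b * 64 ^ L) → Inv N c b ε σ → Move N c D b L σ v s σ' gl gr mL mR q → 1 ≤ m →
  P.card ≤ m → v ∈ P → (∀ x, x ≤ N → 0 < c x → x ∈ P) → 1 ≤ H → H ≤ rh c σ v gl gr →
  rh c σ v gl gr < 2 * H →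
  mo N σ σ' ≤ (4 * 2 ^ 25 + 1) * (8 * 2 ^ 25 + 1) * YY N σ σ' ∨
  (H ≤ 2 * (nr N v H ∩ GG N m P H).card ∧
    ∀ E : ℝ, 0 < E → ∑ k ∈ nr N v H ∩ GG N m P H, BB N b L σ.F k ≤ E →
      ∀ x, x ≤ N → x * (9 * 2 ^ 25) ≤ v * (9 * 2 ^ 25) + H → v * (9 * 2 ^ 25) ≤ x * (9 * 2 ^ 25) + H →
        σ.p x + s * (3 / 64 * H ^ 2 / E) ≤ σ'.p x)

/-- Multiplicity. USES `SQ.S_Lb`, `M_Gap` ((1)). PROOF. For each `i` apply `S_Lb` (4) to
`k ↦ if k ∈ GG N m P (2^i) then B k else 0`; then exchange the sums: every `k ∈ Icc 1 N` is in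
`GG N m P (2^i)` for at most `Nat.log 2 m + 31` numbers `i`: with `j = Nat.log 2 (wg k)`,
`2^i ≤ 4 m wg k < 2^(log m + j + 4)` gives `i ≤ log m + j + 3`, and `2^j ≤ wg k < 6 * 2^25 * 2^i < 2^(28 + i)` gives
`j < 28 + i`. -/
def M_Lb : Prop := ∀ (N m I : ℕ) (P : Finset ℕ) (B : ℕ → ℝ), 1 ≤ m → P.card ≤ m → (∀ k, 0 ≤ B k) →
  ∑ i ∈ range I, ∑ x ∈ (range (N + 1)).image (lab i),
    ∑ k ∈ nr N x (2 * 2 ^ i) ∩ GG N m P (2 ^ i), B k ≤
    (36 * 2 ^ 25 + 3) * ((Nat.log 2 m + 31 : ℕ) : ℝ) * ∑ k ∈ Icc 1 N, B k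

/-- Counting with a threshold `Q` which is not the number `K` of the scales. PROOF: the proof of
`SQ.S_Cnt` (copy `SQ/Cnt.lean`), with `√Q` in place of `√K`; at the end
`∑_{i<K} ∑_λ E i λ ≤ C5 Q T` and `Q / √Q = √Q`. -/
def M_Cnt : Prop := ∀ (M K : ℕ) (Q : ℝ) (s pr cs Y : ℕ → ℝ) (sc lb v : ℕ → ℕ) (p : ℕ → ℕ → ℝ)
  (E : ℕ → ℕ → ℝ) (Λ : ℕ → Finset ℕ) (R : ℕ → Prop) (ε C2 C4 C5 κ T : ℝ), 0 < Q → 0 ≤ C2 → 0 ≤ C4 →
  0 < κ → 0 ≤ T → 0 ≤ C5 →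
  (∀ t, t < M → 0 ≤ s t ∧ s t ≤ ε ∧ 0 ≤ Y t ∧ pr t = p t (v t)) →
  (∀ t t', t < M → t' < M → 0 ≤ p t (v t') ∧ p t (v t') ≤ p (t + 1) (v t')) →
  (∀ t, t < M → ¬ R t → cs t ≤ C4 * Y t) →
  (∀ t, t < M → R t → cs t ≤ C2 * (2 * s t * 2 ^ (sc t) + Y t) ∧ sc t < K ∧ lb t ∈ Λ (sc t) ∧
    0 < E (sc t) (lb t) ∧ ε ≤ E (sc t) (lb t) / (Real.sqrt Q * 2 ^ (sc t))) →
  (∀ t t', t < t' → t' < M → R t → R t' → sc t = sc t' → lb t = lb t' →
    p t (v t') + s t * (κ * (2 ^ (sc t)) ^ 2 / E (sc t) (lb t)) ≤ p (t + 1) (v t')) →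
  ∑ i ∈ range K, ∑ x ∈ Λ i, E i x ≤ C5 * Q * T → (∀ i x, i < K → x ∈ Λ i → 0 ≤ E i x) →
  ∑ t ∈ range M, cs t ≤ (C2 + C4) * ∑ t ∈ range M, Y t + 2 * C2 * Real.sqrt Q * ∑ t ∈ range M, s t * pr t +
    2 * C2 * (1 / κ + 1) * C5 * Real.sqrt Q * T

/-- The movement of a run with requests at sites. USES `SQ.S_Bb`, `SQ.S_In`, `SQ.S_Sp`, `SQ.S_Bt`,
`SQ.S_Ca`, `SQ.S_Lb`, `M_Ra`, `M_Lb`, `M_Cnt`; copy the proof of `SQ.S_Mn` (`SQ/Mn.lean`). PROOF.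
`Q = Nat.log 2 m + 31`, `K = Nat.log 2 N + 1` scales (`rh ≤ N`), `C2 = 4 * 2^25 + 1`,
`C4 = C2 (8 * 2^25 + 1)`, `C5 = 36 * 2^25 + 3`, `κ = 3/64`, `T = ∑_{Icc 1 N} BB_M`, `cs t = mo`, `Y t = YY`,
`sc t = Nat.log 2 rh`, `H = 2^(sc t) ≤ rh < 2 H`, `lb t = lab (sc t) (v t)`, `Λ i = (range (N+1)).image (lab i)`,
`E i λ = ∑_{k ∈ nr N λ (2 * 2^i) ∩ GG N m P (2^i)} BB_M k`. `R t` = `Move` and the second alternative of
`M_Ra`: then `nr N v H ∩ GG N m P H ⊆ nr N (lab v) (2 H) ∩ GG N m P H` (`S_Lb` (3)) has at least `H/2` elements,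
`BB_M ≥ b`, so `E ≥ b H/2 > 0` and `ε ≤ b/(2 √Q) ≤ E/(√Q H)`; the sum for `BB_t` is `≤ E` (`BB` monotone). -/
def M_Mn : Prop := ∃ C : ℝ, 0 < C ∧ ∀ (N : ℕ) (c : ℕ → ℝ) (D m : ℕ) (b ε : ℝ) (L M : ℕ)
  (σ : ℕ → St) (v : ℕ → ℕ) (s : ℕ → ℝ) (S : ℕ → ℝ) (P : Finset ℕ), 1 ≤ m → P.card ≤ m →
  (∀ x, x ≤ N → 0 < c x → x ∈ P) → (∀ t, t < M → v t ∈ P) → Rn N c D b ε L M σ v s →
  Off N c (σ M).r S → ε ≤ b / (2 * Real.sqrt ((Nat.log 2 m + 31 : ℕ) : ℝ)) →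
  ∑ t ∈ range M, mo N (σ t) (σ (t + 1)) ≤
    C * Real.sqrt ((Nat.log 2 m + 31 : ℕ) : ℝ) * (∑ k ∈ Icc 1 N, |S k| + b * N)

/-- The core for `m` sites. USES `SQ.S_Ab`, `SQ.S_In`, `M_Mn`, `SQ.S_Mc`, `SQ.S_Ex`; copy the proof of
`SQ.S_Co` (`SQ/Co.lean`). PROOF. `N = E`, `D = E + 1`, `n0 = ∑_{x ≤ E} c x` (the window condition of `S_Ex` only
concerns `x = 0`), `P = {x ≤ E : 0 < c x}`, `ε = min (b/512) (b / (2 √(Nat.log 2 m + 31)))`. -/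
def Core2 : Prop := ∃ C : ℝ, 0 < C ∧ ∀ (E m : ℕ) (c : ℕ → ℕ) (b0 : ℝ), 0 < b0 → 1 ≤ m →
  ((range (E + 1)).filter (fun x => 0 < c x)).card ≤ m →
  ∃ a : List ℕ → ℕ → ℝ, (∀ x, a [] x = 0) ∧
  ∀ l : List ℕ, (∀ v, v ∈ l → v ≤ E ∧ 0 < c v) → l.length ≤ ∑ x ∈ range (E + 1), c x →
    (∀ x, x ≤ E → 0 ≤ a l x ∧ a l x ≤ c x) ∧
    ∑ x ∈ range (E + 1), a l x = l.length ∧
    (∀ v l', l = v :: l' → ∀ x, x ≤ E → a l' x ≤ a l x) ∧
    ∀ u : ℕ → ℝ, (∀ x, x ≤ E → 0 ≤ u x ∧ u x ≤ c x) → ∑ x ∈ range (E + 1), u x = l.length →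
      mvN E a l ≤ C * Real.sqrt ((Nat.log 2 m + 31 : ℕ) : ℝ) * (∑ k ∈ range E, |fl u l k| + b0 * E)

/-! ## The outer part -/

/-- Nodes for a finite set of reals. PROOF. Let `η` be the least distance of two different elements of
`X` (or `1`). For a fixed `η > 0` with `η ≤ |x - y|` for all different `x, y ∈ X`: induction on the largest
element (`Finset.induction_on_max`): for the new largest element `y`, `x0 = max X`:
`t y = t x0 + ⌈(y - x0)/η⌉₊`, `E' = t y`. For `x ∈ X`: `η (t y - t x) ≥ (x0 - x) + (y - x0)` and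
`η (t y - t x) ≤ 2 (x0 - x) + (y - x0) + η ≤ 2 (x0 - x) + 2 (y - x0)`. -/
def M_Geo : Prop := ∀ (X : Finset ℝ), ∃ (η : ℝ) (t : ℝ → ℕ) (E : ℕ), 0 < η ∧ (∀ x ∈ X, t x ≤ E) ∧
  ∀ x ∈ X, ∀ y ∈ X, |x - y| ≤ η * |(t x : ℝ) - (t y : ℝ)| ∧
    η * |(t x : ℝ) - (t y : ℝ)| ≤ 2 * |x - y|

/-- The capacity of the node `k`. -/
def ck {m : ℕ} (t : Fin m → ℕ) (cap : Fin m → ℕ) (k : ℕ) : ℕ :=
  ∑ j ∈ univ.filter (fun j => t j = k), cap j

/-- The share of the site `j` in the mass `a k` of its node `k = t j`. -/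
noncomputable def sk {m : ℕ} (t : Fin m → ℕ) (cap : Fin m → ℕ) (a : ℕ → ℝ) (j : Fin m) : ℝ :=
  a (t j) * cap j / ck t cap (t j)

/-- The shares. PROOF: the proof of `SO.O_Shr` (copy `SO/Shr.lean`), with `t j` in place of
`nd η z0 (s j)`. (4): the image of the sites under `t`. -/
def M_Shr : Prop := ∀ (m : ℕ) (t : Fin m → ℕ) (cap : Fin m → ℕ) (E : ℕ),
  (∀ j, 0 < cap j → t j ≤ E) →
  (∀ a : ℕ → ℝ, (∀ k, k ≤ E → 0 ≤ a k ∧ a k ≤ ck t cap k) →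
    (∀ j, 0 ≤ sk t cap a j ∧ sk t cap a j ≤ cap j) ∧
    ∀ g : ℕ → ℝ, ∑ j, sk t cap a j * g (t j) = ∑ k ∈ range (E + 1), a k * g k) ∧
  (∀ a a' : ℕ → ℝ, (∀ k, k ≤ E → a k ≤ a' k) → ∀ j, sk t cap a j ≤ sk t cap a' j) ∧
  ∑ k ∈ range (E + 1), ck t cap k = ∑ j, cap j ∧
  ((range (E + 1)).filter (fun x => 0 < ck t cap x)).card ≤ m

/-- Merging two families at a monotone event. PROOF. `y l = yB l` if `Q l`, else `yA l`. Induction on
`l`: `¬ Q (x :: l)` (so `¬ Q l`) and `Q l` (so `Q (x :: l)`): both sides grow by the same term.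
`¬ Q l`, `Q (x :: l)`: `l' = l`, the new term is at most `Mov s yB (x :: l) + Mov s yA l` by `SO.O_Mov` (1), (2)
and the triangle inequality. -/
def M_Mrg : Prop := ∀ (m : ℕ) (s : Fin m → ℝ) (cap : Fin m → ℕ) (yA yB : List ℝ → Fin m → ℝ)
  (Q : List ℝ → Prop), Fam cap yA → Fam cap yB → ¬ Q [] → (∀ x l, Q l → Q (x :: l)) →
  ∃ y : List ℝ → Fin m → ℝ, Fam cap y ∧ ∀ l : List ℝ, l.length ≤ ∑ j, cap j →
    (¬ Q l → Mov s y l = Mov s yA l) ∧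
    (Q l → ∃ l', l' <:+ l ∧ ¬ Q l' ∧ Mov s y l ≤ Mov s yB l + 2 * Mov s yA l')

/-- Monotone families. USES `SO.O_Mov` ((3)). PROOF: induction on `l`. (In `SO/Frac.lean` there is the
same for `Good` lists.) -/
def M_Mm : Prop := ∀ (m : ℕ) (s : Fin m → ℝ) (cap : Fin m → ℕ) (y : List ℝ → Fin m → ℝ),
  Fam cap y → ∀ l : List ℝ, l.length ≤ ∑ j, cap j →
  (∀ x l', (x :: l') <:+ l → ∀ j, y l' j ≤ y (x :: l') j) → Mov s y l ≤ Mv s y l

/-- The geometry of the nodes: `t j` the node of the site `j`, `near x` a nearest site with positive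
capacity. -/
structure Geo {m : ℕ} (s : Fin m → ℝ) (cap : Fin m → ℕ) (η : ℝ) (t : Fin m → ℕ) (E : ℕ)
    (near : ℝ → Fin m) : Prop where
  pos : 0 < η
  tE : ∀ j, 0 < cap j → t j ≤ E
  nc : ∀ x, 0 < cap (near x)
  nn : ∀ x j, 0 < cap j → |x - s (near x)| ≤ |x - s j|
  lo : ∀ i j, 0 < cap i → 0 < cap j → |s i - s j| ≤ η * |(t i : ℝ) - (t j : ℝ)|
  up : ∀ i j, 0 < cap i → 0 < cap j → η * |(t i : ℝ) - (t j : ℝ)| ≤ 2 * |s i - s j|

/-- PROOF. `M_Geo` for the set `X` of the `s j` with `0 < cap j`; `t j = t' (s j)`; `near x` by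
`Finset.exists_min_image`. -/
def M_GeoE : Prop := M_Geo → ∀ (m : ℕ) (s : Fin m → ℝ) (cap : Fin m → ℕ), (∃ j, 0 < cap j) →
  ∃ (η : ℝ) (t : Fin m → ℕ) (E : ℕ) (near : ℝ → Fin m), Geo s cap η t E near

/-- The nodes of the requests. -/
def vn {m : ℕ} (t : Fin m → ℕ) (near : ℝ → Fin m) (l : List ℝ) : List ℕ := l.map (fun x => t (near x))

/-- The distances of the requests to their nearest sites. -/
noncomputable def ds {m : ℕ} (s : Fin m → ℝ) (near : ℝ → Fin m) (l : List ℝ) : ℝ :=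
  (l.map (fun x => |x - s (near x)|)).sum

/-- Pulling back a monotone family from the path. USES `M_Shr`. PROOF. Induction on `l`. Step `x :: l`:
`d j = sk (b (vn (x :: l))) j - sk (b (vn l)) j ≥ 0` (`M_Shr` (2)), `∑_j d j = 1` (`M_Shr` (1) with `g = 1`). For
`0 < cap j`: `|x - s j| ≤ |x - s (near x)| + |s (near x) - s j| ≤ |x - s (near x)| + η |t j - t (near x)|`; for
`cap j = 0`: `d j = 0`. So `∑ d j |x - s j| ≤ |x - s (near x)| + η ∑_j d j |t j - t (near x)|`, and the last sum is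
`∑_{k ≤ E} (b (vn (x::l)) k - b (vn l) k) |k - t (near x)|` (`M_Shr` (1), twice), the step of `mvN`. -/
def M_Pul : Prop := ∀ (m : ℕ) (s : Fin m → ℝ) (cap : Fin m → ℕ) (η : ℝ) (t : Fin m → ℕ) (E : ℕ)
  (near : ℝ → Fin m) (b : List ℕ → ℕ → ℝ) (l : List ℝ), Geo s cap η t E near →
  (∀ l', l' <:+ l → (∀ k, k ≤ E → 0 ≤ b (vn t near l') k ∧ b (vn t near l') k ≤ ck t cap k) ∧
    ∑ k ∈ range (E + 1), b (vn t near l') k = l'.length) →
  (∀ x l', (x :: l') <:+ l → ∀ k, k ≤ E → b (vn t near l') k ≤ b (vn t near (x :: l')) k) →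
  Mv s (fun l => sk t cap (b (vn t near l))) l ≤ ds s near l + η * mvN E b (vn t near l)

/-- The offline assignment on the path. USES `SO.offClean` (file `SO/Off.lean`), `M_Shr` ((3)). `u k` = the
number of the elements of `τ` at the node `k`. PROOF. (1) `u k = ∑_{t j = k} τ.count j ≤ ck k`. (2) all `j ∈ τ`
have `0 < cap j`, so `t j ≤ E`. (3) termwise: `|x - s (near x)| ≤ |x - s j|`. (4) `offClean`: the sum is at
most `∑ |t (near x) - t j| ≤ ∑ (2/η) |s (near x) - s j|`, and `|s (near x) - s j| ≤ 2 |x - s j|`. (5) `fl u` has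
integer values; if all `fl u k`, `k < E`, are `0`, then (differences of consecutive ones, and the
equality of the sums over `range (E + 1)` for the last node) `u k = (vn l).count k` for all `k ≤ E`, a
contradiction to `u ≤ ck`. So some `|fl u k| ≥ 1`. -/
def M_Lo : Prop := ∀ (m : ℕ) (s : Fin m → ℝ) (cap : Fin m → ℕ) (η : ℝ) (t : Fin m → ℕ) (E : ℕ)
  (near : ℝ → Fin m) (l : List ℝ) (τ : List (Fin m)), Geo s cap η t E near → τ.length = l.length →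
  Respects cap τ →
  (∀ k, k ≤ E → (τ.countP (fun j => decide (t j = k)) : ℝ) ≤ ck t cap k) ∧
  ∑ k ∈ range (E + 1), (τ.countP (fun j => decide (t j = k)) : ℝ) = l.length ∧
  ds s near l ≤ cost s l τ ∧
  ∑ k ∈ range E, |fl (fun x => (τ.countP (fun j => decide (t j = x)) : ℝ)) (vn t near l) k| ≤
    4 / η * cost s l τ ∧
  ((∃ k, k ≤ E ∧ ck t cap k < (vn t near l).count k) →
    1 ≤ ∑ k ∈ range E, |fl (fun x => (τ.countP (fun j => decide (t j = x)) : ℝ)) (vn t near l) k|)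

/-- The ratio `√(log m)`. USES `Core2`, `M_Geo`, `M_GeoE`, `M_Shr`, `M_Pul`, `M_Lo`, `M_Mrg`, `M_Mm`. PROOF. If all
capacities are `0`: `y = 0` (only `l = []`, `Mov = 0`). Else `Geo s cap η t E near`. `a` from `Core2` for
`c = ck t cap`, `b0 = 1/(E+1)` (`M_Shr` (4)). `Q l` = (`(vn l).count k > ck k` for some `k ≤ E`), monotone, `¬ Q []`.
FAMILY B: `yB l = sk t cap (a (vn l))`, all lists of length `≤ ∑ cap`. FAMILY A: `yA l = sk t cap` of the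
counts of `vn l` if `¬ Q l`, and `l.length * cap j / ∑ cap` if `Q l`. Both are families (`M_Shr` (1), (3)).
`Mov s yB l ≤ Mv s yB l ≤ ds + η mvN E a (vn l)` (`M_Mm`, `M_Pul`). For `¬ Q l`: `Mv s yA l ≤ ds l` (`M_Pul` for
`b λ k = λ.count k`, all suffixes satisfy `¬ Q`; the steps of `mvN` are `0`: the increment is at the
node `v` itself), so `Mov s yA l ≤ ds l ≤ cost s l τ` for all `τ`. For `Q l`, `u` as in `M_Lo`: `b0 E ≤ 1 ≤
∑ |fl u| ≤ (4/η) cost s l τ`, so `η mvN ≤ 8 C √(..) cost s l τ`. Merge (`M_Mrg`): for `¬ Q l` the movement is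
`≤ cost s l τ`, for `Q l` it is `≤ Mov s yB l + 2 Mov s yA l' ≤ (3 + 8 C √..) cost s l τ` (for the suffix `l'` take
the suffix of `τ` of the same length; its cost is at most `cost s l τ`). At last
`3 + 8 C √(Nat.log 2 m + 31) ≤ C' √(log (m + 1))` (`1 ≤ m`; `Nat.log 2 m ≤ log m / log 2`,
`log (m+1) ≥ log 2 ≥ 1/2`, so `Nat.log 2 m + 31 ≤ 64 log (m + 1)`). -/
def M_Bas : Prop := ∃ C : ℝ, 0 < C ∧ ∀ (m : ℕ) (s : Fin m → ℝ) (cap : Fin m → ℕ),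
  ∃ y : List ℝ → Fin m → ℝ, Fam cap y ∧
    ∀ (l : List ℝ) (τ : List (Fin m)), τ.length = l.length → Respects cap τ →
      Mov s y l ≤ C * Real.sqrt (Real.log (m + 1)) * cost s l τ

/-- Both bounds. USES `SO.O_Frac`, `M_Bas`, `M_Mrg`. PROOF. `m = 0`: only `l = []`, `y = 0`. `1 ≤ m`:
`Q l` = (`m ≤ l.length`); `yA` from `SO.O_Frac`, `yB` from `M_Bas`. `¬ Q l`: `min l.length m = l.length`. `Q l`:
`Mov s y l ≤ Mov s yB l + 2 Mov s yA l'`, `l'.length < m`, and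
`Mov s yA l' ≤ CA √(log (l'.length + 1)) cost s l' τ' ≤ CA √(log (m + 1)) cost s l τ` (`τ'` the corresponding
suffix of `τ`). -/
def M_Frac : Prop := ∃ C : ℝ, 0 < C ∧ ∀ (m : ℕ) (s : Fin m → ℝ) (cap : Fin m → ℕ),
  ∃ y : List ℝ → Fin m → ℝ, Fam cap y ∧
    ∀ (l : List ℝ) (τ : List (Fin m)), τ.length = l.length → Respects cap τ →
      Mov s y l ≤ C * Real.sqrt (Real.log ((min l.length m : ℕ) + 1)) * cost s l τ

/-- The theorem. USES `M_Frac`, `SO.Rnd`. PROOF: as `SO.finP` (`SO/Fin.lean`). -/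
def Final2 : Prop := ∃ C : ℝ, 0 < C ∧ ∀ (m : ℕ) (hm : 0 < m) (s : Fin m → ℝ) (cap : Fin m → ℕ),
  ∃ (Ω : Type) (_ : MeasurableSpace Ω) (μ : Measure Ω) (_ : IsProbabilityMeasure μ)
    (A : Ω → ℝ → List ℝ → Fin m),
    (∀ x l, Measurable (fun ω => A ω x l)) ∧
    (∀ ω l, l.length ≤ ∑ j, cap j → Respects cap (assigned (A ω) l)) ∧
    ∀ (l : List ℝ) (τ : List (Fin m)), τ.length = l.length → Respects cap τ →
      ∫ ω, cost s l (assigned (A ω) l) ∂μ ≤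
        C * Real.sqrt (Real.log ((min l.length m : ℕ) + 1)) * cost s l τ

end Pool.Agent.MP_a4c1f4_lc.SM
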